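import Pool.Agent.H654R4.Stmts

set_option autoImplicit false

open Finset

namespace Pool.H654R4

theorem task_neverCube : TaskNeverCube := by
  intro F _ h2 i hi t0 t1 ht A B C E hA hB hC hE ⟨e1, e2, e3⟩
  have hip : (1 + i) ≠ 0 := by
    intro h
    apply h2
    have : (2 : F) = (1 + i) * (1 - i) := by linear_combination hi
    rw [this, h, zero_mul]
  have him : (1 - i) ≠ 0 := by
    intro h
    apply h2
    have : (2 : F) = (1 + i) * (1 - i) := by linear_combination hi
    rw [this, h, mul_zero]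
  have hi0 : i ≠ 0 := by
    intro h
    rw [h] at hi
    norm_num at hi
  have hAE : (t0 ^ 4 - t1 ^ 4) * (t0 ^ 2 * i + t1 ^ 2) = 0 := by
    have : (t0 ^ 4 - t1 ^ 4) * ((1 + i) * t0 ^ 2 + (1 - i) * t1 ^ 2) = 0 := by
      rw [hA, hB, hC, hE] at e2
      linear_combination e2 + (t0 ^ 3 * t1 ^ 3 - t0^3*t1^3) * hi
    have h' : (1 + i) * ((t0 ^ 4 - t1 ^ 4) * ((1 + i) * t0 ^ 2 + (1 - i) * t1 ^ 2)) = 0 := by
      rw [this, mul_zero]
    have h'' : 2 * ((t0 ^ 4 - t1 ^ 4) * (t0 ^ 2 * i + t1 ^ 2)) = 0 := by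
      linear_combination h' - (t0 ^ 4 - t1 ^ 4) * (t0 ^ 2 - t1 ^ 2) * hi
    exact (mul_eq_zero.mp h'').resolve_left h2
  by_cases h0 : t0 = 0
  · have h1 : t1 ≠ 0 := fun h => ht ⟨h0, h⟩
    rw [h0] at hAE
    apply h1
    have : t1 ^ 6 = 0 := by linear_combination -hAE
    exact pow_eq_zero_iff (by norm_num) |>.mp this
  by_cases h1 : t1 = 0
  · rw [h1] at hAE
    have : i * t0 ^ 6 = 0 := by linear_combination hAE
    rcases mul_eq_zero.mp this with h | h
    · exact hi0 h
    · exact h0 (pow_eq_zero_iff (by norm_num) |>.mp h)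
  have hF : t0 ^ 4 + t1 ^ 4 - 2 * (1 + i) * t0 ^ 3 * t1 - 2 * i * t0 ^ 2 * t1 ^ 2 = 0 := by
    have h : (1 + i) * t0 * t1 *
        (t0 ^ 4 + t1 ^ 4 - 2 * (1 + i) * t0 ^ 3 * t1 - 2 * i * t0 ^ 2 * t1 ^ 2) = 0 := by
      rw [hA, hB, hC] at e1
      linear_combination -e1 + (-2 * t0 ^ 4 * t1 ^ 2 - 2 * t0 ^ 3 * t1 ^ 3) * hi
    have hne : (1 + i) * t0 * t1 ≠ 0 := mul_ne_zero (mul_ne_zero hip h0) h1
    exact (mul_eq_zero.mp h).resolve_left hne
  rcases mul_eq_zero.mp hAE with h | h
  · have h' : (t0 - t1) * ((t0 + t1) * (t0 ^ 2 + t1 ^ 2)) = 0 := by linear_combination h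
    rcases mul_eq_zero.mp h' with h | h
    · have e : t1 = t0 := by linear_combination -h
      rw [e] at hF
      have : i * (2 * 2 * t0 ^ 4) = 0 := by linear_combination -hF
      rcases mul_eq_zero.mp this with h | h
      · exact hi0 h
      · exact (mul_ne_zero (mul_ne_zero h2 h2) (pow_ne_zero 4 h0)) h
    · rcases mul_eq_zero.mp h with h | h
      · have e : t1 = -t0 := by linear_combination h
        rw [e] at hF
        have : (2 * 2 * t0 ^ 4) = 0 := by linear_combination hF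
        exact (mul_ne_zero (mul_ne_zero h2 h2) (pow_ne_zero 4 h0)) this
      · have e : t1 ^ 2 = - t0 ^ 2 := by linear_combination h
        have h3 : (2 * (1 + i) * t0 ^ 3) * (t0 - t1) = 0 := by
          linear_combination hF - (t1 ^ 2 - t0 ^ 2 - 2 * i * t0 ^ 2) * e
        have h4 : t0 - t1 = 0 :=
          (mul_eq_zero.mp h3).resolve_left
            (mul_ne_zero (mul_ne_zero h2 hip) (pow_ne_zero 3 h0))
        have e' : t1 = t0 := by linear_combination -h4
        rw [e'] at e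
        have : 2 * t0 ^ 2 = 0 := by linear_combination e
        exact (mul_ne_zero h2 (pow_ne_zero 2 h0)) this
  · have e : t1 ^ 2 = - (t0 ^ 2 * i) := by linear_combination h
    have h3 : (2 * t0 ^ 3) * ((1 + i) * t1 + t0) = 0 := by
      linear_combination -hF + (t1 ^ 2 - t0 ^ 2 * i - 2 * i * t0 ^ 2) * e + 3 * t0 ^ 4 * hi
    have h4 : (1 + i) * t1 + t0 = 0 :=
      (mul_eq_zero.mp h3).resolve_left (mul_ne_zero h2 (pow_ne_zero 3 h0))
    have h5 : t0 ^ 2 = 0 := by
      have h6 : (1 + i) ^ 2 * t1 ^ 2 = t0 ^ 2 := by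
        have : (1 + i) * t1 = - t0 := by linear_combination h4
        calc (1 + i) ^ 2 * t1 ^ 2 = ((1 + i) * t1) ^ 2 := by ring
          _ = t0 ^ 2 := by rw [this]; ring
      rw [e] at h6
      linear_combination h6 + (t0 ^ 2 * (2 + i)) * hi
    exact h0 (pow_eq_zero_iff (by norm_num) |>.mp h5)

theorem task_cover : TaskCover := by
  intro F _ _ _ h2 i hi x hx
  have hi0 : i ≠ 0 := by
    intro h
    rw [h] at hi
    norm_num at hi
  simp only [H, Finset.mem_filter, Finset.mem_univ, true_and] at hx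
  obtain ⟨hx1, hx2⟩ := hx
  have hab : (x 0 + i * x 1) * (x 0 - i * x 1) = (x 3 + x 2) * (x 3 - x 2) := by
    linear_combination hx1 - x 1 ^ 2 * hi
  by_cases hac : x 0 + i * x 1 = 0 ∧ x 3 + x 2 = 0
  · right
    obtain ⟨ha, hc⟩ := hac
    refine ⟨x 0 - i * x 1, x 3 - x 2, 2 * x 4, ?_, ?_⟩
    · funext j
      fin_cases j
      · show x 0 = (x 0 - i * x 1) / 2
        field_simp
        linear_combination ha
      · show x 1 = -(x 0 - i * x 1) / (2 * i)
        field_simp
        linear_combination ha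
      · show x 2 = -(x 3 - x 2) / 2
        field_simp
        linear_combination hc
      · show x 3 = (x 3 - x 2) / 2
        field_simp
        linear_combination hc
      · show x 4 = (2 * x 4) / 2
        field_simp
    · unfold pt cub
      have e0 : x 0 = - (i * x 1) := by linear_combination ha
      have e3 : x 3 = - x 2 := by linear_combination hc
      rw [e0] at hx2
      rw [e0, e3]
      linear_combination (-8) * hx2 + (8 * x 1 ^ 3 - 8 * i * x 1 ^ 3 * (1 + i) + 8 * x 1 ^ 3 * i) * hi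
  · left
    have ht : ∃ t : F, x 3 - x 2 = (x 0 + i * x 1) * t ∧ x 0 - i * x 1 = (x 3 + x 2) * t := by
      by_cases ha : x 0 + i * x 1 = 0
      · have hc : x 3 + x 2 ≠ 0 := fun h => hac ⟨ha, h⟩
        refine ⟨(x 0 - i * x 1) / (x 3 + x 2), ?_, ?_⟩
        · rw [ha, zero_mul] at hab ⊢
          exact (mul_eq_zero.mp hab.symm).resolve_left hc
        · field_simp
      · refine ⟨(x 3 - x 2) / (x 0 + i * x 1), ?_, ?_⟩
        · field_simp
        · field_simp
          linear_combination hab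
    obtain ⟨t, ht1, ht2⟩ := ht
    refine ⟨t, x 0 + i * x 1, x 3 + x 2, 2 * x 4, ?_, ?_⟩
    · funext j
      fin_cases j
      · show x 0 = (x 0 + i * x 1 + (x 3 + x 2) * t) / 2
        rw [← ht2]
        field_simp
        ring
      · show x 1 = (x 0 + i * x 1 - (x 3 + x 2) * t) / (2 * i)
        rw [← ht2]
        field_simp
        ring
      · show x 2 = (x 3 + x 2 - (x 0 + i * x 1) * t) / 2
        rw [← ht1]
        field_simp
        ring
      · show x 3 = (x 3 + x 2 + (x 0 + i * x 1) * t) / 2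
        rw [← ht1]
        field_simp
        ring
      · show x 4 = (2 * x 4) / 2
        field_simp
    · have key : pt i 1 t (x 0 + i * x 1) (x 3 + x 2) =
          (1 + i) * (x 0 + i * x 1) ^ 3 + 3 * (1 - i) * (x 0 + i * x 1) ^ 2 * ((x 3 + x 2) * t)
          + 3 * (1 + i) * (x 0 + i * x 1) * ((x 3 + x 2) * t) ^ 2
          + (1 - i) * ((x 3 + x 2) * t) ^ 3 + ((x 3 + x 2) - (x 0 + i * x 1) * t) ^ 3 := by
        unfold pt cub
        ring
      rw [key, ← ht1, ← ht2]
      have h8 : (1 + i) * (x 0 + i * x 1) ^ 3 + 3 * (1 - i) * (x 0 + i * x 1) ^ 2 * (x 0 - i * x 1)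
          + 3 * (1 + i) * (x 0 + i * x 1) * (x 0 - i * x 1) ^ 2
          + (1 - i) * (x 0 - i * x 1) ^ 3 = 8 * x 0 ^ 3 + 8 * x 1 ^ 3 := by
        linear_combination (8 * i ^ 2 * x 1 ^ 3 - 8 * x 1 ^ 3) * hi
      rw [h8]
      linear_combination (-8) * hx2

end Pool.H654R4
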