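import Pool.Agent.H654R4.Stmts

set_option autoImplicit false

open Finset

namespace Pool.H654R4

theorem own_harm3 : TaskHarm3 := by
  intro C hC
  refine ⟨C, ?_⟩
  intro G _ _ _ q V hq hG hyp f
  have hq0 : (0 : ℝ) < (q : ℝ) := by exact_mod_cast hq
  set Q : ℝ := (q : ℝ) ^ 5 with hQ
  have hQ0 : 0 < Q := by positivity
  set u : G → ℝ := fun y => (V.card : ℝ)⁻¹ * ∑ x ∈ V, ‖f (y - x)‖ with hu
  have hu0 : ∀ y, 0 ≤ u y := fun y => by
    simp only [hu]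
    positivity
  have hTu : ∀ y, ‖((V.card : ℂ))⁻¹ * ∑ x ∈ V, f (y - x)‖ ≤ u y := by
    intro y
    simp only [hu]
    rw [norm_mul, norm_inv, Complex.norm_natCast]
    exact mul_le_mul_of_nonneg_left (norm_sum_le _ _) (by positivity)
  set a : ℝ := ∑ x, ‖f x‖ ^ ((10 : ℝ) / 7) with ha
  set X : ℝ := ∑ y, u y ^ ((10 : ℝ) / 3) with hX
  have ha0 : 0 ≤ a := Finset.sum_nonneg fun x _ => by positivity
  have hX0 : 0 ≤ X := Finset.sum_nonneg fun x _ => Real.rpow_nonneg (hu0 x) _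
  -- the main inequality
  have main : X ^ ((3 : ℝ) / 10) ≤ C * a ^ ((7 : ℝ) / 10) * Q ^ (-(4 : ℝ) / 10) := by
    by_cases haz : a = 0
    · have hf0 : ∀ x, ‖f x‖ = 0 := by
        intro x
        have h := (Finset.sum_eq_zero_iff_of_nonneg (fun x _ => by positivity)).mp haz x
          (Finset.mem_univ x)
        rwa [Real.rpow_eq_zero (norm_nonneg _) (by norm_num)] at h
      have hXz : X = 0 := by
        rw [hX]
        apply Finset.sum_eq_zero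
        intro y _
        have : u y = 0 := by
          simp only [hu]
          rw [Finset.sum_eq_zero (fun x _ => hf0 _), mul_zero]
        rw [this, Real.zero_rpow (by norm_num)]
      rw [hXz, haz, Real.zero_rpow (by norm_num), Real.zero_rpow (by norm_num)]
      simp
    by_cases hXz : X = 0
    · rw [hXz, Real.zero_rpow (by norm_num)]
      positivity
    have hap : 0 < a := lt_of_le_of_ne ha0 (Ne.symm haz)
    have hXp : 0 < X := lt_of_le_of_ne hX0 (Ne.symm hXz)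
    have h1 := hyp (fun x => ‖f x‖ * (Q / a) ^ ((7 : ℝ) / 10))
      (fun y => u y ^ ((7 : ℝ) / 3) * (Q / X) ^ ((7 : ℝ) / 10))
      (fun x => by positivity)
      (fun y => mul_nonneg (Real.rpow_nonneg (hu0 y) _) (by positivity))
      (by
        have : ∀ x, (‖f x‖ * (Q / a) ^ ((7 : ℝ) / 10)) ^ ((10 : ℝ) / 7) =
            ‖f x‖ ^ ((10 : ℝ) / 7) * (Q / a) := by
          intro x
          rw [Real.mul_rpow (norm_nonneg _) (by positivity), ← Real.rpow_mul (by positivity)]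
          norm_num
        rw [Finset.sum_congr rfl (fun x _ => this x), ← Finset.sum_mul, ← ha]
        field_simp)
      (by
        have : ∀ y, (u y ^ ((7 : ℝ) / 3) * (Q / X) ^ ((7 : ℝ) / 10)) ^ ((10 : ℝ) / 7) =
            u y ^ ((10 : ℝ) / 3) * (Q / X) := by
          intro y
          rw [Real.mul_rpow (Real.rpow_nonneg (hu0 y) _) (by positivity),
            ← Real.rpow_mul (hu0 y), ← Real.rpow_mul (by positivity)]
          norm_num
        rw [Finset.sum_congr rfl (fun x _ => this x), ← Finset.sum_mul, ← hX]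
        field_simp)
    have h2 : ∑ y, ((V.card : ℝ)⁻¹ * ∑ x ∈ V, ‖f (y - x)‖ * (Q / a) ^ ((7 : ℝ) / 10)) *
        (u y ^ ((7 : ℝ) / 3) * (Q / X) ^ ((7 : ℝ) / 10)) =
        (Q / a) ^ ((7 : ℝ) / 10) * (Q / X) ^ ((7 : ℝ) / 10) * X := by
      rw [hX, Finset.mul_sum]
      apply Finset.sum_congr rfl
      intro y _
      have e1 : (V.card : ℝ)⁻¹ * ∑ x ∈ V, ‖f (y - x)‖ * (Q / a) ^ ((7 : ℝ) / 10) =
          u y * (Q / a) ^ ((7 : ℝ) / 10) := by
        simp only [hu]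
        rw [← Finset.sum_mul]
        ring
      have e2 : u y ^ ((10 : ℝ) / 3) = u y * u y ^ ((7 : ℝ) / 3) := by
        by_cases h0 : u y = 0
        · rw [h0, Real.zero_rpow (by norm_num), zero_mul]
        · have hp : 0 < u y := lt_of_le_of_ne (hu0 y) (Ne.symm h0)
          conv_rhs => rw [← Real.rpow_one (u y), ← Real.rpow_mul hp.le, ← Real.rpow_add hp]
          norm_num
      rw [e1, e2]
      ring
    rw [h2] at h1
    rw [Real.div_rpow hQ0.le hap.le, Real.div_rpow hQ0.le hXp.le] at h1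
    have hXe : X = X ^ ((3 : ℝ) / 10) * X ^ ((7 : ℝ) / 10) := by
      rw [← Real.rpow_add hXp]
      norm_num
    have hQe : Q = Q ^ ((7 : ℝ) / 10) * Q ^ ((7 : ℝ) / 10) * Q ^ (-(4 : ℝ) / 10) := by
      rw [← Real.rpow_add hQ0, ← Real.rpow_add hQ0]
      norm_num
    have hXa : 0 < X ^ ((7 : ℝ) / 10) := Real.rpow_pos_of_pos hXp _
    have haa : 0 < a ^ ((7 : ℝ) / 10) := Real.rpow_pos_of_pos hap _
    have hQa : 0 < Q ^ ((7 : ℝ) / 10) := Real.rpow_pos_of_pos hQ0 _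
    have h3 : Q ^ ((7 : ℝ) / 10) / a ^ ((7 : ℝ) / 10) * (Q ^ ((7 : ℝ) / 10) / X ^ ((7 : ℝ) / 10)) * X
        = (Q ^ ((7 : ℝ) / 10) * Q ^ ((7 : ℝ) / 10)) * (X ^ ((3 : ℝ) / 10) / a ^ ((7 : ℝ) / 10)) := by
      nth_rewrite 2 [hXe]
      field_simp
    have h4 : C * Q = (Q ^ ((7 : ℝ) / 10) * Q ^ ((7 : ℝ) / 10)) * (C * Q ^ (-(4 : ℝ) / 10)) := by
      nth_rewrite 1 [hQe]
      ring
    have h1' : Q ^ ((7 : ℝ) / 10) / a ^ ((7 : ℝ) / 10) * (Q ^ ((7 : ℝ) / 10) / X ^ ((7 : ℝ) / 10)) * X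
        ≤ C * Q := h1
    rw [h3, h4] at h1'
    have h5 := le_of_mul_le_mul_left h1' (mul_pos hQa hQa)
    rw [div_le_iff₀ haa] at h5
    calc X ^ ((3 : ℝ) / 10) ≤ C * Q ^ (-(4 : ℝ) / 10) * a ^ ((7 : ℝ) / 10) := h5
      _ = _ := by ring
  -- norms
  have r1 : (0 : ℝ) < (ENNReal.ofReal (10 / 3)).toReal := by
    rw [ENNReal.toReal_ofReal (by norm_num)]; norm_num
  have r2 : (0 : ℝ) < (ENNReal.ofReal (10 / 7)).toReal := by
    rw [ENNReal.toReal_ofReal (by norm_num)]; norm_num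
  rw [PiLp.norm_eq_sum r1, PiLp.norm_eq_sum r2, ENNReal.toReal_ofReal (by norm_num),
    ENNReal.toReal_ofReal (by norm_num)]
  have e10 : (1 : ℝ) / (10 / 3) = 3 / 10 := by norm_num
  have e11 : (1 : ℝ) / (10 / 7) = 7 / 10 := by norm_num
  rw [e10, e11]
  have hleft : (∑ y : G, ‖((V.card : ℂ))⁻¹ * ∑ x ∈ V, f (y - x)‖ ^ ((10 : ℝ) / 3)) ^ ((3 : ℝ) / 10)
      ≤ X ^ ((3 : ℝ) / 10) := by
    apply Real.rpow_le_rpow
    · exact Finset.sum_nonneg fun x _ => by positivity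
    · apply Finset.sum_le_sum
      intro y _
      exact Real.rpow_le_rpow (norm_nonneg _) (hTu y) (by norm_num)
    · norm_num
  have hqe : (q : ℝ) ^ (-(5 : ℝ) * (3 / 10)) * Q ^ (-(4 : ℝ) / 10) = (q : ℝ) ^ (-(5 : ℝ) * (7 / 10)) := by
    rw [hQ, ← Real.rpow_natCast, ← Real.rpow_mul hq0.le, ← Real.rpow_add hq0]
    norm_num
  calc (q : ℝ) ^ (-(5 : ℝ) * (3 / 10)) *
        (∑ y : G, ‖((V.card : ℂ))⁻¹ * ∑ x ∈ V, f (y - x)‖ ^ ((10 : ℝ) / 3)) ^ ((3 : ℝ) / 10)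
      ≤ (q : ℝ) ^ (-(5 : ℝ) * (3 / 10)) * (C * a ^ ((7 : ℝ) / 10) * Q ^ (-(4 : ℝ) / 10)) :=
        mul_le_mul_of_nonneg_left (hleft.trans main) (by positivity)
    _ = C * (((q : ℝ) ^ (-(5 : ℝ) * (3 / 10)) * Q ^ (-(4 : ℝ) / 10)) * a ^ ((7 : ℝ) / 10)) := by ring
    _ = C * ((q : ℝ) ^ (-(5 : ℝ) * (7 / 10)) * a ^ ((7 : ℝ) / 10)) := by rw [hqe]

end Pool.H654R4
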