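import Pool.Agent.H654R4.Stmts

set_option autoImplicit false

/-! Task Aniso1 of project H654-AVG. -/

open Finset

namespace Pool.H654R4

namespace Aniso1

open Polynomial

section

variable {F : Type} [Field F]

theorem card_cube [Fintype F] [DecidableEq F] (c : F) :
    (univ.filter (fun y : F => y ^ 3 = c)).card ≤ 3 := by
  have hne : (X ^ 3 - C c : F[X]) ≠ 0 := Polynomial.X_pow_sub_C_ne_zero (by norm_num) c
  have h1 : (univ.filter (fun y : F => y ^ 3 = c)) ⊆ (X ^ 3 - C c : F[X]).roots.toFinset := by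
    intro y hy
    rw [mem_filter] at hy
    rw [Multiset.mem_toFinset, mem_roots hne]
    simp [IsRoot, hy.2]
  calc _ ≤ (X ^ 3 - C c : F[X]).roots.toFinset.card := card_le_card h1
    _ ≤ Multiset.card (X ^ 3 - C c : F[X]).roots := Multiset.toFinset_card_le _
    _ ≤ (X ^ 3 - C c : F[X]).natDegree := card_roots' _
    _ = 3 := natDegree_X_pow_sub_C

/-- coefficients of the cubic -/
def cA (i t : F) : F := (1 + i) - t ^ 3
def cB (i t : F) : F := (1 - i) * t + t ^ 2
def cC (i t : F) : F := (1 + i) * t ^ 2 - t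
def cE (i t : F) : F := (1 - i) * t ^ 3 + 1

/-- the discriminant -/
def del (i t : F) : F :=
  (cA i t * cE i t - cB i t * cC i t) ^ 2 -
    4 * (cA i t * cC i t - cB i t ^ 2) * (cB i t * cE i t - cC i t ^ 2)

noncomputable def PP (i t : F) : F[X] :=
  C (cA i t) + C (3 * cB i t) * X + C (3 * cC i t) * X ^ 2 + C (cE i t) * X ^ 3

theorem PP_eval (i t τ : F) : (PP i t).eval τ = pt i 1 t 1 τ := by
  simp only [PP, pt, cub, cA, cB, cC, cE, eval_add, eval_mul, eval_C, eval_X, eval_pow]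
  ring

theorem PP_deg (i t : F) : (PP i t).natDegree ≤ 3 := by
  unfold PP
  compute_degree

/-- the discriminant as a polynomial -/
noncomputable def delP (i : F) : F[X] :=
  ((C (1 + i) - X ^ 3) * (C (1 - i) * X ^ 3 + 1) -
    (C (1 - i) * X + X ^ 2) * (C (1 + i) * X ^ 2 - X)) ^ 2 -
    4 * ((C (1 + i) - X ^ 3) * (C (1 + i) * X ^ 2 - X) - (C (1 - i) * X + X ^ 2) ^ 2) *
      ((C (1 - i) * X + X ^ 2) * (C (1 - i) * X ^ 3 + 1) - (C (1 + i) * X ^ 2 - X) ^ 2)

theorem delP_eval (i t : F) : (delP i).eval t = del i t := by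
  simp only [delP, del, cA, cB, cC, cE, eval_add, eval_sub, eval_mul, eval_C, eval_X, eval_pow,
    eval_one, eval_ofNat]

theorem delP_deg (i : F) : (delP i).natDegree ≤ 12 := by
  unfold delP
  compute_degree

theorem delP_ne (h2 : (2 : F) ≠ 0) (i : F) (hi : i ^ 2 = -1) : delP i ≠ 0 := by
  intro h0
  have h := delP_eval i 0
  rw [h0, eval_zero] at h
  have h1 : del i 0 = 2 * i := by
    simp only [del, cA, cB, cC, cE]
    linear_combination hi
  rw [h1] at h
  have hi0 : i ≠ 0 := by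
    intro hi0
    rw [hi0] at hi
    have h3 : (1 : F) = 0 := by linear_combination hi
    exact one_ne_zero h3
  exact (mul_ne_zero h2 hi0) h.symm

theorem card_del [Fintype F] [DecidableEq F] (h2 : (2 : F) ≠ 0) (i : F) (hi : i ^ 2 = -1) :
    (univ.filter (fun t : F => del i t = 0)).card ≤ 12 := by
  have hne := delP_ne h2 i hi
  have h1 : (univ.filter (fun t : F => del i t = 0)) ⊆ (delP i).roots.toFinset := by
    intro t ht
    rw [mem_filter] at ht
    rw [Multiset.mem_toFinset, mem_roots hne, IsRoot, delP_eval]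
    exact ht.2
  calc _ ≤ (delP i).roots.toFinset.card := card_le_card h1
    _ ≤ Multiset.card (delP i).roots := Multiset.toFinset_card_le _
    _ ≤ (delP i).natDegree := card_roots' _
    _ ≤ 12 := delP_deg i

theorem PP_sep (h3 : (3 : F) ≠ 0) (i t : F) (h : del i t ≠ 0) : (PP i t).Separable := by
  rw [Polynomial.separable_def]
  set a0 := cA i t
  set b0 := cB i t
  set c0 := cC i t
  set e0 := cE i t
  have hder : derivative (PP i t) = C 3 * (C b0 + C (2 * c0) * X + C e0 * X ^ 2) := by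
    unfold PP
    simp only [derivative_add, derivative_C, derivative_C_mul, derivative_X, derivative_X_pow,
      Nat.cast_ofNat, show (3 : ℕ) - 1 = 2 from rfl, show (2 : ℕ) - 1 = 1 from rfl]
    simp only [C_mul]
    ring
  rw [hder]
  set D02 := a0 * e0 - b0 * c0 with hD02
  set D12 := 2 * (b0 * e0 - c0 ^ 2) with hD12
  set U : F[X] := C (D02 * e0) - C D12 * (C (2 * c0) + C e0 * X) with hU
  set V : F[X] := - C (D02 * c0) + C D12 * (C (2 * b0) + C c0 * X) with hV
  have hinv : (C (3 : F)⁻¹ : F[X]) * C 3 = 1 := by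
    rw [← C_mul, inv_mul_cancel₀ h3, C_1]
  have hdel : (C (del i t)⁻¹ : F[X]) * C (del i t) = 1 := by
    rw [← C_mul, inv_mul_cancel₀ h, C_1]
  refine ⟨C (del i t)⁻¹ * U, C (del i t)⁻¹ * C (3 : F)⁻¹ * (V - X * U), ?_⟩
  have key : U * PP i t + (V - X * U) * (C b0 + C (2 * c0) * X + C e0 * X ^ 2) =
      C (del i t) := by
    rw [hU, hV]
    unfold PP del
    simp only [map_mul, map_sub, map_pow, map_ofNat, hD02, hD12]
    ring
  calc C (del i t)⁻¹ * U * PP i t + C (del i t)⁻¹ * C (3 : F)⁻¹ * (V - X * U) *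
        (C 3 * (C b0 + C (2 * c0) * X + C e0 * X ^ 2)) =
      C (del i t)⁻¹ * (U * PP i t + (C (3 : F)⁻¹ * C 3) * ((V - X * U) *
        (C b0 + C (2 * c0) * X + C e0 * X ^ 2))) := by ring
    _ = 1 := by rw [hinv, one_mul, key, hdel]

theorem PP_not_unit (h3 : (3 : F) ≠ 0) (i t : F) (h : del i t ≠ 0) : ¬ IsUnit (PP i t) := by
  intro hu
  rw [Polynomial.isUnit_iff] at hu
  obtain ⟨r, -, hr⟩ := hu
  have hc : ∀ n, 0 < n → (PP i t).coeff n = 0 := by
    intro n hn
    rw [← hr, coeff_C, if_neg (by omega)]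
  have e1 : (PP i t).coeff 1 = 3 * cB i t := by
    unfold PP
    simp only [coeff_add, coeff_C_mul, coeff_X_pow, coeff_C, coeff_X]
    norm_num
  have e2 : (PP i t).coeff 2 = 3 * cC i t := by
    unfold PP
    simp only [coeff_add, coeff_C_mul, coeff_X_pow, coeff_C, coeff_X]
    norm_num
  have e3 : (PP i t).coeff 3 = cE i t := by
    unfold PP
    simp only [coeff_add, coeff_C_mul, coeff_X_pow, coeff_C, coeff_X]
    norm_num
  have h1 := hc 1 (by norm_num)
  have h2 := hc 2 (by norm_num)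
  have h4 := hc 3 (by norm_num)
  rw [e1] at h1
  rw [e2] at h2
  rw [e3] at h4
  have hb : cB i t = 0 := (mul_eq_zero.1 h1).resolve_left h3
  have hcc : cC i t = 0 := (mul_eq_zero.1 h2).resolve_left h3
  apply h
  unfold del
  rw [hb, hcc, h4]
  ring

/-- the coordinates -/
noncomputable def x0 (a t : F) : F[X] := C a + C (t * a) * X
noncomputable def x1 (c t : F) : F[X] := C c - C (t * c) * X
noncomputable def x2 (a t : F) : F[X] := C a * X - C (t * a)
noncomputable def x3 (a t : F) : F[X] := C a * X + C (t * a)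

noncomputable def BB (a c t : F) (z : Fin 5 → F) : F[X] :=
  x0 a t * C (z 0) + x1 c t * C (z 1) + x2 a t * C (z 2) - x3 a t * C (z 3)

noncomputable def beta (a c t : F) (z : Fin 5 → F) : F[X] :=
  - C (6 * h1 z * a * z 4 ^ 2) * BB a c t z

noncomputable def gamma (a c t : F) (z : Fin 5 → F) : F[X] :=
  - C (3 * h1 z ^ 2) * (x0 a t ^ 2 * C (z 0) + x1 c t ^ 2 * C (z 1) + x2 a t ^ 2 * C (z 2)) +
    C (6 * h1 z) * BB a c t z *
      (x0 a t * C (z 0 ^ 2) + x1 c t * C (z 1 ^ 2) + x2 a t * C (z 2 ^ 2)) -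
    C (4 * h2 z) * BB a c t z ^ 2

theorem BB_deg (a c t : F) (z : Fin 5 → F) : (BB a c t z).natDegree ≤ 1 := by
  unfold BB x0 x1 x2 x3
  compute_degree

theorem beta_deg (a c t : F) (z : Fin 5 → F) : (beta a c t z).natDegree ≤ 1 := by
  unfold beta BB x0 x1 x2 x3
  compute_degree

theorem gamma_deg (a c t : F) (z : Fin 5 → F) : (gamma a c t z).natDegree ≤ 2 := by
  unfold gamma BB x0 x1 x2 x3
  compute_degree

theorem Dz_eq (i t τ y : F) (z : Fin 5 → F) :
    Dz z (phi i t 1 τ y) = (3 * h1 z ^ 2 * (2 : F)⁻¹ ^ 2 * z 4) * y ^ 2 +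
      (beta (2 : F)⁻¹ (2 * i)⁻¹ t z).eval τ * y + (gamma (2 : F)⁻¹ (2 * i)⁻¹ t z).eval τ := by
  have e0 : phi i t 1 τ y 0 = (1 + τ * t) * (2 : F)⁻¹ := by
    simp [phi, div_eq_mul_inv]
  have e1 : phi i t 1 τ y 1 = (1 - τ * t) * (2 * i)⁻¹ := by
    simp [phi, div_eq_mul_inv]
  have e2 : phi i t 1 τ y 2 = (τ - t) * (2 : F)⁻¹ := by
    simp [phi, div_eq_mul_inv]
  have e3 : phi i t 1 τ y 3 = (τ + t) * (2 : F)⁻¹ := by
    simp [phi, div_eq_mul_inv]
  have e4 : phi i t 1 τ y 4 = y * (2 : F)⁻¹ := by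
    simp [phi, div_eq_mul_inv]
  unfold Dz Cxx B Cxz
  rw [e0, e1, e2, e3, e4]
  simp only [beta, gamma, BB, x0, x1, x2, x3, eval_add, eval_sub, eval_mul, eval_C, eval_X,
    eval_pow, eval_neg]
  generalize (2 : F)⁻¹ = a
  generalize (2 * i)⁻¹ = c
  ring

/-- the eliminant -/
noncomputable def RR (al : F) (be ga P : F[X]) : F[X] :=
  ga ^ 3 + be ^ 3 * P + C (al ^ 3) * P ^ 2 - C (3 * al) * be * ga * P

theorem RR_deg (al : F) (be ga P : F[X]) (hb : be.natDegree ≤ 1) (hg : ga.natDegree ≤ 2)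
    (hP : P.natDegree ≤ 3) : (RR al be ga P).natDegree ≤ 6 := by
  unfold RR
  have h1 : (ga ^ 3).natDegree ≤ 6 := natDegree_pow_le_of_le 3 hg
  have h2 : (be ^ 3 * P).natDegree ≤ 6 :=
    natDegree_mul_le_of_le (natDegree_pow_le_of_le 3 hb) hP
  have h3 : (C (al ^ 3) * P ^ 2).natDegree ≤ 6 :=
    (natDegree_C_mul_le _ _).trans (natDegree_pow_le_of_le 2 hP)
  have h4 : (C (3 * al) * be * ga * P).natDegree ≤ 6 :=
    natDegree_mul_le_of_le (natDegree_mul_le_of_le ((natDegree_C_mul_le _ _).trans hb) hg) hP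
  refine (natDegree_sub_le_of_le (natDegree_add_le_of_le (natDegree_add_le_of_le h1 h2) h3)
    h4).trans ?_
  simp

theorem RR_ne (al : F) (hal : al ≠ 0) (be ga P : F[X]) (hP0 : ¬ IsUnit P) (hPs : Squarefree P) :
    RR al be ga P ≠ 0 := by
  intro h0
  have hPne : P ≠ 0 := hPs.ne_zero
  unfold RR at h0
  have h1 : P ∣ ga ^ 3 := by
    refine ⟨-(be ^ 3 + C (al ^ 3) * P - C (3 * al) * be * ga), ?_⟩
    linear_combination h0
  obtain ⟨δ, hδ⟩ : P ∣ ga := (hPs.dvd_pow_iff_dvd (by norm_num)).1 h1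
  have h2 : P ∣ be ^ 3 := by
    refine ⟨-(P * δ ^ 3 + C (al ^ 3) - C (3 * al) * be * δ), ?_⟩
    apply mul_left_cancel₀ hPne
    rw [hδ] at h0
    linear_combination h0
  obtain ⟨ε, hε⟩ : P ∣ be := (hPs.dvd_pow_iff_dvd (by norm_num)).1 h2
  have h3 : P * (-(δ ^ 3 + P * ε ^ 3 - C (3 * al) * ε * δ)) = C (al ^ 3) := by
    apply mul_left_cancel₀ (pow_ne_zero 2 hPne)
    rw [hδ, hε] at h0
    linear_combination -h0
  apply hP0
  apply isUnit_of_dvd_unit (Dvd.intro _ h3)
  exact Polynomial.isUnit_C.2 (isUnit_iff_ne_zero.2 (pow_ne_zero 3 hal))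

end

end Aniso1

open Aniso1 in
theorem task_aniso1 : TaskAniso1 := by
  refine ⟨54, ?_⟩
  intro F _ _ _ h2 h3 i hi z hz hz4
  have hi0 : i ≠ 0 := by
    intro hi0
    rw [hi0] at hi
    have h3 : (1 : F) = 0 := by linear_combination hi
    exact one_ne_zero h3
  set al : F := 3 * h1 z ^ 2 * (2 : F)⁻¹ ^ 2 * z 4 with hal
  have hal0 : al ≠ 0 := by
    rw [hal]
    exact mul_ne_zero (mul_ne_zero (mul_ne_zero h3 (pow_ne_zero 2 hz))
      (pow_ne_zero 2 (inv_ne_zero h2))) hz4
  -- the fibres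
  let T : F → Finset (F × F) := fun t => univ.filter (fun s : F × F =>
    s.2 ^ 3 = pt i 1 t 1 s.1 ∧ Dz z (phi i t 1 s.1 s.2) = 0)
  have hS : S i z = ∑ t : F, (T t).card := by
    unfold S
    rw [Finset.card_filter, Fintype.sum_prod_type]
    apply Finset.sum_congr rfl
    intro t _
    rw [Finset.card_filter]
  have hT1 : ∀ t (A : Finset F), (∀ s ∈ T t, s.1 ∈ A) → (T t).card ≤ 3 * A.card := by
    intro t A hA
    have hsub : T t ⊆ A.biUnion fun τ =>
        (univ.filter (fun y : F => y ^ 3 = pt i 1 t 1 τ)).image (fun y => (τ, y)) := by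
      intro s hs
      rw [mem_biUnion]
      refine ⟨s.1, hA s hs, ?_⟩
      rw [mem_image]
      exact ⟨s.2, mem_filter.2 ⟨mem_univ _, (mem_filter.1 hs).2.1⟩, rfl⟩
    calc (T t).card ≤ _ := card_le_card hsub
      _ ≤ ∑ τ ∈ A, ((univ.filter (fun y : F => y ^ 3 = pt i 1 t 1 τ)).image
          (fun y => (τ, y))).card := card_biUnion_le
      _ ≤ ∑ _τ ∈ A, 3 := Finset.sum_le_sum fun τ _ => card_image_le.trans (card_cube _)
      _ = 3 * A.card := by rw [Finset.sum_const, smul_eq_mul, mul_comm]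
  have hT2 : ∀ t, del i t ≠ 0 → (T t).card ≤ 18 := by
    intro t ht
    set be := beta (2 : F)⁻¹ (2 * i)⁻¹ t z with hbe
    set ga := gamma (2 : F)⁻¹ (2 * i)⁻¹ t z with hga
    have hne := RR_ne al hal0 be ga (PP i t) (PP_not_unit h3 i t ht) (PP_sep h3 i t ht).squarefree
    have hdeg := RR_deg al be ga (PP i t) (beta_deg _ _ _ _) (gamma_deg _ _ _ _) (PP_deg i t)
    have hsub : ∀ s ∈ T t, s.1 ∈ (RR al be ga (PP i t)).roots.toFinset := by
      intro s hs
      obtain ⟨hs1, hs2⟩ := (mem_filter.1 hs).2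
      rw [Multiset.mem_toFinset, Polynomial.mem_roots hne, Polynomial.IsRoot]
      rw [Dz_eq, ← hbe, ← hga, ← hal] at hs2
      rw [← PP_eval] at hs1
      unfold RR
      simp only [Polynomial.eval_add, Polynomial.eval_sub, Polynomial.eval_mul, Polynomial.eval_C,
        Polynomial.eval_pow]
      generalize Polynomial.eval s.1 be = b at hs2 ⊢
      generalize Polynomial.eval s.1 ga = g at hs2 ⊢
      generalize Polynomial.eval s.1 (PP i t) = P at hs1 ⊢
      generalize s.2 = y at hs1 hs2 ⊢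
      linear_combination ((g ^ 2 - b * al * P) + (al ^ 2 * P - g * b) * y +
        (b ^ 2 - g * al) * y ^ 2) * hs2 -
        ((b * (b ^ 2 - g * al) + al * (al ^ 2 * P - g * b)) + al * (b ^ 2 - g * al) * y) * hs1
    have h1 := hT1 t _ hsub
    have h4 : (RR al be ga (PP i t)).roots.toFinset.card ≤ 6 :=
      (Multiset.toFinset_card_le _).trans ((Polynomial.card_roots' _).trans hdeg)
    omega
  have hT3 : ∀ t, (T t).card ≤ 3 * Fintype.card F := by
    intro t
    exact hT1 t univ fun s _ => mem_univ _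
  rw [hS]
  have hcard := card_del h2 i hi
  have hsplit := Finset.sum_filter_add_sum_filter_not (univ : Finset F)
    (fun t => del i t = 0) (fun t => (T t).card)
  have hb1 : ∑ t ∈ univ.filter (fun t => del i t = 0), (T t).card ≤
      12 * (3 * Fintype.card F) := by
    calc _ ≤ ∑ _t ∈ univ.filter (fun t => del i t = 0), 3 * Fintype.card F :=
          Finset.sum_le_sum fun t _ => hT3 t
      _ = (univ.filter (fun t => del i t = 0)).card * (3 * Fintype.card F) := by
          rw [Finset.sum_const, smul_eq_mul]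
      _ ≤ 12 * (3 * Fintype.card F) := Nat.mul_le_mul_right _ hcard
  have hb2 : ∑ t ∈ univ.filter (fun t => ¬ del i t = 0), (T t).card ≤
      18 * Fintype.card F := by
    calc _ ≤ ∑ _t ∈ univ.filter (fun t => ¬ del i t = 0), 18 :=
          Finset.sum_le_sum fun t ht => hT2 t (mem_filter.1 ht).2
      _ = (univ.filter (fun t => ¬ del i t = 0)).card * 18 := by
          rw [Finset.sum_const, smul_eq_mul]
      _ ≤ Fintype.card F * 18 := Nat.mul_le_mul_right _ (by
          rw [← Finset.card_univ]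
          exact card_le_card (filter_subset _ _))
      _ = 18 * Fintype.card F := mul_comm _ _
  omega

end Pool.H654R4
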