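import Pool.Agent.H654R4.Stmts

set_option autoImplicit false

open Finset

namespace Pool.H654R4

namespace Aniso2

variable {F : Type} [Field F] [Fintype F] [DecidableEq F]

lemma quad_roots (a b c : F) (h : ¬ (a = 0 ∧ b = 0 ∧ c = 0)) :
    (Finset.univ.filter (fun t : F => a + b * t + c * t ^ 2 = 0)).card ≤ 2 := by
  classical
  set p : Polynomial F := Polynomial.C a + Polynomial.C b * Polynomial.X +
    Polynomial.C c * Polynomial.X ^ 2 with hp
  have hp0 : p ≠ 0 := by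
    intro h0
    apply h
    have e0 := congrArg (fun q => Polynomial.coeff q 0) h0
    have e1 := congrArg (fun q => Polynomial.coeff q 1) h0
    have e2 := congrArg (fun q => Polynomial.coeff q 2) h0
    simp [hp, Polynomial.coeff_X, Polynomial.coeff_C] at e0 e1 e2
    exact ⟨e0, e1, e2⟩
  have hdeg : p.natDegree ≤ 2 := by
    rw [hp]; compute_degree
  have hsub : (Finset.univ.filter (fun t : F => a + b * t + c * t ^ 2 = 0)) ⊆ p.roots.toFinset := by
    intro t ht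
    rw [Finset.mem_filter] at ht
    rw [Multiset.mem_toFinset, Polynomial.mem_roots hp0, Polynomial.IsRoot.def]
    simpa [hp] using ht.2
  calc _ ≤ p.roots.toFinset.card := Finset.card_le_card hsub
    _ ≤ Multiset.card p.roots := Multiset.toFinset_card_le _
    _ ≤ p.natDegree := Polynomial.card_roots' p
    _ ≤ 2 := hdeg

lemma cube_roots (c : F) : (Finset.univ.filter (fun y : F => y ^ 3 = c)).card ≤ 3 := by
  classical
  have hsub : (Finset.univ.filter (fun y : F => y ^ 3 = c)) ⊆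
      (Polynomial.nthRoots 3 c).toFinset := by
    intro t ht
    rw [Finset.mem_filter] at ht
    rw [Multiset.mem_toFinset, Polynomial.mem_nthRoots (by norm_num)]
    exact ht.2
  calc _ ≤ (Polynomial.nthRoots 3 c).toFinset.card := Finset.card_le_card hsub
    _ ≤ Multiset.card (Polynomial.nthRoots 3 c) := Multiset.toFinset_card_le _
    _ ≤ 3 := Polynomial.card_nthRoots 3 c

lemma count2 (a0 a1 a2 b0 b1 b2 c0 c1 c2 : F)
    (h : ¬ ((a0 = 0 ∧ a1 = 0 ∧ a2 = 0) ∧ (b0 = 0 ∧ b1 = 0 ∧ b2 = 0) ∧ (c0 = 0 ∧ c1 = 0 ∧ c2 = 0))) :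
    ∑ t : F, (Finset.univ.filter (fun τ : F => (a0 + a1 * t + a2 * t ^ 2) +
      (b0 + b1 * t + b2 * t ^ 2) * τ + (c0 + c1 * t + c2 * t ^ 2) * τ ^ 2 = 0)).card
      ≤ 4 * Fintype.card F := by
  classical
  set Bad : Finset F := Finset.univ.filter (fun t : F => (a0 + a1 * t + a2 * t ^ 2) = 0 ∧
    (b0 + b1 * t + b2 * t ^ 2) = 0 ∧ (c0 + c1 * t + c2 * t ^ 2) = 0) with hBad
  have hB : Bad.card ≤ 2 := by
    by_cases ha : (a0 = 0 ∧ a1 = 0 ∧ a2 = 0)
    · by_cases hb : (b0 = 0 ∧ b1 = 0 ∧ b2 = 0)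
      · have hc : ¬ (c0 = 0 ∧ c1 = 0 ∧ c2 = 0) := fun hc => h ⟨ha, hb, hc⟩
        refine (Finset.card_le_card ?_).trans (quad_roots c0 c1 c2 hc)
        intro t ht
        rw [hBad, Finset.mem_filter] at ht
        exact Finset.mem_filter.2 ⟨Finset.mem_univ _, ht.2.2.2⟩
      · refine (Finset.card_le_card ?_).trans (quad_roots b0 b1 b2 hb)
        intro t ht
        rw [hBad, Finset.mem_filter] at ht
        exact Finset.mem_filter.2 ⟨Finset.mem_univ _, ht.2.2.1⟩
    · refine (Finset.card_le_card ?_).trans (quad_roots a0 a1 a2 ha)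
      intro t ht
      rw [hBad, Finset.mem_filter] at ht
      exact Finset.mem_filter.2 ⟨Finset.mem_univ _, ht.2.1⟩
  have hterm : ∀ t : F, (Finset.univ.filter (fun τ : F => (a0 + a1 * t + a2 * t ^ 2) +
      (b0 + b1 * t + b2 * t ^ 2) * τ + (c0 + c1 * t + c2 * t ^ 2) * τ ^ 2 = 0)).card ≤
      2 + if t ∈ Bad then Fintype.card F else 0 := by
    intro t
    by_cases ht : t ∈ Bad
    · rw [if_pos ht]
      exact (Finset.card_le_univ _).trans (Nat.le_add_left _ _)
    · rw [if_neg ht, add_zero]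
      refine quad_roots _ _ _ fun hh => ht ?_
      rw [hBad, Finset.mem_filter]
      exact ⟨Finset.mem_univ _, hh⟩
  calc _ ≤ ∑ t : F, (2 + if t ∈ Bad then Fintype.card F else 0) :=
        Finset.sum_le_sum fun t _ => hterm t
    _ = Fintype.card F * 2 + Bad.card * Fintype.card F := by
        rw [Finset.sum_add_distrib, Finset.sum_const, Finset.card_univ, smul_eq_mul,
          ← Finset.sum_filter, Finset.sum_const, smul_eq_mul, Finset.filter_mem_eq_inter,
          Finset.univ_inter]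
    _ ≤ Fintype.card F * 2 + 2 * Fintype.card F := by gcongr
    _ = 4 * Fintype.card F := by ring

lemma S_le (i : F) (z : Fin 5 → F) (a0 a1 a2 b0 b1 b2 c0 c1 c2 : F)
    (h : ¬ ((a0 = 0 ∧ a1 = 0 ∧ a2 = 0) ∧ (b0 = 0 ∧ b1 = 0 ∧ b2 = 0) ∧ (c0 = 0 ∧ c1 = 0 ∧ c2 = 0)))
    (hD : ∀ t τ y : F, Dz z (phi i t 1 τ y) = 0 → (a0 + a1 * t + a2 * t ^ 2) +
      (b0 + b1 * t + b2 * t ^ 2) * τ + (c0 + c1 * t + c2 * t ^ 2) * τ ^ 2 = 0) :
    S i z ≤ 12 * Fintype.card F := by
  classical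
  have h1 : S i z ≤ ∑ t : F, ∑ τ : F, ∑ y : F, (if y ^ 3 = pt i 1 t 1 τ ∧
      (a0 + a1 * t + a2 * t ^ 2) + (b0 + b1 * t + b2 * t ^ 2) * τ +
      (c0 + c1 * t + c2 * t ^ 2) * τ ^ 2 = 0 then 1 else 0) := by
    unfold S
    rw [Finset.card_filter, Fintype.sum_prod_type]
    refine Finset.sum_le_sum fun t _ => ?_
    rw [Fintype.sum_prod_type]
    refine Finset.sum_le_sum fun τ _ => Finset.sum_le_sum fun y _ => ?_
    split_ifs with h1 h2
    · exact le_refl _
    · exact absurd ⟨h1.1, hD t τ y h1.2⟩ h2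
    · exact Nat.zero_le _
    · exact le_refl _
  refine h1.trans ?_
  have h2 : ∀ t τ : F, ∑ y : F, (if y ^ 3 = pt i 1 t 1 τ ∧
      (a0 + a1 * t + a2 * t ^ 2) + (b0 + b1 * t + b2 * t ^ 2) * τ +
      (c0 + c1 * t + c2 * t ^ 2) * τ ^ 2 = 0 then 1 else 0) ≤
      3 * (if (a0 + a1 * t + a2 * t ^ 2) + (b0 + b1 * t + b2 * t ^ 2) * τ +
      (c0 + c1 * t + c2 * t ^ 2) * τ ^ 2 = 0 then 1 else 0) := by
    intro t τ
    by_cases hP : (a0 + a1 * t + a2 * t ^ 2) + (b0 + b1 * t + b2 * t ^ 2) * τ +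
      (c0 + c1 * t + c2 * t ^ 2) * τ ^ 2 = 0
    · simp only [hP, and_true, if_true, mul_one]
      rw [← Finset.card_filter]
      exact cube_roots _
    · simp [hP]
  calc _ ≤ ∑ t : F, ∑ τ : F, 3 * (if (a0 + a1 * t + a2 * t ^ 2) +
        (b0 + b1 * t + b2 * t ^ 2) * τ + (c0 + c1 * t + c2 * t ^ 2) * τ ^ 2 = 0 then 1 else 0) :=
        Finset.sum_le_sum fun t _ => Finset.sum_le_sum fun τ _ => h2 t τ
    _ = 3 * ∑ t : F, (Finset.univ.filter (fun τ : F => (a0 + a1 * t + a2 * t ^ 2) +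
        (b0 + b1 * t + b2 * t ^ 2) * τ + (c0 + c1 * t + c2 * t ^ 2) * τ ^ 2 = 0)).card := by
        rw [Finset.mul_sum]
        refine Finset.sum_congr rfl fun t _ => ?_
        rw [← Finset.mul_sum, Finset.card_filter]
    _ ≤ 3 * (4 * Fintype.card F) := by
        gcongr
        exact count2 _ _ _ _ _ _ _ _ _ h
    _ = 12 * Fintype.card F := by ring

end Aniso2

open Aniso2 in
theorem task_Aniso2 : TaskAniso2 := by
  refine ⟨12, ?_⟩
  intro F _ _ _ two0 three0 i hi z hh hz4 hexc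
  have hi0 : i ≠ 0 := by
    rintro rfl
    norm_num at hi
  set h : F := h1 z with hh1
  set m : F := h2 z with hm
  obtain ⟨D00, e00⟩ : ∃ D, D = -3 * h ^ 2 * z 0 + 6 * h * z 0 ^ 3 - 4 * m * z 0 ^ 2 := ⟨_, rfl⟩
  obtain ⟨D11, e11⟩ : ∃ D, D = -3 * h ^ 2 * z 1 + 6 * h * z 1 ^ 3 - 4 * m * z 1 ^ 2 := ⟨_, rfl⟩
  obtain ⟨D22, e22⟩ : ∃ D, D = -3 * h ^ 2 * z 2 + 6 * h * z 2 ^ 3 - 4 * m * z 2 ^ 2 := ⟨_, rfl⟩
  obtain ⟨D33, e33⟩ : ∃ D, D = -4 * m * z 3 ^ 2 := ⟨_, rfl⟩
  obtain ⟨D01, e01⟩ : ∃ D, D = 2 * z 0 * z 1 * (3 * h * (z 0 + z 1) - 4 * m) := ⟨_, rfl⟩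
  obtain ⟨D02, e02⟩ : ∃ D, D = 2 * z 0 * z 2 * (3 * h * (z 0 + z 2) - 4 * m) := ⟨_, rfl⟩
  obtain ⟨D12, e12⟩ : ∃ D, D = 2 * z 1 * z 2 * (3 * h * (z 1 + z 2) - 4 * m) := ⟨_, rfl⟩
  obtain ⟨D03, e03⟩ : ∃ D, D = 2 * z 3 * z 0 * (4 * m - 3 * h * z 0) := ⟨_, rfl⟩
  obtain ⟨D13, e13⟩ : ∃ D, D = 2 * z 3 * z 1 * (4 * m - 3 * h * z 1) := ⟨_, rfl⟩
  obtain ⟨D23, e23⟩ : ∃ D, D = 2 * z 3 * z 2 * (4 * m - 3 * h * z 2) := ⟨_, rfl⟩
  refine S_le i z
    (D00 - D11 - i * D01) (-D02 + D03 + i * D12 - i * D13) (D22 + D33 - D23)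
    (D02 + D03 - i * D12 - i * D13) (2 * D00 + 2 * D11 - 2 * D22 + 2 * D33)
      (-D02 + D03 - i * D12 + i * D13)
    (D22 + D33 + D23) (D02 + D03 + i * D12 + i * D13) (D00 - D11 + i * D01) ?_ ?_
  · rintro ⟨⟨p1, p2, p3⟩, ⟨p4, p5, p6⟩, ⟨p7, p8, p9⟩⟩
    apply hexc
    have q01 : D01 = 0 := by
      have : (2 * i) * D01 = 0 := by linear_combination p9 - p1
      exact (mul_eq_zero.1 this).resolve_left (mul_ne_zero two0 hi0)
    have q00 : D00 = D11 := by
      have : 2 * (D00 - D11) = 0 := by linear_combination p9 + p1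
      exact sub_eq_zero.1 ((mul_eq_zero.1 this).resolve_left two0)
    have q23 : D23 = 0 := by
      have : 2 * D23 = 0 := by linear_combination p7 - p3
      exact (mul_eq_zero.1 this).resolve_left two0
    have q22 : D22 = -D33 := by
      have : 2 * (D22 + D33) = 0 := by linear_combination p7 + p3
      exact eq_neg_of_add_eq_zero_left ((mul_eq_zero.1 this).resolve_left two0)
    have q02 : D00 = D22 := by
      have : (2 * 2) * (D00 - D22) = 0 := by linear_combination p5 + 2 * q00 - 2 * q22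
      exact sub_eq_zero.1 ((mul_eq_zero.1 this).resolve_left (mul_ne_zero two0 two0))
    have r1 : D02 + D03 = 0 := by
      have : 2 * (D02 + D03) = 0 := by linear_combination p4 + p8
      exact (mul_eq_zero.1 this).resolve_left two0
    have r2 : D12 + D13 = 0 := by
      have : (2 * i) * (D12 + D13) = 0 := by linear_combination p8 - p4
      exact (mul_eq_zero.1 this).resolve_left (mul_ne_zero two0 hi0)
    have r3 : D03 - D02 = 0 := by
      have : 2 * (D03 - D02) = 0 := by linear_combination p2 + p6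
      exact (mul_eq_zero.1 this).resolve_left two0
    have r4 : D12 - D13 = 0 := by
      have : (2 * i) * (D12 - D13) = 0 := by linear_combination p2 - p6
      exact (mul_eq_zero.1 this).resolve_left (mul_ne_zero two0 hi0)
    have s03 : D03 = 0 := by
      have : 2 * D03 = 0 := by linear_combination r1 + r3
      exact (mul_eq_zero.1 this).resolve_left two0
    have s02 : D02 = 0 := by linear_combination r1 - s03
    have s12 : D12 = 0 := by
      have : 2 * D12 = 0 := by linear_combination r2 + r4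
      exact (mul_eq_zero.1 this).resolve_left two0
    have s13 : D13 = 0 := by linear_combination r2 - s12
    have two : ∀ x : F, 2 * x = 0 → x = 0 := fun x hx => (mul_eq_zero.1 hx).resolve_left two0
    refine ⟨?_, ?_, ?_, ?_, ?_, ?_, ?_⟩
    · intro j
      fin_cases j
      · change -3 * h ^ 2 * z 0 + 6 * h * z 0 ^ 3 - 4 * m * z 0 ^ 2 = 4 * m * z 3 ^ 2
        linear_combination q02 + q22 - e00 - e33
      · change -3 * h ^ 2 * z 1 + 6 * h * z 1 ^ 3 - 4 * m * z 1 ^ 2 = 4 * m * z 3 ^ 2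
        linear_combination q02 + q22 - q00 - e11 - e33
      · change -3 * h ^ 2 * z 2 + 6 * h * z 2 ^ 3 - 4 * m * z 2 ^ 2 = 4 * m * z 3 ^ 2
        linear_combination q22 - e22 - e33
    · apply two; linear_combination q01 - e01
    · apply two; linear_combination s02 - e02
    · apply two; linear_combination s12 - e12
    · apply two; linear_combination s03 - e03
    · apply two; linear_combination s13 - e13
    · apply two; linear_combination q23 - e23
  · intro t τ y hD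
    have hx1 : (1 - τ * t) / (2 * i) = -i * (1 - τ * t) / 2 := by
      field_simp
      linear_combination (1 - τ * t) * hi
    have hD4 : 4 * Dz z (phi i t 1 τ y) = 0 := by rw [hD, mul_zero]
    have hu0 : phi i t 1 τ y 0 = (1 + τ * t) / 2 := rfl
    have hu1 : phi i t 1 τ y 1 = -i * (1 - τ * t) / 2 := hx1
    have hu2 : phi i t 1 τ y 2 = (τ - 1 * t) / 2 := rfl
    have hu3 : phi i t 1 τ y 3 = (τ + 1 * t) / 2 := rfl
    have h4 : (4 : F) = 2 * 2 := by norm_num
    rw [← hD4]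
    unfold Dz Cxx Cxz B
    rw [hu0, hu1, hu2, hu3, hz4, ← hh1, ← hm]
    rw [e00, e11, e22, e33, e01, e02, e12, e03, e13, e23]
    field_simp
    linear_combination (-4*(-3 * h ^ 2 * z 1 + 6 * h * z 1 ^ 3 - 4 * m * z 1 ^ 2) * (1 - τ * t) ^ 2) * hi

end Pool.H654R4
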