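import Pool.Agent.H654R4.Stmts

set_option autoImplicit false

/-! Task BINARY of the project H654-AVG. -/

open Finset

namespace Pool.H654R4

namespace BinAux

variable {F : Type} [Field F] [Fintype F] [DecidableEq F]

/-- a nonzero cubic has at most three roots -/
lemma rc (a b c d : F) (h : ¬ (a = 0 ∧ b = 0 ∧ c = 0 ∧ d = 0)) :
    (univ.filter (fun x : F => a * x ^ 3 + b * x ^ 2 + c * x + d = 0)).card ≤ 3 := by
  set P : Cubic F := ⟨a, b, c, d⟩ with hP
  have h0 : P.toPoly ≠ 0 := by
    intro h0
    rw [Cubic.toPoly_eq_zero_iff] at h0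
    apply h
    have e1 := congrArg Cubic.a h0
    have e2 := congrArg Cubic.b h0
    have e3 := congrArg Cubic.c h0
    have e4 := congrArg Cubic.d h0
    exact ⟨e1, e2, e3, e4⟩
  have hdeg : P.toPoly.natDegree ≤ 3 := by
    unfold Cubic.toPoly
    exact Polynomial.natDegree_cubic_le
  have hsub : univ.filter (fun x : F => a * x ^ 3 + b * x ^ 2 + c * x + d = 0) ⊆
      P.toPoly.roots.toFinset := by
    intro x hx
    rw [mem_filter] at hx
    rw [Multiset.mem_toFinset, Polynomial.mem_roots h0, Polynomial.IsRoot.def]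
    unfold Cubic.toPoly
    simp only [Polynomial.eval_add, Polynomial.eval_mul, Polynomial.eval_C, Polynomial.eval_pow,
      Polynomial.eval_X]
    exact hx.2
  exact (card_le_card hsub).trans ((Multiset.toFinset_card_le _).trans
    ((Polynomial.card_roots' _).trans hdeg))

/-- a nonzero quadratic polynomial has at most two roots -/
lemma rq (a b c : F) (h : ¬ (a = 0 ∧ b = 0 ∧ c = 0)) :
    (univ.filter (fun x : F => a * x ^ 2 + b * x + c = 0)).card ≤ 2 := by
  set P : Cubic F := ⟨0, a, b, c⟩ with hP
  have h0 : P.toPoly ≠ 0 := by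
    intro h0
    rw [Cubic.toPoly_eq_zero_iff] at h0
    apply h
    have e2 := congrArg Cubic.b h0
    have e3 := congrArg Cubic.c h0
    have e4 := congrArg Cubic.d h0
    exact ⟨e2, e3, e4⟩
  have hdeg : P.toPoly.natDegree ≤ 2 := by
    unfold Cubic.toPoly
    simp only [hP, map_zero, zero_mul, zero_add]
    exact Polynomial.natDegree_quadratic_le
  have hsub : univ.filter (fun x : F => a * x ^ 2 + b * x + c = 0) ⊆
      P.toPoly.roots.toFinset := by
    intro x hx
    rw [mem_filter] at hx
    rw [Multiset.mem_toFinset, Polynomial.mem_roots h0, Polynomial.IsRoot.def]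
    unfold Cubic.toPoly
    simp only [hP, Polynomial.eval_add, Polynomial.eval_mul, Polynomial.eval_C,
      Polynomial.eval_pow, Polynomial.eval_X, zero_mul, zero_add]
    exact hx.2
  exact (card_le_card hsub).trans ((Multiset.toFinset_card_le _).trans
    ((Polynomial.card_roots' _).trans hdeg))

/-- cube roots -/
lemma cr (u : F) : (univ.filter (fun y : F => y ^ 3 = u)).card ≤ 3 := by
  refine le_trans (card_le_card ?_) (rc 1 0 0 (-u) (fun h => one_ne_zero h.1))
  intro y hy
  rw [mem_filter] at hy ⊢
  refine ⟨hy.1, ?_⟩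
  rw [hy.2]; ring

/-- pairs over a finite set with cube roots in the fibres -/
lemma pairs (T : Finset F) (p : F → F) (R : Finset (F × F))
    (hR : ∀ s ∈ R, s.1 ∈ T ∧ s.2 ^ 3 = p s.1) : R.card ≤ 3 * T.card := by
  apply card_le_mul_card_image_of_maps_to (f := Prod.fst) (fun s hs => (hR s hs).1)
  intro t _
  refine le_trans ?_ (cr (p t))
  apply card_le_card_of_injOn Prod.snd
  · intro s hs
    rw [mem_coe, mem_filter] at hs
    rw [mem_coe, mem_filter]
    exact ⟨mem_univ _, by rw [(hR s hs.1).2, hs.2]⟩
  · intro s hs s' hs' h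
    rw [mem_coe, mem_filter] at hs hs'
    exact Prod.ext (hs.2.trans hs'.2.symm) h

end BinAux

open BinAux in
theorem task_Binary : TaskBinary := by
  refine ⟨15, ?_⟩
  intro F _ _ _ h2 h3 A B C E hnc v1 v2 w hv
  set a : F := A * v1 + B * v2 with ha
  set b : F := B * v1 + C * v2 with hb
  set c : F := C * v1 + E * v2 with hc
  have habc : ¬ (a = 0 ∧ b = 0 ∧ c = 0) := by
    rintro ⟨ha0, hb0, hc0⟩
    apply hnc
    rw [ha] at ha0
    rw [hb] at hb0
    rw [hc] at hc0
    by_cases hv1 : v1 = 0
    · have hv2 : v2 ≠ 0 := fun h => hv ⟨hv1, h⟩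
      rw [hv1, mul_zero, zero_add] at ha0 hb0 hc0
      have hB : B = 0 := (mul_eq_zero.mp ha0).resolve_right hv2
      have hC : C = 0 := (mul_eq_zero.mp hb0).resolve_right hv2
      have hE : E = 0 := (mul_eq_zero.mp hc0).resolve_right hv2
      rw [hB, hC, hE]
      refine ⟨by ring, by ring, by ring⟩
    · have hA : A = -B * v2 / v1 := by field_simp; linear_combination ha0
      have hB : B = -C * v2 / v1 := by field_simp; linear_combination hb0
      have hC : C = -E * v2 / v1 := by field_simp; linear_combination hc0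
      rw [hA, hB, hC]
      refine ⟨by field_simp, by field_simp, by field_simp⟩
  set S := univ.filter (fun s : F × F × F =>
        s.2.2 ^ 3 = cub A B C E s.1 s.2.1 ∧
        (s.2.2 - w) ^ 3 = cub A B C E (s.1 - v1) (s.2.1 - v2)) with hS
  have hSm : ∀ s ∈ S, s.2.2 ^ 3 = cub A B C E s.1 s.2.1 ∧
        (s.2.2 - w) ^ 3 = cub A B C E (s.1 - v1) (s.2.1 - v2) := by
    intro s hs
    rw [hS, mem_filter] at hs
    exact hs.2
  -- the coefficients of the quadratic equation in a direction
  set Q2 : F × F → F := fun t => 3 * (a + 2 * b * t.1 + c * t.1 ^ 2) - 3 * t.2 ^ 2 * w with hQ2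
  set Q1 : F × F → F := fun t => -3 * ((a * v1 + b * v2) + (b * v1 + c * v2) * t.1) +
    3 * t.2 * w ^ 2 with hQ1
  set Q0 : F := (a * v1 ^ 2 + 2 * b * v1 * v2 + c * v2 ^ 2) - w ^ 3 with hQ0
  set g : F × F × F → F × F := fun s => (s.2.1 / s.1, s.2.2 / s.1) with hg
  have key : ∀ s ∈ S, s.1 ≠ 0 → (g s).2 ^ 3 = cub A B C E 1 (g s).1 ∧
      Q2 (g s) * s.1 ^ 2 + Q1 (g s) * s.1 + Q0 = 0 := by
    rintro ⟨l, m, y⟩ hs hl
    obtain ⟨e1, e2⟩ := hSm _ hs
    simp only at e1 e2 hl
    have hm : m = (m / l) * l := by field_simp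
    have hy : y = (y / l) * l := by field_simp
    simp only [hg]
    generalize m / l = t at hm
    generalize y / l = u at hy
    subst hm
    subst hy
    have e3 : u ^ 3 = cub A B C E 1 t := by
      have hl3 : l ^ 3 ≠ 0 := pow_ne_zero 3 hl
      apply mul_right_cancel₀ hl3
      unfold cub at e1 ⊢
      linear_combination e1
    refine ⟨e3, ?_⟩
    simp only [hQ2, hQ1, hQ0, ha, hb, hc]
    unfold cub at e1 e2
    linear_combination e2 - e1
  -- the part `l = 0`
  have c0 : (S.filter (fun s => s.1 = 0)).card ≤ 3 * Fintype.card F := by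
    have h := card_le_mul_card_image_of_maps_to (s := S.filter (fun s => s.1 = 0)) (t := univ)
      (f := fun s : F × F × F => s.2.1) (fun _ _ => mem_univ _) 3 (by
        intro m _
        refine le_trans ?_ (cr (cub A B C E 0 m))
        apply card_le_card_of_injOn (fun s => s.2.2)
        · intro s hs
          rw [mem_coe, mem_filter, mem_filter] at hs
          rw [mem_coe, mem_filter]
          refine ⟨mem_univ _, ?_⟩
          have := (hSm s hs.1.1).1
          rw [hs.1.2, hs.2] at this
          exact this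
        · intro s hs s' hs' h
          rw [mem_coe, mem_filter, mem_filter] at hs hs'
          exact Prod.ext (hs.1.2.trans hs'.1.2.symm) (Prod.ext (hs.2.trans hs'.2.symm) h))
    rwa [card_univ] at h
  -- the directions
  set T : Finset (F × F) := univ.filter (fun t : F × F => t.2 ^ 3 = cub A B C E 1 t.1) with hT
  have hTc : T.card ≤ 3 * Fintype.card F := by
    have := pairs (univ : Finset F) (fun t => cub A B C E 1 t) T (by
      intro s hs
      rw [hT, mem_filter] at hs
      exact ⟨mem_univ _, hs.2⟩)
    rwa [card_univ] at this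
  set Bad : Finset (F × F) := T.filter (fun t => Q2 t = 0 ∧ Q1 t = 0 ∧ Q0 = 0) with hBad
  have hBc : Bad.card ≤ 6 := by
    by_cases hw : w = 0
    · have h1 := pairs (univ.filter (fun x : F => c * x ^ 2 + (2 * b) * x + a = 0))
        (fun t => cub A B C E 1 t) Bad (by
        intro s hs
        rw [hBad, mem_filter, hT, mem_filter] at hs
        refine ⟨?_, hs.1.2⟩
        rw [mem_filter]
        refine ⟨mem_univ _, ?_⟩
        have h := hs.2.1
        simp only [hQ2] at h
        rw [hw, mul_zero, sub_zero] at h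
        have := (mul_eq_zero.mp h).resolve_left h3
        linear_combination this)
      have h4 := rq c (2 * b) a (by
        rintro ⟨hc0, hb0, ha0⟩
        exact habc ⟨ha0, (mul_eq_zero.mp hb0).resolve_left h2, hc0⟩)
      omega
    · set d : F := a * v1 + b * v2 with hd
      set e : F := b * v1 + c * v2 with he
      have h4 := rc (E * w ^ 6 - e ^ 3) (3 * (C * w ^ 6 - d * e ^ 2)) (3 * (B * w ^ 6 - d ^ 2 * e))
        (A * w ^ 6 - d ^ 3) (by
        rintro ⟨k1, k2, k3, k4⟩
        apply hnc
        have k2' := (mul_eq_zero.mp k2).resolve_left h3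
        have k3' := (mul_eq_zero.mp k3).resolve_left h3
        have hA : A = d ^ 3 / w ^ 6 := by field_simp; linear_combination k4
        have hB : B = d ^ 2 * e / w ^ 6 := by field_simp; linear_combination k3'
        have hC : C = d * e ^ 2 / w ^ 6 := by field_simp; linear_combination k2'
        have hE : E = e ^ 3 / w ^ 6 := by field_simp; linear_combination k1
        rw [hA, hB, hC, hE]
        refine ⟨by field_simp, by field_simp, by field_simp⟩)
      refine le_trans (b := 3) (le_trans ?_ h4) (by norm_num)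
      have hy0 : ∀ s ∈ Bad, s.2 * w ^ 2 = d + e * s.1 := by
        intro s hs
        rw [hBad, mem_filter] at hs
        have h := hs.2.2.1
        simp only [hQ1] at h
        apply mul_left_cancel₀ h3
        linear_combination h
      apply card_le_card_of_injOn Prod.fst
      · intro s hs
        rw [mem_coe] at hs
        have hy := hy0 s hs
        rw [hBad, mem_filter, hT, mem_filter] at hs
        rw [mem_coe, mem_filter]
        refine ⟨mem_univ _, ?_⟩
        have h5 : s.2 ^ 3 * w ^ 6 = (d + e * s.1) ^ 3 := by rw [← hy]; ring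
        rw [hs.1.2] at h5
        unfold cub at h5
        linear_combination h5
      · intro s hs s' hs' h
        rw [mem_coe] at hs hs'
        have h5 := hy0 s hs
        have h6 := hy0 s' hs'
        refine Prod.ext h ?_
        have h7 : s.2 * w ^ 2 = s'.2 * w ^ 2 := by
          have h8 : s.1 = s'.1 := h
          rw [h5, h6, h8]
        exact mul_right_cancel₀ (pow_ne_zero 2 hw) h7
  -- the good directions
  have c1 : (S.filter (fun s => s.1 ≠ 0 ∧ g s ∉ Bad)).card ≤ 2 * (3 * Fintype.card F) := by
    refine le_trans (card_le_mul_card_image_of_maps_to (t := T) (f := g) ?_ 2 ?_)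
      (Nat.mul_le_mul_left 2 hTc)
    · intro s hs
      rw [mem_filter] at hs
      rw [hT, mem_filter]
      exact ⟨mem_univ _, (key s hs.1 hs.2.1).1⟩
    · intro t ht
      by_cases htb : t ∈ Bad
      · rw [filter_false_of_mem, card_empty]
        · norm_num
        · intro s hs h
          rw [mem_filter] at hs
          exact hs.2.2 (h ▸ htb)
      · have hne : ¬ (Q2 t = 0 ∧ Q1 t = 0 ∧ Q0 = 0) := by
          intro h
          exact htb (by rw [hBad, mem_filter]; exact ⟨ht, h⟩)
        refine le_trans ?_ (rq (Q2 t) (Q1 t) Q0 hne)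
        apply card_le_card_of_injOn Prod.fst
        · intro s hs
          rw [mem_coe, mem_filter, mem_filter] at hs
          rw [mem_coe, mem_filter]
          refine ⟨mem_univ _, ?_⟩
          have := (key s hs.1.1 hs.1.2.1).2
          rwa [hs.2] at this
        · intro s hs s' hs' h
          rw [mem_coe, mem_filter, mem_filter] at hs hs'
          have h1 : g s = g s' := hs.2.trans hs'.2.symm
          have hl : s.1 = s'.1 := h
          simp only [hg, Prod.mk.injEq] at h1
          obtain ⟨h5, h6⟩ := h1
          rw [hl] at h5 h6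
          have hl0 := hs'.1.2.1
          have h7 := (div_left_inj' hl0).mp h5
          have h8 := (div_left_inj' hl0).mp h6
          exact Prod.ext hl (Prod.ext h7 h8)
  -- the bad directions
  have c2 : (S.filter (fun s => s.1 ≠ 0 ∧ g s ∈ Bad)).card ≤ Fintype.card F * 6 := by
    refine le_trans (card_le_mul_card_image_of_maps_to (t := Bad) (f := g) ?_ (Fintype.card F) ?_)
      (Nat.mul_le_mul_left _ hBc)
    · intro s hs
      rw [mem_filter] at hs
      exact hs.2.2
    · intro t _
      rw [← card_univ]
      apply card_le_card_of_injOn Prod.fst (fun _ _ => mem_coe.mpr (mem_univ _))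
      intro s hs s' hs' h
      rw [mem_coe, mem_filter, mem_filter] at hs hs'
      have h1 : g s = g s' := hs.2.trans hs'.2.symm
      have hl : s.1 = s'.1 := h
      simp only [hg, Prod.mk.injEq] at h1
      obtain ⟨h5, h6⟩ := h1
      rw [hl] at h5 h6
      have hl0 := hs'.1.2.1
      have h7 := (div_left_inj' hl0).mp h5
      have h8 := (div_left_inj' hl0).mp h6
      exact Prod.ext hl (Prod.ext h7 h8)
  have hcov : S ⊆ S.filter (fun s => s.1 = 0) ∪ (S.filter (fun s => s.1 ≠ 0 ∧ g s ∉ Bad) ∪
      S.filter (fun s => s.1 ≠ 0 ∧ g s ∈ Bad)) := by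
    intro s hs
    simp only [mem_union, mem_filter]
    by_cases h : s.1 = 0
    · exact Or.inl ⟨hs, h⟩
    · by_cases h' : g s ∈ Bad
      · exact Or.inr (Or.inr ⟨hs, h, h'⟩)
      · exact Or.inr (Or.inl ⟨hs, h, h'⟩)
  have h5 := card_le_card hcov
  have h6 := card_union_le (S.filter (fun s => s.1 = 0)) (S.filter (fun s => s.1 ≠ 0 ∧ g s ∉ Bad) ∪
      S.filter (fun s => s.1 ≠ 0 ∧ g s ∈ Bad))
  have h7 := card_union_le (S.filter (fun s => s.1 ≠ 0 ∧ g s ∉ Bad))
      (S.filter (fun s => s.1 ≠ 0 ∧ g s ∈ Bad))
  omega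

end Pool.H654R4
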