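import Pool.Agent.H654R4.Stmts

set_option autoImplicit false

open Finset

namespace Pool.H654R4

namespace DirAux

variable {F : Type} [Field F]

theorem h1_of_mem [Fintype F] [DecidableEq F] {x : Fin 5 → F} (h : x ∈ H F) :
    h1 x = 0 ∧ h2 x = 0 := by
  unfold H at h
  rw [Finset.mem_filter] at h
  obtain ⟨-, ha, hb⟩ := h
  exact ⟨by unfold h1; rw [ha]; ring, by unfold h2; rw [hb]; ring⟩

theorem two_B [Fintype F] [DecidableEq F] {x z : Fin 5 → F} (h : x ∈ H F) (h' : x - z ∈ H F) :
    2 * B x z = h1 z ∧ Dz z x = 0 := by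
  obtain ⟨a1, a2⟩ := h1_of_mem h
  obtain ⟨b1, b2⟩ := h1_of_mem h'
  unfold h1 at a1 b1
  unfold h2 at a2 b2
  simp only [Pi.sub_apply] at b1 b2
  have e1 : 2 * B x z = h1 z := by
    unfold B h1
    linear_combination a1 - b1
  have e2 : -3 * Cxx x z + 3 * Cxz x z = h2 z := by
    unfold Cxx Cxz h2
    linear_combination b2 - a2
  refine ⟨e1, ?_⟩
  unfold Dz
  rw [← e1, ← e2]
  ring

theorem B_smul (l : F) (x z : Fin 5 → F) : B (l • x) z = l * B x z := by
  unfold B
  simp only [Pi.smul_apply, smul_eq_mul]
  ring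

theorem Dz_smul (l : F) (x z : Fin 5 → F) : Dz z (l • x) = l ^ 2 * Dz z x := by
  unfold Dz
  rw [B_smul]
  unfold Cxx Cxz
  simp only [Pi.smul_apply, smul_eq_mul]
  ring

theorem phi_smul (i t l m y : F) (hl : l ≠ 0) :
    phi i t l m y = l • phi i t 1 (m / l) (y / l) := by
  funext j
  fin_cases j
  · show (l + m * t) / 2 = l * ((1 + m / l * t) / 2)
    field_simp
  · show (l - m * t) / (2 * i) = l * ((1 - m / l * t) / (2 * i))
    have : l * ((1 - m / l * t) / (2 * i)) = (l * (1 - m / l * t)) / (2 * i) := by ring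
    rw [this]
    congr 1
    field_simp
  · show (m - l * t) / 2 = l * ((m / l - 1 * t) / 2)
    field_simp
  · show (m + l * t) / 2 = l * ((m / l + 1 * t) / 2)
    field_simp
  · show y / 2 = l * (y / l / 2)
    field_simp

theorem pt_smul (i t l m : F) (hl : l ≠ 0) : pt i 1 t l m = l ^ 3 * pt i 1 t 1 (m / l) := by
  unfold pt cub
  field_simp

theorem card_roots [Fintype F] [DecidableEq F] (c : F) :
    (Finset.univ.filter (fun y : F => y ^ 3 = c)).card ≤ 3 := by
  calc (Finset.univ.filter (fun y : F => y ^ 3 = c)).card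
      ≤ (Polynomial.nthRoots 3 c).toFinset.card := by
        refine Finset.card_le_card fun y hy => ?_
        rw [Multiset.mem_toFinset, Polynomial.mem_nthRoots (by norm_num)]
        exact (Finset.mem_filter.1 hy).2
    _ ≤ Multiset.card (Polynomial.nthRoots 3 c) := Multiset.toFinset_card_le _
    _ ≤ 3 := Polynomial.card_nthRoots 3 c

theorem card_family [Fintype F] [DecidableEq F] (c : F → F) (f : F → F → Fin 5 → F) :
    (Finset.univ.biUnion (fun s : F => (Finset.univ.filter (fun y : F => y ^ 3 = c s)).image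
      (f s))).card ≤ 3 * Fintype.card F := by
  refine Finset.card_biUnion_le.trans ?_
  calc ∑ s : F, ((Finset.univ.filter (fun y : F => y ^ 3 = c s)).image (f s)).card
      ≤ ∑ s : F, 3 := Finset.sum_le_sum fun s _ => Finset.card_image_le.trans (card_roots _)
    _ = 3 * Fintype.card F := by
        rw [Finset.sum_const, Finset.card_univ, smul_eq_mul, mul_comm]

end DirAux

open DirAux in
/-- DIR -/
theorem task_dir : TaskDir := by
  intro hcov F _ _ _ h2 h3 i hi z hz
  classical
  have hi0 : i ≠ 0 := by
    rintro rfl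
    norm_num at hi
  -- the direction part
  let S1 : Finset (F × F × F) := Finset.univ.filter (fun s : F × F × F =>
    s.2.2 ^ 3 = pt i 1 s.1 1 s.2.1 ∧ Dz z (phi i s.1 1 s.2.1 s.2.2) = 0)
  let g : F × F × F → (Fin 5 → F) := fun s =>
    (h1 z / (2 * B (phi i s.1 1 s.2.1 s.2.2) z)) • phi i s.1 1 s.2.1 s.2.2
  -- the second part
  let mm : F → F := fun t => h1 z / (2 * B (phi i t 0 1 0) z)
  let A2 : Finset (Fin 5 → F) := Finset.univ.biUnion (fun t : F =>
    (Finset.univ.filter (fun y : F => y ^ 3 = pt i 1 t 0 (mm t))).image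
      (fun y => phi i t 0 (mm t) y))
  -- the third part
  have hpar : ∃ bb dd : F → F, ∀ b d : F,
      b * (z 0 - z 1 / i) - d * (z 2 + z 3) = h1 z → ∃ s, b = bb s ∧ d = dd s := by
    by_cases ha : z 0 - z 1 / i = 0
    · have hb : ∀ b d : F, b * (z 0 - z 1 / i) - d * (z 2 + z 3) = h1 z →
          d = - h1 z / (z 2 + z 3) := by
        intro b d h
        rw [ha] at h
        have hne : z 2 + z 3 ≠ 0 := by
          intro h0
          rw [h0] at h
          apply hz
          rw [← h]; ring
        field_simp
        linear_combination -h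
      exact ⟨fun s => s, fun _ => - h1 z / (z 2 + z 3), fun b d h => ⟨b, rfl, hb b d h⟩⟩
    · refine ⟨fun s => (h1 z + s * (z 2 + z 3)) / (z 0 - z 1 / i), fun s => s, fun b d h =>
        ⟨d, ?_, rfl⟩⟩
      rw [eq_div_iff ha]
      linear_combination h
  obtain ⟨bb, dd, hbd⟩ := hpar
  let A3 : Finset (Fin 5 → F) := Finset.univ.biUnion (fun s : F =>
    (Finset.univ.filter (fun y : F => y ^ 3 = pt i 0 1 (dd s) (bb s))).image
      (fun y => phiInf i (bb s) (dd s) y))
  have hsub : (H F).filter (fun x => x - z ∈ H F) ⊆ S1.image g ∪ (A2 ∪ A3) := by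
    intro x hx
    rw [Finset.mem_filter] at hx
    obtain ⟨hx1, hx2⟩ := hx
    obtain ⟨hB, hD⟩ := two_B hx1 hx2
    rw [Finset.mem_union, Finset.mem_union]
    rcases hcov F h2 i hi x hx1 with ⟨t, l, m, y, hxe, hy⟩ | ⟨b, d, y, hxe, hy⟩
    · by_cases hl : l = 0
      · right; left
        subst hl
        have hBm : B x z = m * B (phi i t 0 1 0) z := by
          rw [hxe]
          show (0 + m * t) / 2 * z 0 + (0 - m * t) / (2 * i) * z 1 + (m - 0 * t) / 2 * z 2 -
              (m + 0 * t) / 2 * z 3 =
            m * ((0 + 1 * t) / 2 * z 0 + (0 - 1 * t) / (2 * i) * z 1 + (1 - 0 * t) / 2 * z 2 -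
              (1 + 0 * t) / 2 * z 3)
          ring
        have hne : 2 * B (phi i t 0 1 0) z ≠ 0 := by
          intro h0
          apply hz
          rw [← hB, hBm]
          linear_combination m * h0
        have hm : m = mm t := by
          show m = h1 z / (2 * B (phi i t 0 1 0) z)
          rw [eq_div_iff hne, ← hB, hBm]
          ring
        rw [Finset.mem_biUnion]
        refine ⟨t, Finset.mem_univ _, ?_⟩
        rw [Finset.mem_image]
        refine ⟨y, ?_, ?_⟩
        · rw [Finset.mem_filter]
          exact ⟨Finset.mem_univ _, by rw [← hm]; exact hy⟩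
        · rw [← hm]; exact hxe.symm
      · left
        have e1 := phi_smul i t l m y hl
        rw [Finset.mem_image]
        refine ⟨(t, m / l, y / l), ?_, ?_⟩
        · rw [Finset.mem_filter]
          refine ⟨Finset.mem_univ _, ?_, ?_⟩
          · show (y / l) ^ 3 = pt i 1 t 1 (m / l)
            have e2 := pt_smul i t l m hl
            rw [div_pow, hy, e2]
            field_simp
          · show Dz z (phi i t 1 (m / l) (y / l)) = 0
            rw [hxe, e1, Dz_smul] at hD
            rcases mul_eq_zero.1 hD with h | h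
            · exact absurd h (pow_ne_zero 2 hl)
            · exact h
        · show (h1 z / (2 * B (phi i t 1 (m / l) (y / l)) z)) • phi i t 1 (m / l) (y / l) = x
          have hB' : 2 * (l * B (phi i t 1 (m / l) (y / l)) z) = h1 z := by
            rw [← B_smul, ← e1, ← hxe, hB]
          have hne : 2 * B (phi i t 1 (m / l) (y / l)) z ≠ 0 := by
            intro h0
            apply hz
            rw [← hB']
            linear_combination l * h0
          have hle : h1 z / (2 * B (phi i t 1 (m / l) (y / l)) z) = l := by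
            rw [div_eq_iff hne, ← hB']
            ring
          rw [hle, ← e1, ← hxe]
    · right; right
      have hlin : b * (z 0 - z 1 / i) - d * (z 2 + z 3) = h1 z := by
        rw [← hB, hxe]
        show b * (z 0 - z 1 / i) - d * (z 2 + z 3) =
          2 * (b / 2 * z 0 + -b / (2 * i) * z 1 + -d / 2 * z 2 - d / 2 * z 3)
        field_simp
        ring
      obtain ⟨s, hs1, hs2⟩ := hbd b d hlin
      rw [Finset.mem_biUnion]
      refine ⟨s, Finset.mem_univ _, ?_⟩
      rw [Finset.mem_image]
      refine ⟨y, ?_, ?_⟩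
      · rw [Finset.mem_filter]
        exact ⟨Finset.mem_univ _, by rw [← hs1, ← hs2]; exact hy⟩
      · rw [← hs1, ← hs2]; exact hxe.symm
  have h6 : ((H F).filter (fun x => x - z ∈ H F)).card ≤ S1.card + (3 * Fintype.card F +
      3 * Fintype.card F) := by
    refine (Finset.card_le_card hsub).trans ((Finset.card_union_le _ _).trans ?_)
    refine add_le_add Finset.card_image_le ((Finset.card_union_le _ _).trans ?_)
    exact add_le_add (card_family _ _) (card_family _ _)
  unfold N S
  calc ((H F).filter (fun x => x - z ∈ H F)).card ≤ S1.card + (3 * Fintype.card F +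
      3 * Fintype.card F) := h6
    _ = S1.card + 6 * Fintype.card F := by ring
    _ = _ := rfl

end Pool.H654R4
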