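import Pool.Agent.H654R4.Stmts

set_option autoImplicit false

open Finset

namespace Pool.H654R4

/-- the number of incidences -/
def incd {G : Type} [AddCommGroup G] [DecidableEq G] (V E F : Finset G) : ℕ :=
  ((E ×ˢ F).filter (fun s => s.2 - s.1 ∈ V)).card

lemma incd_eq {G : Type} [AddCommGroup G] [DecidableEq G] (V E F : Finset G) :
    incd V E F = ∑ y ∈ F, (E.filter (fun x => y - x ∈ V)).card := by
  unfold incd
  rw [card_filter, sum_product_right]
  refine sum_congr rfl fun y _ => ?_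
  rw [card_filter]

lemma sq_sum_r {G : Type} [AddCommGroup G] [Fintype G] [DecidableEq G] (V E : Finset G) :
    ∑ y : G, (E.filter (fun x => y - x ∈ V)).card ^ 2 =
      ∑ x ∈ E, ∑ x' ∈ E, (V.filter (fun v => v - (x' - x) ∈ V)).card := by
  have h1 : ∀ y : G, (E.filter (fun x => y - x ∈ V)).card ^ 2 =
      ∑ x ∈ E, ∑ x' ∈ E, (if y - x ∈ V ∧ y - x' ∈ V then 1 else 0) := by
    intro y
    rw [sq, card_filter, sum_mul_sum]
    refine sum_congr rfl fun x _ => sum_congr rfl fun x' _ => ?_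
    by_cases h : y - x ∈ V <;> by_cases h' : y - x' ∈ V <;> simp [h, h']
  rw [sum_congr rfl fun y _ => h1 y, sum_comm]
  refine sum_congr rfl fun x _ => ?_
  rw [sum_comm]
  refine sum_congr rfl fun x' _ => ?_
  rw [← card_filter]
  apply card_bij (fun y _ => y - x)
  · intro y hy
    simp only [mem_filter, mem_univ, true_and] at hy ⊢
    refine ⟨hy.1, ?_⟩
    have : y - x - (x' - x) = y - x' := by abel
    rw [this]
    exact hy.2
  · intro a _ b _ hab
    exact sub_left_injective hab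
  · intro v hv
    simp only [mem_filter] at hv
    refine ⟨v + x, ?_, by abel⟩
    simp only [mem_filter, mem_univ, true_and]
    refine ⟨?_, ?_⟩
    · have : v + x - x = v := by abel
      rw [this]
      exact hv.1
    · have : v + x - x' = v - (x' - x) := by abel
      rw [this]
      exact hv.2

lemma sum_N_le {G : Type} [AddCommGroup G] [Fintype G] [DecidableEq G] (K q : ℕ)
    (V Z : Finset G) (hV : V.card ≤ K * q ^ 3) (hZ : Z.card ≤ K * q)
    (h1 : ∀ z : G, z ≠ 0 → (V.filter (fun x => x - z ∈ V)).card ≤ K * q ^ 2)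
    (h2 : ∀ z : G, z ≠ 0 → z ∉ Z → (V.filter (fun x => x - z ∈ V)).card ≤ K * q)
    (E : Finset G) :
    ∑ x ∈ E, ∑ x' ∈ E, (V.filter (fun v => v - (x' - x) ∈ V)).card ≤
      (K ^ 2 + K + 1) * (q ^ 3 * E.card + q * E.card ^ 2) := by
  have hpt : ∀ x ∈ E, ∑ x' ∈ E, (V.filter (fun v => v - (x' - x) ∈ V)).card ≤
      K * q ^ 3 + (K * q) * (K * q ^ 2) + E.card * (K * q) := by
    intro x _
    have hb : ∀ x' ∈ E, (V.filter (fun v => v - (x' - x) ∈ V)).card ≤
        (if x' = x then K * q ^ 3 else 0) + (if x' - x ∈ Z then K * q ^ 2 else 0) + K * q := by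
      intro x' _
      by_cases h0 : x' = x
      · rw [if_pos h0]
        have : (V.filter (fun v => v - (x' - x) ∈ V)).card ≤ V.card := card_filter_le _ _
        omega
      · have hne : x' - x ≠ 0 := sub_ne_zero.mpr h0
        by_cases hz : x' - x ∈ Z
        · rw [if_pos hz]
          have := h1 (x' - x) hne
          omega
        · have := h2 (x' - x) hne hz
          omega
    refine (sum_le_sum hb).trans ?_
    rw [sum_add_distrib, sum_add_distrib]
    refine Nat.add_le_add (Nat.add_le_add ?_ ?_) ?_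
    · rw [sum_ite_eq']
      split_ifs <;> simp
    · rw [← sum_filter, sum_const, smul_eq_mul]
      refine Nat.mul_le_mul ?_ le_rfl
      refine le_trans ?_ hZ
      apply card_le_card_of_injOn (fun x' => x' - x)
      · intro a ha
        simp only [coe_filter, Set.mem_setOf_eq] at ha
        exact ha.2
      · intro a _ b _ hab
        exact sub_left_injective hab
    · rw [sum_const, smul_eq_mul]
  refine (sum_le_sum hpt).trans ?_
  rw [sum_const, smul_eq_mul]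
  have : E.card * (K * q ^ 3 + K * q * (K * q ^ 2) + E.card * (K * q)) =
      (K ^ 2 + K) * (q ^ 3 * E.card) + K * (q * E.card ^ 2) := by ring
  rw [this]
  nlinarith [Nat.zero_le (q ^ 3 * E.card), Nat.zero_le (q * E.card ^ 2),
    Nat.zero_le (K ^ 2 * (q * E.card ^ 2))]

lemma incd_sq_le {G : Type} [AddCommGroup G] [Fintype G] [DecidableEq G] (K q : ℕ)
    (V Z : Finset G) (hV : V.card ≤ K * q ^ 3) (hZ : Z.card ≤ K * q)
    (h1 : ∀ z : G, z ≠ 0 → (V.filter (fun x => x - z ∈ V)).card ≤ K * q ^ 2)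
    (h2 : ∀ z : G, z ≠ 0 → z ∉ Z → (V.filter (fun x => x - z ∈ V)).card ≤ K * q)
    (E F : Finset G) :
    incd V E F ^ 2 ≤ (K ^ 2 + K + 1) * F.card * (q ^ 3 * E.card + q * E.card ^ 2) := by
  rw [incd_eq]
  have hcs : (∑ y ∈ F, (E.filter (fun x => y - x ∈ V)).card) ^ 2 ≤
      F.card * ∑ y ∈ F, (E.filter (fun x => y - x ∈ V)).card ^ 2 :=
    sq_sum_le_card_mul_sum_sq
  refine hcs.trans ?_
  have h3 : ∑ y ∈ F, (E.filter (fun x => y - x ∈ V)).card ^ 2 ≤
      ∑ y : G, (E.filter (fun x => y - x ∈ V)).card ^ 2 :=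
    sum_le_sum_of_subset (subset_univ _)
  have h4 := sum_N_le K q V Z hV hZ h1 h2 E
  rw [← sq_sum_r] at h4
  calc F.card * ∑ y ∈ F, (E.filter (fun x => y - x ∈ V)).card ^ 2
      ≤ F.card * ((K ^ 2 + K + 1) * (q ^ 3 * E.card + q * E.card ^ 2)) :=
        Nat.mul_le_mul le_rfl (h3.trans h4)
    _ = _ := by ring

lemma incd_symm {G : Type} [AddCommGroup G] [DecidableEq G] (V E F : Finset G) :
    incd V E F = incd V (F.image (fun x => -x)) (E.image (fun x => -x)) := by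
  unfold incd
  apply card_bij (fun s _ => (-s.2, -s.1))
  · rintro ⟨x, y⟩ h
    simp only [mem_filter, mem_product, mem_image] at h ⊢
    refine ⟨⟨⟨y, h.1.2, rfl⟩, ⟨x, h.1.1, rfl⟩⟩, ?_⟩
    have : -x - -y = y - x := by abel
    rw [this]
    exact h.2
  · rintro ⟨x, y⟩ _ ⟨x', y'⟩ _ h
    simp only [Prod.mk.injEq, neg_inj] at h
    rw [h.1, h.2]
  · rintro ⟨a, b⟩ h
    simp only [mem_filter, mem_product, mem_image] at h
    obtain ⟨⟨⟨y, hy, rfl⟩, ⟨x, hx, rfl⟩⟩, hv⟩ := h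
    refine ⟨(x, y), ?_, rfl⟩
    simp only [mem_filter, mem_product]
    refine ⟨⟨hx, hy⟩, ?_⟩
    have : -x - -y = y - x := by abel
    rw [← this]
    exact hv

lemma final_arith (A q e f I : ℕ) (hA : 1 ≤ A) (he : e ≤ q ^ 5) (hf : f ≤ q ^ 5)
    (ha : I ^ 2 ≤ A * f * (q ^ 3 * e + q * e ^ 2)) (hb : I ^ 2 ≤ A * e * (q ^ 3 * f + q * f ^ 2))
    (hc : I ≤ e * f) : I ^ 7 ≤ (4 * A ^ 2) ^ 2 * q ^ 6 * (e * f) ^ 5 := by
  have hA2 : 1 ≤ 4 * A ^ 2 := by nlinarith
  have hfin : ∀ hh : I ^ 2 ≤ 2 * A * q ^ 3 * (e * f),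
      I ^ 7 ≤ (4 * A ^ 2) ^ 2 * q ^ 6 * (e * f) ^ 5 := by
    intro hh
    calc I ^ 7 = (I ^ 2) ^ 2 * I ^ 3 := by ring
      _ ≤ (2 * A * q ^ 3 * (e * f)) ^ 2 * (e * f) ^ 3 :=
        Nat.mul_le_mul (Nat.pow_le_pow_left hh 2) (Nat.pow_le_pow_left hc 3)
      _ = (4 * A ^ 2) * (q ^ 6 * (e * f) ^ 5) := by ring
      _ ≤ (4 * A ^ 2) ^ 2 * (q ^ 6 * (e * f) ^ 5) := by
        refine Nat.mul_le_mul ?_ le_rfl
        calc 4 * A ^ 2 = 4 * A ^ 2 * 1 := by ring
          _ ≤ 4 * A ^ 2 * (4 * A ^ 2) := Nat.mul_le_mul le_rfl hA2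
          _ = (4 * A ^ 2) ^ 2 := by ring
      _ = _ := by ring
  by_cases h1 : e ≤ q ^ 2
  · apply hfin
    refine ha.trans ?_
    have h2 : q * e ^ 2 ≤ q ^ 3 * e := by
      calc q * e ^ 2 = q * e * e := by ring
        _ ≤ q * e * q ^ 2 := Nat.mul_le_mul le_rfl h1
        _ = q ^ 3 * e := by ring
    calc A * f * (q ^ 3 * e + q * e ^ 2) ≤ A * f * (q ^ 3 * e + q ^ 3 * e) :=
          Nat.mul_le_mul le_rfl (Nat.add_le_add le_rfl h2)
      _ = _ := by ring
  by_cases h2 : f ≤ q ^ 2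
  · apply hfin
    refine hb.trans ?_
    have h2 : q * f ^ 2 ≤ q ^ 3 * f := by
      calc q * f ^ 2 = q * f * f := by ring
        _ ≤ q * f * q ^ 2 := Nat.mul_le_mul le_rfl h2
        _ = q ^ 3 * f := by ring
    calc A * e * (q ^ 3 * f + q * f ^ 2) ≤ A * e * (q ^ 3 * f + q ^ 3 * f) :=
          Nat.mul_le_mul le_rfl (Nat.add_le_add le_rfl h2)
      _ = _ := by ring
  push Not at h1 h2
  have ha' : I ^ 2 ≤ 2 * A * q * (e ^ 2 * f) := by
    refine ha.trans ?_
    have h3 : q ^ 3 * e ≤ q * e ^ 2 := by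
      calc q ^ 3 * e = q * e * q ^ 2 := by ring
        _ ≤ q * e * e := Nat.mul_le_mul le_rfl h1.le
        _ = q * e ^ 2 := by ring
    calc A * f * (q ^ 3 * e + q * e ^ 2) ≤ A * f * (q * e ^ 2 + q * e ^ 2) :=
          Nat.mul_le_mul le_rfl (Nat.add_le_add h3 le_rfl)
      _ = _ := by ring
  have hb' : I ^ 2 ≤ 2 * A * q * (e * f ^ 2) := by
    refine hb.trans ?_
    have h3 : q ^ 3 * f ≤ q * f ^ 2 := by
      calc q ^ 3 * f = q * f * q ^ 2 := by ring
        _ ≤ q * f * f := Nat.mul_le_mul le_rfl h2.le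
        _ = q * f ^ 2 := by ring
    calc A * e * (q ^ 3 * f + q * f ^ 2) ≤ A * e * (q * f ^ 2 + q * f ^ 2) :=
          Nat.mul_le_mul le_rfl (Nat.add_le_add h3 le_rfl)
      _ = _ := by ring
  have h4 : I ^ 4 ≤ 4 * A ^ 2 * (q ^ 2 * (e * f) ^ 3) := by
    calc I ^ 4 = I ^ 2 * I ^ 2 := by ring
      _ ≤ (2 * A * q * (e ^ 2 * f)) * (2 * A * q * (e * f ^ 2)) := Nat.mul_le_mul ha' hb'
      _ = _ := by ring
  have hef : e * f ≤ q ^ 10 := by
    calc e * f ≤ q ^ 5 * q ^ 5 := Nat.mul_le_mul he hf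
      _ = q ^ 10 := by ring
  have h5 : (I ^ 7) ^ 4 ≤ ((4 * A ^ 2) ^ 2 * q ^ 6 * (e * f) ^ 5) ^ 4 := by
    calc (I ^ 7) ^ 4 = (I ^ 4) ^ 7 := by ring
      _ ≤ (4 * A ^ 2 * (q ^ 2 * (e * f) ^ 3)) ^ 7 := Nat.pow_le_pow_left h4 7
      _ = (4 * A ^ 2) ^ 7 * 1 * (q ^ 14 * (e * f) ^ 20 * (e * f)) := by ring
      _ ≤ (4 * A ^ 2) ^ 7 * (4 * A ^ 2) * (q ^ 14 * (e * f) ^ 20 * q ^ 10) :=
        Nat.mul_le_mul (Nat.mul_le_mul le_rfl hA2) (Nat.mul_le_mul le_rfl hef)
      _ = _ := by ring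
  exact le_of_pow_le_pow_left₀ (by norm_num) (Nat.zero_le _) h5

theorem task_harm1 : TaskHarm1 := by
  intro K
  refine ⟨(4 * (K ^ 2 + K + 1) ^ 2) ^ 2, ?_⟩
  intro G _ _ _ q V Z hq hG hV hZ h1 h2 E F
  have hcardE : E.card ≤ q ^ 5 := by rw [← hG]; exact card_le_univ E
  have hcardF : F.card ≤ q ^ 5 := by rw [← hG]; exact card_le_univ F
  have ha := incd_sq_le K q V Z hV hZ h1 h2 E F
  have hb := incd_sq_le K q V Z hV hZ h1 h2 (F.image (fun x => -x)) (E.image (fun x => -x))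
  rw [← incd_symm, card_image_of_injective _ neg_injective,
    card_image_of_injective _ neg_injective] at hb
  have hc : incd V E F ≤ E.card * F.card := by
    unfold incd
    refine (card_filter_le _ _).trans ?_
    rw [card_product]
  exact final_arith (K ^ 2 + K + 1) q E.card F.card (incd V E F) (by omega) hcardE hcardF ha hb hc

end Pool.H654R4
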