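import Pool.Agent.H654R4.Stmts

set_option autoImplicit false

/-! Task Harm2. -/

open Finset

namespace Pool.H654R4

noncomputable def Harm2_r : ℝ := (2 : ℝ) ^ (-(1 / 49) : ℝ)

theorem Harm2_r_pos : 0 < Harm2_r := Real.rpow_pos_of_pos (by norm_num) _

theorem Harm2_r_lt : Harm2_r < 1 := Real.rpow_lt_one_of_one_lt_of_neg (by norm_num) (by norm_num)

theorem Harm2_r_half : 1 / 2 ≤ Harm2_r := by
  have h : (2 : ℝ) ^ (-1 : ℝ) ≤ Harm2_r :=
    Real.rpow_le_rpow_of_exponent_le (by norm_num) (by norm_num)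
  rw [Real.rpow_neg_one] at h
  linarith

theorem Harm2_r_pow (n : ℕ) : Harm2_r ^ n = ((2 : ℝ) ^ n) ^ (-(1 / 49) : ℝ) := by
  unfold Harm2_r
  rw [← Real.rpow_natCast, ← Real.rpow_natCast, ← Real.rpow_mul (by norm_num),
    ← Real.rpow_mul (by norm_num), mul_comm]

theorem Harm2_cheb {G : Type} [Fintype G] (f : G → ℝ) (hf : ∀ x, 0 ≤ f x) (Q : ℝ) (hQ : 1 ≤ Q)
    (hs : ∑ x, f x ^ ((10 : ℝ) / 7) = Q ^ 5) (n : ℕ) :
    (2 : ℝ) ^ (n + 1) * ((univ.filter (fun x => (2 : ℝ) ^ n < f x)).card : ℝ) ^ ((5 : ℝ) / 7) ≤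
      Q ^ ((25 : ℝ) / 7) * (4 * Harm2_r ^ (n + 1)) := by
  have ht : (0 : ℝ) < (2 : ℝ) ^ n := by positivity
  obtain ⟨t, htd⟩ : ∃ t : ℝ, t = (2 : ℝ) ^ n := ⟨_, rfl⟩
  rw [pow_succ, pow_succ, Harm2_r_pow, ← htd]
  rw [← htd] at ht
  obtain ⟨c, hc⟩ : ∃ c : ℝ, c = ((univ.filter (fun x => t < f x)).card : ℝ) := ⟨_, rfl⟩
  rw [← hc]
  have hc0 : 0 ≤ c := by rw [hc]; positivity
  have hQ0 : 0 < Q := by linarith
  have h1 : c * t ^ ((10 : ℝ) / 7) ≤ Q ^ 5 := by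
    rw [← hs, hc, ← nsmul_eq_mul, ← Finset.sum_const]
    calc ∑ _x ∈ univ.filter (fun x => t < f x), t ^ ((10 : ℝ) / 7)
        ≤ ∑ x ∈ univ.filter (fun x => t < f x), f x ^ ((10 : ℝ) / 7) := by
          refine Finset.sum_le_sum fun x hx => ?_
          have := (Finset.mem_filter.1 hx).2
          exact Real.rpow_le_rpow ht.le this.le (by norm_num)
      _ ≤ ∑ x, f x ^ ((10 : ℝ) / 7) :=
          Finset.sum_le_sum_of_subset_of_nonneg (Finset.filter_subset _ _)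
            fun x _ _ => Real.rpow_nonneg (hf x) _
  have h2 : c ≤ Q ^ (5 : ℝ) * t ^ (-((10 : ℝ) / 7)) := by
    have e : Q ^ (5 : ℝ) = Q ^ 5 := by
      rw [← Real.rpow_natCast]; norm_num
    rw [Real.rpow_neg ht.le, ← div_eq_mul_inv, le_div_iff₀ (Real.rpow_pos_of_pos ht _), e]
    exact h1
  have h3 : c ^ ((5 : ℝ) / 7) ≤ Q ^ ((25 : ℝ) / 7) * t ^ (-((50 : ℝ) / 49)) := by
    refine (Real.rpow_le_rpow hc0 h2 (by norm_num)).trans (le_of_eq ?_)
    rw [Real.mul_rpow (Real.rpow_nonneg hQ0.le _) (Real.rpow_nonneg ht.le _),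
      ← Real.rpow_mul hQ0.le, ← Real.rpow_mul ht.le]
    norm_num
  have h4 : t * t ^ (-((50 : ℝ) / 49)) = t ^ (-(1 / 49) : ℝ) := by
    nth_rewrite 1 [← Real.rpow_one t]
    rw [← Real.rpow_add ht]
    norm_num
  have hp : 0 < t ^ (-(1 / 49) : ℝ) := Real.rpow_pos_of_pos ht _
  have hQp : 0 < Q ^ ((25 : ℝ) / 7) := Real.rpow_pos_of_pos hQ0 _
  have hr := Harm2_r_half
  calc t * 2 * c ^ ((5 : ℝ) / 7) ≤ t * 2 * (Q ^ ((25 : ℝ) / 7) * t ^ (-((50 : ℝ) / 49))) :=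
        mul_le_mul_of_nonneg_left h3 (by positivity)
    _ = Q ^ ((25 : ℝ) / 7) * (2 * t ^ (-(1 / 49) : ℝ)) := by rw [← h4]; ring
    _ ≤ Q ^ ((25 : ℝ) / 7) * (4 * (t ^ (-(1 / 49) : ℝ) * Harm2_r)) := by
        refine mul_le_mul_of_nonneg_left ?_ hQp.le
        nlinarith

/-- level sets -/
noncomputable def Harm2_E {G : Type} [Fintype G] (f : G → ℝ) (j : ℕ) : Finset G :=
  if j = 0 then univ else univ.filter (fun x => (2 : ℝ) ^ (j - 1) < f x)

theorem Harm2_E_le {G : Type} [Fintype G] (f : G → ℝ) (hf : ∀ x, 0 ≤ f x) (q : ℕ) (hq : 1 ≤ q)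
    (hG : Fintype.card G = q ^ 5)
    (hs : ∑ x, f x ^ ((10 : ℝ) / 7) = (q : ℝ) ^ 5) (j : ℕ) :
    (2 : ℝ) ^ j * ((Harm2_E f j).card : ℝ) ^ ((5 : ℝ) / 7) ≤
      (q : ℝ) ^ ((25 : ℝ) / 7) * (4 * Harm2_r ^ j) := by
  have hQ : (1 : ℝ) ≤ q := by exact_mod_cast hq
  cases j with
  | zero =>
    have e : (Harm2_E f 0).card = q ^ 5 := by
      rw [Harm2_E, if_pos rfl, Finset.card_univ, hG]
    rw [e]
    push_cast
    have e2 : (((q : ℝ) ^ 5) ^ ((5 : ℝ) / 7)) = (q : ℝ) ^ ((25 : ℝ) / 7) := by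
      rw [← Real.rpow_natCast, ← Real.rpow_mul (by linarith)]
      norm_num
    rw [e2, pow_zero, pow_zero]
    have : 0 < (q : ℝ) ^ ((25 : ℝ) / 7) := Real.rpow_pos_of_pos (by linarith) _
    linarith
  | succ n =>
    have e : Harm2_E f (n + 1) = univ.filter (fun x => (2 : ℝ) ^ n < f x) := by
      rw [Harm2_E, if_neg (Nat.succ_ne_zero n)]
      rfl
    rw [e]
    exact Harm2_cheb f hf q hQ hs n

theorem Harm2_pt {G : Type} [Fintype G] [DecidableEq G] (f : G → ℝ) (J : ℕ)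
    (hJ : ∀ x, f x ≤ 2 ^ J) (x : G) :
    f x ≤ ∑ j ∈ range (J + 1), (2 : ℝ) ^ j * (if x ∈ Harm2_E f j then 1 else 0) := by
  classical
  have hex : ∃ j : ℕ, f x ≤ 2 ^ j := ⟨J, hJ x⟩
  have h1 := Nat.find_spec hex
  have h2 : Nat.find hex ≤ J := Nat.find_min' hex (hJ x)
  have h3 : x ∈ Harm2_E f (Nat.find hex) := by
    by_cases h0 : Nat.find hex = 0
    · rw [Harm2_E, if_pos h0]
      exact Finset.mem_univ _
    · rw [Harm2_E, if_neg h0, Finset.mem_filter]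
      refine ⟨Finset.mem_univ _, ?_⟩
      have := Nat.find_min hex (m := Nat.find hex - 1) (by omega)
      exact not_le.1 this
  refine h1.trans ?_
  have h4 := Finset.single_le_sum
    (f := fun j => (2 : ℝ) ^ j * (if x ∈ Harm2_E f j then (1 : ℝ) else 0))
    (s := range (J + 1)) (fun j _ => by positivity) (Finset.mem_range.2 (Nat.lt_succ_of_le h2))
  simp only [h3, if_true, mul_one] at h4
  exact h4

theorem Harm2_geom (J : ℕ) : ∑ j ∈ range J, Harm2_r ^ j ≤ (1 - Harm2_r)⁻¹ := by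
  have h0 := Harm2_r_pos
  have h1 := Harm2_r_lt
  rw [← tsum_geometric_of_lt_one h0.le h1]
  exact (summable_geometric_of_lt_one h0.le h1).sum_le_tsum _ (fun j _ => by positivity)

theorem Harm2_sevenths (x : ℝ) (hx : 0 ≤ x) (a : ℕ) : (x ^ ((a : ℝ) / 7)) ^ 7 = x ^ a := by
  rw [← Real.rpow_natCast, ← Real.rpow_mul hx]
  have : (a : ℝ) / 7 * ((7 : ℕ) : ℝ) = a := by push_cast; field_simp
  rw [this, Real.rpow_natCast]

theorem Harm2_I (I M q e f : ℕ) (h : I ^ 7 ≤ M * q ^ 6 * (e * f) ^ 5) :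
    (I : ℝ) ≤ (M : ℝ) ^ ((1 : ℝ) / 7) * (q : ℝ) ^ ((6 : ℝ) / 7) *
      ((e : ℝ) ^ ((5 : ℝ) / 7) * (f : ℝ) ^ ((5 : ℝ) / 7)) := by
  have h1 : (I : ℝ) ^ 7 ≤ M * q ^ 6 * (e * f) ^ 5 := by exact_mod_cast h
  refine le_of_pow_le_pow_left₀ (n := 7) (by norm_num) (by positivity) ?_
  refine h1.trans (le_of_eq ?_)
  have e1 := Harm2_sevenths (M : ℝ) (by positivity) 1
  have e2 := Harm2_sevenths (q : ℝ) (by positivity) 6
  have e3 := Harm2_sevenths (e : ℝ) (by positivity) 5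
  have e4 := Harm2_sevenths (f : ℝ) (by positivity) 5
  push_cast at e1 e2 e3 e4
  rw [mul_pow, mul_pow, mul_pow, mul_pow, e1, e2, e3, e4]
  ring

theorem Harm2_card {G : Type} [AddCommGroup G] [Fintype G] [DecidableEq G] (V E F : Finset G) :
    ∑ y : G, ∑ u : G, (if y - u ∈ V then (1 : ℝ) else 0) * (if u ∈ E then 1 else 0) *
      (if y ∈ F then 1 else 0) = (((E ×ˢ F).filter (fun s => s.2 - s.1 ∈ V)).card : ℝ) := by
  rw [Finset.card_filter]
  push_cast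
  rw [Finset.sum_product_right]
  have h1 : ∀ y : G, ∑ u : G, (if y - u ∈ V then (1 : ℝ) else 0) * (if u ∈ E then 1 else 0) *
      (if y ∈ F then 1 else 0) = if y ∈ F then ∑ u ∈ E, (if y - u ∈ V then (1 : ℝ) else 0)
        else 0 := by
    intro y
    split_ifs with hy
    · simp only [mul_one]
      simp only [mul_ite, mul_one, mul_zero]
      rw [Finset.sum_ite_mem, Finset.univ_inter]
    · simp
  rw [Finset.sum_congr rfl fun y _ => h1 y, Finset.sum_ite_mem, Finset.univ_inter]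

theorem task_Harm2 : TaskHarm2 := by
  intro M
  refine ⟨2 * (M : ℝ) ^ ((1 : ℝ) / 7) * (4 * (1 - Harm2_r)⁻¹) ^ 2 + 1, by positivity, ?_⟩
  intro G _ _ _ q V hq hG hV hI f g hf hg hsf hsg
  have hQ : (1 : ℝ) ≤ q := by exact_mod_cast hq
  have hQ0 : (0 : ℝ) < q := by linarith
  obtain ⟨J, hJ⟩ : ∃ J : ℕ, ∀ x, f x ≤ 2 ^ J ∧ g x ≤ 2 ^ J := by
    obtain ⟨a, ha⟩ : ∃ a : ℝ, ∀ x, f x ≤ a ∧ g x ≤ a := by
      refine ⟨∑ x, (f x + g x), fun x => ?_⟩
      have := Finset.single_le_sum (f := fun x => f x + g x) (fun x _ => add_nonneg (hf x) (hg x))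
        (Finset.mem_univ x)
      constructor
      · linarith [hg x]
      · linarith [hf x]
    obtain ⟨J, hJ⟩ := pow_unbounded_of_one_lt a (one_lt_two)
    exact ⟨J, fun x => ⟨(ha x).1.trans hJ.le, (ha x).2.trans hJ.le⟩⟩
  -- reindex
  have e1 : ∀ y, ∑ x ∈ V, f (y - x) = ∑ u : G, (if y - u ∈ V then (1 : ℝ) else 0) * f u := by
    intro y
    have h1 : ∑ u : G, (if y - u ∈ V then (1 : ℝ) else 0) * f u =
        ∑ x : G, (if x ∈ V then (1 : ℝ) else 0) * f (y - x) := by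
      refine Fintype.sum_equiv (Equiv.subLeft y) _ _ fun u => ?_
      simp
    rw [h1]
    simp only [ite_mul, one_mul, zero_mul]
    rw [Finset.sum_ite_mem, Finset.univ_inter]
  have e2 : ∑ y, ((V.card : ℝ)⁻¹ * ∑ x ∈ V, f (y - x)) * g y =
      (V.card : ℝ)⁻¹ * ∑ y, ∑ u, (if y - u ∈ V then (1 : ℝ) else 0) * f u * g y := by
    rw [Finset.mul_sum]
    refine Finset.sum_congr rfl fun y _ => ?_
    rw [e1, mul_assoc, Finset.sum_mul]
  rw [e2]
  -- decomposition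
  have h1 : ∑ y : G, ∑ u : G, (if y - u ∈ V then (1 : ℝ) else 0) * f u * g y ≤
      ∑ j ∈ range (J + 1), ∑ k ∈ range (J + 1), (2 : ℝ) ^ j * 2 ^ k *
        ((((Harm2_E f j) ×ˢ (Harm2_E g k)).filter (fun s => s.2 - s.1 ∈ V)).card : ℝ) := by
    calc ∑ y : G, ∑ u : G, (if y - u ∈ V then (1 : ℝ) else 0) * f u * g y
        ≤ ∑ y : G, ∑ u : G, (if y - u ∈ V then (1 : ℝ) else 0) *
          (∑ j ∈ range (J + 1), (2 : ℝ) ^ j * (if u ∈ Harm2_E f j then 1 else 0)) *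
          (∑ k ∈ range (J + 1), (2 : ℝ) ^ k * (if y ∈ Harm2_E g k then 1 else 0)) := by
          refine Finset.sum_le_sum fun y _ => Finset.sum_le_sum fun u _ => ?_
          have p1 := Harm2_pt f J (fun x => (hJ x).1) u
          have p2 := Harm2_pt g J (fun x => (hJ x).2) y
          have p3 := hf u
          have p4 := hg y
          refine mul_le_mul (mul_le_mul_of_nonneg_left p1 (by positivity)) p2 p4 ?_
          exact mul_nonneg (by positivity) (p3.trans p1)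
      _ = ∑ y : G, ∑ u : G, ∑ j ∈ range (J + 1), ∑ k ∈ range (J + 1), (2 : ℝ) ^ j * 2 ^ k *
            ((if y - u ∈ V then (1 : ℝ) else 0) * (if u ∈ Harm2_E f j then 1 else 0) *
              (if y ∈ Harm2_E g k then 1 else 0)) := by
          refine Finset.sum_congr rfl fun y _ => Finset.sum_congr rfl fun u _ => ?_
          rw [mul_assoc, Finset.sum_mul_sum, Finset.mul_sum]
          refine Finset.sum_congr rfl fun j _ => ?_
          rw [Finset.mul_sum]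
          refine Finset.sum_congr rfl fun k _ => ?_
          ring
      _ = ∑ y : G, ∑ j ∈ range (J + 1), ∑ u : G, ∑ k ∈ range (J + 1), (2 : ℝ) ^ j * 2 ^ k *
            ((if y - u ∈ V then (1 : ℝ) else 0) * (if u ∈ Harm2_E f j then 1 else 0) *
              (if y ∈ Harm2_E g k then 1 else 0)) :=
          Finset.sum_congr rfl fun y _ => Finset.sum_comm
      _ = ∑ j ∈ range (J + 1), ∑ y : G, ∑ u : G, ∑ k ∈ range (J + 1), (2 : ℝ) ^ j * 2 ^ k *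
            ((if y - u ∈ V then (1 : ℝ) else 0) * (if u ∈ Harm2_E f j then 1 else 0) *
              (if y ∈ Harm2_E g k then 1 else 0)) := Finset.sum_comm
      _ = ∑ j ∈ range (J + 1), ∑ y : G, ∑ k ∈ range (J + 1), ∑ u : G, (2 : ℝ) ^ j * 2 ^ k *
            ((if y - u ∈ V then (1 : ℝ) else 0) * (if u ∈ Harm2_E f j then 1 else 0) *
              (if y ∈ Harm2_E g k then 1 else 0)) :=
          Finset.sum_congr rfl fun j _ => Finset.sum_congr rfl fun y _ => Finset.sum_comm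
      _ = ∑ j ∈ range (J + 1), ∑ k ∈ range (J + 1), ∑ y : G, ∑ u : G, (2 : ℝ) ^ j * 2 ^ k *
            ((if y - u ∈ V then (1 : ℝ) else 0) * (if u ∈ Harm2_E f j then 1 else 0) *
              (if y ∈ Harm2_E g k then 1 else 0)) :=
          Finset.sum_congr rfl fun j _ => Finset.sum_comm
      _ = _ := by
          refine Finset.sum_congr rfl fun j _ => Finset.sum_congr rfl fun k _ => ?_
          rw [← Harm2_card, Finset.mul_sum]
          refine Finset.sum_congr rfl fun y _ => ?_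
          rw [Finset.mul_sum]
  have hM : 0 ≤ (M : ℝ) ^ ((1 : ℝ) / 7) := Real.rpow_nonneg (Nat.cast_nonneg _) _
  have hQ6 : 0 ≤ (q : ℝ) ^ ((6 : ℝ) / 7) := Real.rpow_nonneg hQ0.le _
  have hQ25 : 0 ≤ (q : ℝ) ^ ((25 : ℝ) / 7) := Real.rpow_nonneg hQ0.le _
  have hr0 := Harm2_r_pos
  have hr1 := Harm2_r_lt
  have hgeom := Harm2_geom (J + 1)
  have hgeom0 : 0 ≤ ∑ j ∈ range (J + 1), Harm2_r ^ j :=
    Finset.sum_nonneg fun j _ => by positivity
  have h2 : ∑ j ∈ range (J + 1), ∑ k ∈ range (J + 1), (2 : ℝ) ^ j * 2 ^ k *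
        ((((Harm2_E f j) ×ˢ (Harm2_E g k)).filter (fun s => s.2 - s.1 ∈ V)).card : ℝ) ≤
      (M : ℝ) ^ ((1 : ℝ) / 7) * (q : ℝ) ^ 8 * (4 * (1 - Harm2_r)⁻¹) ^ 2 := by
    calc ∑ j ∈ range (J + 1), ∑ k ∈ range (J + 1), (2 : ℝ) ^ j * 2 ^ k *
        ((((Harm2_E f j) ×ˢ (Harm2_E g k)).filter (fun s => s.2 - s.1 ∈ V)).card : ℝ)
        ≤ ∑ j ∈ range (J + 1), ∑ k ∈ range (J + 1),
          ((M : ℝ) ^ ((1 : ℝ) / 7) * (q : ℝ) ^ ((6 : ℝ) / 7)) *
            (((q : ℝ) ^ ((25 : ℝ) / 7) * (4 * Harm2_r ^ j)) *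
              ((q : ℝ) ^ ((25 : ℝ) / 7) * (4 * Harm2_r ^ k))) := by
          refine Finset.sum_le_sum fun j _ => Finset.sum_le_sum fun k _ => ?_
          have p1 := Harm2_I _ M q _ _ (hI (Harm2_E f j) (Harm2_E g k))
          have p2 := Harm2_E_le f hf q hq hG hsf j
          have p3 := Harm2_E_le g hg q hq hG hsg k
          have p4 : 0 ≤ ((Harm2_E f j).card : ℝ) ^ ((5 : ℝ) / 7) :=
            Real.rpow_nonneg (Nat.cast_nonneg _) _
          have p5 : 0 ≤ ((Harm2_E g k).card : ℝ) ^ ((5 : ℝ) / 7) :=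
            Real.rpow_nonneg (Nat.cast_nonneg _) _
          calc (2 : ℝ) ^ j * 2 ^ k *
              ((((Harm2_E f j) ×ˢ (Harm2_E g k)).filter (fun s => s.2 - s.1 ∈ V)).card : ℝ)
              ≤ (2 : ℝ) ^ j * 2 ^ k * ((M : ℝ) ^ ((1 : ℝ) / 7) * (q : ℝ) ^ ((6 : ℝ) / 7) *
                (((Harm2_E f j).card : ℝ) ^ ((5 : ℝ) / 7) *
                  ((Harm2_E g k).card : ℝ) ^ ((5 : ℝ) / 7))) :=
                mul_le_mul_of_nonneg_left p1 (by positivity)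
            _ = ((M : ℝ) ^ ((1 : ℝ) / 7) * (q : ℝ) ^ ((6 : ℝ) / 7)) *
                (((2 : ℝ) ^ j * ((Harm2_E f j).card : ℝ) ^ ((5 : ℝ) / 7)) *
                  ((2 : ℝ) ^ k * ((Harm2_E g k).card : ℝ) ^ ((5 : ℝ) / 7))) := by ring
            _ ≤ _ := by
                refine mul_le_mul_of_nonneg_left ?_ (mul_nonneg hM hQ6)
                exact mul_le_mul p2 p3 (mul_nonneg (by positivity) p5)
                  (mul_nonneg hQ25 (by positivity))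
      _ = ((M : ℝ) ^ ((1 : ℝ) / 7) * ((q : ℝ) ^ ((6 : ℝ) / 7) *
            ((q : ℝ) ^ ((25 : ℝ) / 7) * (q : ℝ) ^ ((25 : ℝ) / 7)))) *
            (4 * ∑ j ∈ range (J + 1), Harm2_r ^ j) ^ 2 := by
          rw [pow_two]
          simp only [Finset.mul_sum, Finset.sum_mul]
          rw [Finset.sum_comm]
          refine Finset.sum_congr rfl fun j _ => Finset.sum_congr rfl fun k _ => ?_
          ring
      _ ≤ ((M : ℝ) ^ ((1 : ℝ) / 7) * ((q : ℝ) ^ ((6 : ℝ) / 7) *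
            ((q : ℝ) ^ ((25 : ℝ) / 7) * (q : ℝ) ^ ((25 : ℝ) / 7)))) *
            (4 * (1 - Harm2_r)⁻¹) ^ 2 := by
          refine mul_le_mul_of_nonneg_left ?_ (by positivity)
          exact pow_le_pow_left₀ (by positivity) (by linarith) 2
      _ = _ := by
          have e3 : (q : ℝ) ^ ((6 : ℝ) / 7) * ((q : ℝ) ^ ((25 : ℝ) / 7) * (q : ℝ) ^ ((25 : ℝ) / 7)) =
              (q : ℝ) ^ 8 := by
            rw [← Real.rpow_add hQ0, ← Real.rpow_add hQ0, ← Real.rpow_natCast]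
            norm_num
          rw [e3]
  have hVc : (q : ℝ) ^ 3 ≤ 2 * V.card := by exact_mod_cast hV
  have hVp : 0 < (V.card : ℝ) := by
    have : 0 < (q : ℝ) ^ 3 := by positivity
    linarith
  have hVi : (V.card : ℝ)⁻¹ ≤ 2 * ((q : ℝ) ^ 3)⁻¹ := by
    rw [inv_le_comm₀ hVp (by positivity), mul_inv, inv_inv]
    linarith
  have hS : ∑ y : G, ∑ u : G, (if y - u ∈ V then (1 : ℝ) else 0) * f u * g y ≤
      (M : ℝ) ^ ((1 : ℝ) / 7) * (q : ℝ) ^ 8 * (4 * (1 - Harm2_r)⁻¹) ^ 2 := h1.trans h2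
  have hK0 : 0 ≤ (M : ℝ) ^ ((1 : ℝ) / 7) * (q : ℝ) ^ 8 * (4 * (1 - Harm2_r)⁻¹) ^ 2 := by
    positivity
  calc (V.card : ℝ)⁻¹ * ∑ y : G, ∑ u : G, (if y - u ∈ V then (1 : ℝ) else 0) * f u * g y
      ≤ (V.card : ℝ)⁻¹ * ((M : ℝ) ^ ((1 : ℝ) / 7) * (q : ℝ) ^ 8 * (4 * (1 - Harm2_r)⁻¹) ^ 2) :=
        mul_le_mul_of_nonneg_left hS (by positivity)
    _ ≤ (2 * ((q : ℝ) ^ 3)⁻¹) *
        ((M : ℝ) ^ ((1 : ℝ) / 7) * (q : ℝ) ^ 8 * (4 * (1 - Harm2_r)⁻¹) ^ 2) :=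
        mul_le_mul_of_nonneg_right hVi hK0
    _ = (2 * (M : ℝ) ^ ((1 : ℝ) / 7) * (4 * (1 - Harm2_r)⁻¹) ^ 2) * (q : ℝ) ^ 5 := by
        field_simp
    _ ≤ _ := by
        have : 0 ≤ (q : ℝ) ^ 5 := by positivity
        nlinarith

end Pool.H654R4
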