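import Pool.Agent.H654R4.Stmts

set_option autoImplicit false

/-!
# Isotropic `z`: `TaskIso`
-/

open Finset

namespace Pool.H654R4

section iso

variable {F : Type} [Field F]

/-- parametrisation of the two families -/
def isoX (i e T0 T1 : F) (s : F × F × F) : Fin 5 → F :=
  ![(T0 * s.1 + T1 * s.2.1) / 2, (T0 * s.1 - T1 * s.2.1) / (2 * i),
    (T0 * s.2.1 - T1 * s.1) / 2, e * (T0 * s.2.1 + T1 * s.1) / 2, s.2.2 / 2]

theorem isoX_sub (i e T0 T1 : F) (s t : F × F × F) :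
    isoX i e T0 T1 s - isoX i e T0 T1 t =
      isoX i e T0 T1 (s.1 - t.1, s.2.1 - t.2.1, s.2.2 - t.2.2) := by
  funext j
  fin_cases j <;> simp [isoX] <;> ring

theorem iso_par {p q v1 v2 : F} (hv : ¬ (v1 = 0 ∧ v2 = 0)) (h : p * v2 = q * v1) :
    ∃ l : F, p = l * v1 ∧ q = l * v2 := by
  by_cases h1 : v1 = 0
  · have h2 : v2 ≠ 0 := fun h2 => hv ⟨h1, h2⟩
    subst h1
    rw [mul_zero] at h
    have hp : p = 0 := (mul_eq_zero.1 h).resolve_right h2
    exact ⟨q / v2, by rw [hp]; ring, by field_simp⟩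
  · refine ⟨p / v1, by field_simp, ?_⟩
    field_simp
    linear_combination -h

theorem iso_rank {a b c d : F} (h : a * b = c * d) (h0 : ¬ (a = 0 ∧ b = 0 ∧ c = 0 ∧ d = 0)) :
    ∃ t0 t1 v1 v2 : F, ¬ (t0 = 0 ∧ t1 = 0) ∧ ¬ (v1 = 0 ∧ v2 = 0) ∧ a = t0 * v1 ∧ c = t0 * v2 ∧
      d = t1 * v1 ∧ b = t1 * v2 := by
  by_cases h1 : a = 0 ∧ c = 0
  · obtain ⟨ha, hc⟩ := h1
    refine ⟨0, 1, d, b, by simp, ?_, by simp [ha], by simp [hc], by simp, by simp⟩
    rintro ⟨hd, hb⟩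
    exact h0 ⟨ha, hb, hc, hd⟩
  · have h2 : d * c = b * a := by linear_combination -h
    obtain ⟨l, h3, h4⟩ := iso_par h1 h2
    exact ⟨1, l, a, c, by simp, h1, by simp, by simp, h3, h4⟩

theorem iso_dich {a b c d t0 t1 v1 v2 : F} (ht : ¬ (t0 = 0 ∧ t1 = 0)) (hv : ¬ (v1 = 0 ∧ v2 = 0))
    (h : a * b = c * d) (h2 : (t1 * a - t0 * d) * v2 = (t1 * c - t0 * b) * v1) :
    (∃ l m : F, a = t0 * l ∧ c = t0 * m ∧ d = t1 * l ∧ b = t1 * m) ∨
    (∃ l m : F, a = l * v1 ∧ c = l * v2 ∧ d = m * v1 ∧ b = m * v2) := by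
  obtain ⟨s, hs1, hs2⟩ := iso_par hv h2
  by_cases hs : s = 0
  · left
    subst hs
    have h3 : a * t1 = d * t0 := by linear_combination hs1
    have h4 : c * t1 = b * t0 := by linear_combination hs2
    obtain ⟨l, hl1, hl2⟩ := iso_par ht h3
    obtain ⟨m, hm1, hm2⟩ := iso_par ht h4
    exact ⟨l, m, by rw [hl1]; ring, by rw [hm1]; ring, by rw [hl2]; ring, by rw [hm2]; ring⟩
  · right
    have h3 : s * (a * v2 - c * v1) = 0 := by
      linear_combination -a * hs2 + c * hs1 - t0 * h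
    have h4 : s * (d * v2 - b * v1) = 0 := by
      linear_combination -d * hs2 + b * hs1 - t1 * h
    have h5 := (mul_eq_zero.1 h3).resolve_left hs
    have h6 := (mul_eq_zero.1 h4).resolve_left hs
    obtain ⟨l, hl1, hl2⟩ := iso_par hv (sub_eq_zero.1 h5)
    obtain ⟨m, hm1, hm2⟩ := iso_par hv (sub_eq_zero.1 h6)
    exact ⟨l, m, hl1, hl2, hm1, hm2⟩

end iso

section finite

variable {F : Type} [Field F] [Fintype F] [DecidableEq F]

theorem mem_H_iso {x : Fin 5 → F} : x ∈ H F ↔ x 0 ^ 2 + x 1 ^ 2 + x 2 ^ 2 = x 3 ^ 2 ∧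
    x 0 ^ 3 + x 1 ^ 3 + x 2 ^ 3 = x 4 ^ 3 := by
  simp [H]

theorem isoX_cub (h2 : (2 : F) ≠ 0) {i : F} (hi : i ^ 2 = -1) {e T0 T1 : F} {s : F × F × F}
    (hx : isoX i e T0 T1 s ∈ H F) : s.2.2 ^ 3 = pt i T0 T1 s.1 s.2.1 := by
  have h := (mem_H_iso.1 hx).2
  have hi0 : i ≠ 0 := by
    rintro rfl
    norm_num at hi
  have g0 : 2 * isoX i e T0 T1 s 0 = T0 * s.1 + T1 * s.2.1 := by
    show 2 * ((T0 * s.1 + T1 * s.2.1) / 2) = _
    field_simp
  have g1 : 2 * isoX i e T0 T1 s 1 = -i * (T0 * s.1 - T1 * s.2.1) := by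
    show 2 * ((T0 * s.1 - T1 * s.2.1) / (2 * i)) = _
    field_simp
    linear_combination (T0 * s.1 - T1 * s.2.1) * hi
  have g2 : 2 * isoX i e T0 T1 s 2 = T0 * s.2.1 - T1 * s.1 := by
    show 2 * ((T0 * s.2.1 - T1 * s.1) / 2) = _
    field_simp
  have g4 : 2 * isoX i e T0 T1 s 4 = s.2.2 := by
    show 2 * (s.2.2 / 2) = _
    field_simp
  have h4 : (2 * isoX i e T0 T1 s 0) ^ 3 + (2 * isoX i e T0 T1 s 1) ^ 3 +
      (2 * isoX i e T0 T1 s 2) ^ 3 = (2 * isoX i e T0 T1 s 4) ^ 3 := by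
    linear_combination 8 * h
  rw [g0, g1, g2, g4] at h4
  simp only [pt, cub]
  linear_combination -h4 - i * (T0 * s.1 - T1 * s.2.1) ^ 3 * hi

theorem iso_count {K : ℕ} (h2 : (2 : F) ≠ 0) {i : F} (hi : i ^ 2 = -1) {e T0 T1 : F}
    {v : F × F × F}
    (hK : (Finset.univ.filter (fun s : F × F × F =>
        s.2.2 ^ 3 = pt i T0 T1 s.1 s.2.1 ∧
        (s.2.2 - v.2.2) ^ 3 = pt i T0 T1 (s.1 - v.1) (s.2.1 - v.2.1))).card ≤ K * Fintype.card F) :
    ((H F).filter (fun x => x - isoX i e T0 T1 v ∈ H F ∧ ∃ s, x = isoX i e T0 T1 s)).card ≤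
      K * Fintype.card F := by
  classical
  refine le_trans ?_ hK
  refine le_trans (Finset.card_le_card (t := Finset.image (isoX i e T0 T1)
    (Finset.univ.filter (fun s : F × F × F =>
        s.2.2 ^ 3 = pt i T0 T1 s.1 s.2.1 ∧
        (s.2.2 - v.2.2) ^ 3 = pt i T0 T1 (s.1 - v.1) (s.2.1 - v.2.1)))) ?_) Finset.card_image_le
  intro x hx
  rw [Finset.mem_filter] at hx
  obtain ⟨hx1, hx2, s, rfl⟩ := hx
  rw [isoX_sub] at hx2
  refine Finset.mem_image.2 ⟨s, ?_, rfl⟩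
  rw [Finset.mem_filter]
  exact ⟨Finset.mem_univ _, isoX_cub h2 hi hx1, isoX_cub h2 hi hx2⟩

theorem task_iso : TaskIso := by
  intro hbin hnev
  obtain ⟨K, hK⟩ := hbin
  refine ⟨2 * K, ?_⟩
  intro F _ _ _ h2 h3 i hi z hz hz0
  have hi0 : i ≠ 0 := by
    rintro rfl
    norm_num at hi
  -- rank one factorisation of `z`
  have hfac : ∃ t0 t1 v1 v2 : F, ¬ (t0 = 0 ∧ t1 = 0) ∧ ¬ (v1 = 0 ∧ v2 = 0) ∧
      z 0 + i * z 1 = t0 * v1 ∧ z 3 + z 2 = t0 * v2 ∧ z 3 - z 2 = t1 * v1 ∧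
      z 0 - i * z 1 = t1 * v2 := by
    refine iso_rank ?_ ?_
    · unfold h1 at hz
      linear_combination hz - z 1 ^ 2 * hi
    · rintro ⟨e1, e2, e3, e4⟩
      have f0 : (2 : F) * z 0 = 0 := by linear_combination e1 + e2
      have f1 : (2 : F) * (i * z 1) = 0 := by linear_combination e1 - e2
      have f3 : (2 : F) * z 3 = 0 := by linear_combination e3 + e4
      have f2 : (2 : F) * z 2 = 0 := by linear_combination e3 - e4
      refine hz0 ⟨(mul_eq_zero.1 f0).resolve_left h2,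
        (mul_eq_zero.1 ((mul_eq_zero.1 f1).resolve_left h2)).resolve_left hi0,
        (mul_eq_zero.1 f2).resolve_left h2, (mul_eq_zero.1 f3).resolve_left h2⟩
  obtain ⟨t0, t1, v1, v2, ht, hv, ha, hc, hd, hb⟩ := hfac
  -- a point with given coordinates
  have key : ∀ (x : Fin 5 → F) (e T0 T1 L M : F), x 0 + i * x 1 = T0 * L →
      x 0 - i * x 1 = T1 * M → 2 * x 2 = T0 * M - T1 * L → 2 * x 3 = e * (T0 * M + T1 * L) →
      x = isoX i e T0 T1 (L, M, 2 * x 4) := by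
    intro x e T0 T1 L M g1 g2 g3 g4
    funext j
    fin_cases j
    · show x 0 = (T0 * L + T1 * M) / 2
      rw [← g1, ← g2]
      field_simp
      ring
    · show x 1 = (T0 * L - T1 * M) / (2 * i)
      rw [← g1, ← g2]
      field_simp
      ring
    · show x 2 = (T0 * M - T1 * L) / 2
      rw [← g3]
      field_simp
    · show x 3 = e * (T0 * M + T1 * L) / 2
      rw [← g4]
      field_simp
    · show x 4 = 2 * x 4 / 2
      field_simp
  have hz1 : z = isoX i 1 t0 t1 (v1, v2, 2 * z 4) := by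
    apply key z 1 t0 t1 v1 v2 ha hb
    · linear_combination hc - hd
    · linear_combination hc + hd
  have hz2 : z = isoX i (-1) v1 (-v2) (t0, -t1, 2 * z 4) := by
    apply key z (-1) v1 (-v2) t0 (-t1)
    · linear_combination ha
    · linear_combination hb
    · linear_combination hc - hd
    · linear_combination hc + hd
  have hv' : ¬ (v1 = 0 ∧ -v2 = 0) := by rwa [neg_eq_zero]
  have ht' : ¬ (t0 = 0 ∧ -t1 = 0) := by rwa [neg_eq_zero]
  have c1 := iso_count (e := 1) (v := (v1, v2, 2 * z 4)) h2 hi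
    (hK F h2 h3 _ _ _ _ (hnev F h2 i hi t0 t1 ht _ _ _ _ rfl rfl rfl rfl) v1 v2 (2 * z 4) hv)
  have c2 := iso_count (e := -1) (v := (t0, -t1, 2 * z 4)) h2 hi
    (hK F h2 h3 _ _ _ _ (hnev F h2 i hi v1 (-v2) hv' _ _ _ _ rfl rfl rfl rfl) t0 (-t1) (2 * z 4) ht')
  rw [← hz1] at c1
  rw [← hz2] at c2
  unfold N
  calc ((H F).filter (fun x => x - z ∈ H F)).card
      ≤ ((H F).filter (fun x => x - z ∈ H F ∧ ∃ s, x = isoX i 1 t0 t1 s) ∪
        (H F).filter (fun x => x - z ∈ H F ∧ ∃ s, x = isoX i (-1) v1 (-v2) s)).card := by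
        refine Finset.card_le_card ?_
        intro x hx
        rw [Finset.mem_filter] at hx
        obtain ⟨hx1, hx2⟩ := hx
        rw [Finset.mem_union, Finset.mem_filter, Finset.mem_filter]
        have q1 := (mem_H_iso.1 hx1).1
        have q2 := (mem_H_iso.1 hx2).1
        simp only [Pi.sub_apply] at q2
        have r1 : (x 0 + i * x 1) * (x 0 - i * x 1) = (x 3 + x 2) * (x 3 - x 2) := by
          linear_combination q1 - x 1 ^ 2 * hi
        have r2 : (t1 * (x 0 + i * x 1) - t0 * (x 3 - x 2)) * v2 =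
            (t1 * (x 3 + x 2) - t0 * (x 0 - i * x 1)) * v1 := by
          unfold h1 at hz
          linear_combination -(x 0 + i * x 1) * hb + (x 3 - x 2) * hc + (x 3 + x 2) * hd -
            (x 0 - i * x 1) * ha + q1 - q2 + hz - 2 * x 1 * z 1 * hi
        rcases iso_dich ht hv r1 r2 with ⟨l, m, g1, g2, g3, g4⟩ | ⟨l, m, g1, g2, g3, g4⟩
        · left
          refine ⟨hx1, hx2, (l, m, 2 * x 4), key x 1 t0 t1 l m g1 g4 ?_ ?_⟩
          · linear_combination g2 - g3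
          · linear_combination g2 + g3
        · right
          refine ⟨hx1, hx2, (l, -m, 2 * x 4), key x (-1) v1 (-v2) l (-m) ?_ ?_ ?_ ?_⟩
          · linear_combination g1
          · linear_combination g4
          · linear_combination g2 - g3
          · linear_combination g2 + g3
    _ ≤ _ := Finset.card_union_le _ _
    _ ≤ K * Fintype.card F + K * Fintype.card F := Nat.add_le_add c1 c2
    _ = 2 * K * Fintype.card F := by ring

end finite

end Pool.H654R4
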