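import Pool.Agent.H654R4.Stmts

/-! Task Lower of project H654-AVG: lower bound of the number of points of `H`. -/

set_option autoImplicit false

open Finset

open scoped ComplexConjugate

namespace Pool.H654R4.Lower

variable {F : Type} [Field F] [Fintype F] [DecidableEq F]

theorem fib (n : ℕ) (hn : 0 < n) (c : F) : (univ.filter (fun x : F => x ^ n = c)).card ≤ n := by
  have h1 : univ.filter (fun x : F => x ^ n = c) ⊆ (Polynomial.nthRoots n c).toFinset := by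
    intro x hx
    rw [Multiset.mem_toFinset, Polynomial.mem_nthRoots hn]
    exact (Finset.mem_filter.1 hx).2
  exact (Finset.card_le_card h1).trans
    ((Multiset.toFinset_card_le _).trans (Polynomial.card_nthRoots n c))

omit [DecidableEq F] in
theorem exists_prim : ∃ ψ : AddChar F ℂ, ψ.IsPrimitive := by
  obtain ⟨ψ, hψ⟩ := AddChar.exists_apply_ne_zero.2 (one_ne_zero : (1 : F) ≠ 0)
  refine ⟨ψ, AddChar.IsPrimitive.of_ne_one ?_⟩
  rintro rfl
  exact hψ rfl

/-- second moment -/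
theorem second {ψ : AddChar F ℂ} (hψ : ψ.IsPrimitive) (g : F → F) (k : ℕ)
    (hk : ∀ c, (univ.filter (fun x : F => g x = c)).card ≤ k) :
    ∑ s : F, ‖∑ x : F, ψ (s * g x)‖ ^ 2 ≤ k * (Fintype.card F : ℝ) ^ 2 := by
  have h1 : ((∑ s : F, ‖∑ x : F, ψ (s * g x)‖ ^ 2 : ℝ) : ℂ) =
      ((Fintype.card F * ∑ x : F, (univ.filter (fun y : F => g y = g x)).card : ℕ) : ℂ) := by
    push_cast
    have e1 : ∀ s : F, ((‖∑ x : F, ψ (s * g x)‖ : ℂ)) ^ 2 =
        ∑ x : F, ∑ y : F, ψ (s * (g x - g y)) := by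
      intro s
      rw [← Complex.mul_conj', map_sum, Finset.sum_mul_sum]
      refine Finset.sum_congr rfl fun x _ => Finset.sum_congr rfl fun y _ => ?_
      rw [← AddChar.map_neg_eq_conj, ← AddChar.map_add_eq_mul]
      congr 1
      ring
    simp only [e1]
    rw [Finset.sum_comm]
    rw [Finset.mul_sum]
    refine Finset.sum_congr rfl fun x _ => ?_
    rw [Finset.sum_comm]
    have e2 : ∀ y : F, ∑ s : F, ψ (s * (g x - g y)) = if g y = g x then (Fintype.card F : ℂ) else 0 := by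
      intro y
      rw [AddChar.sum_mulShift _ hψ]
      by_cases h : g y = g x
      · rw [if_pos h, if_pos (by rw [h, sub_self])]
      · rw [if_neg h, if_neg (fun h' => h (sub_eq_zero.1 h').symm), Nat.cast_zero]
    simp only [e2]
    rw [← Finset.sum_filter, Finset.sum_const, nsmul_eq_mul, mul_comm]
  have h2 : (∑ s : F, ‖∑ x : F, ψ (s * g x)‖ ^ 2 : ℝ) =
      ((Fintype.card F * ∑ x : F, (univ.filter (fun y : F => g y = g x)).card : ℕ) : ℝ) := by
    exact_mod_cast h1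
  rw [h2]
  have h3 : ∑ x : F, (univ.filter (fun y : F => g y = g x)).card ≤ Fintype.card F * k := by
    refine (Finset.sum_le_card_nsmul univ _ k fun x _ => hk (g x)).trans ?_
    rw [smul_eq_mul, Finset.card_univ]
  have h4 : Fintype.card F * ∑ x : F, (univ.filter (fun y : F => g y = g x)).card ≤
      k * Fintype.card F ^ 2 := by
    calc _ ≤ Fintype.card F * (Fintype.card F * k) := Nat.mul_le_mul_left _ h3
      _ = _ := by ring
  exact_mod_cast h4

theorem orth {ψ : AddChar F ℂ} (hψ : ψ.IsPrimitive) (a b : F) :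
    ∑ s : F, ∑ t : F, ψ (s * a) * ψ (t * b) =
      if a = 0 ∧ b = 0 then ((Fintype.card F : ℂ)) ^ 2 else 0 := by
  rw [← Finset.sum_mul_sum, AddChar.sum_mulShift _ hψ, AddChar.sum_mulShift _ hψ]
  by_cases ha : a = 0
  · by_cases hb : b = 0
    · rw [if_pos ha, if_pos hb, if_pos ⟨ha, hb⟩, sq]
    · simp [hb]
  · simp [ha]

theorem count {ψ : AddChar F ℂ} (hψ : ψ.IsPrimitive) :
    ((Fintype.card F : ℂ)) ^ 2 * ((H F).card : ℂ) =
      ∑ s : F, ∑ t : F, ES ψ s t ^ 3 * (conj (ES ψ s 0) * conj (ES ψ 0 t)) := by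
  have h1 : ((Fintype.card F : ℂ)) ^ 2 * ((H F).card : ℂ) = ∑ x : Fin 5 → F,
      ∑ s : F, ∑ t : F, ψ (s * (x 0 ^ 2 + x 1 ^ 2 + x 2 ^ 2 - x 3 ^ 2)) *
        ψ (t * (x 0 ^ 3 + x 1 ^ 3 + x 2 ^ 3 - x 4 ^ 3)) := by
    simp only [orth hψ]
    rw [← Finset.sum_filter, Finset.sum_const, nsmul_eq_mul, mul_comm]
    congr 2
    unfold H
    congr 1
    ext x
    simp only [Finset.mem_filter, Finset.mem_univ, true_and, sub_eq_zero]
  rw [h1, Finset.sum_comm]
  refine Finset.sum_congr rfl fun s _ => ?_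
  rw [Finset.sum_comm]
  refine Finset.sum_congr rfl fun t _ => ?_
  have h2 : ES ψ s t ^ 3 * (conj (ES ψ s 0) * conj (ES ψ 0 t)) =
      ∏ i : Fin 5, ∑ y : F, (![fun y => ψ (s * y ^ 2 + t * y ^ 3), fun y => ψ (s * y ^ 2 + t * y ^ 3),
        fun y => ψ (s * y ^ 2 + t * y ^ 3), fun y => ψ (-(s * y ^ 2)), fun y => ψ (-(t * y ^ 3))] :
          Fin 5 → F → ℂ) i y := by
    rw [Fin.prod_univ_five]
    unfold ES
    simp only [map_sum, ← AddChar.map_neg_eq_conj]
    simp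
    ring
  rw [h2, Finset.prod_univ_sum, Fintype.piFinset_univ]
  refine Finset.sum_congr rfl fun x _ => ?_
  rw [Fin.prod_univ_five]
  simp only [Matrix.cons_val_zero, Matrix.cons_val_one, Matrix.cons_val]
  simp only [← AddChar.map_add_eq_mul]
  congr 1
  ring

theorem task_lower : TaskLower := by
  intro hSup
  refine ⟨746496, fun F _ _ _ h2 h3 hq => ?_⟩
  obtain ⟨ψ, hψ⟩ := exists_prim (F := F)
  obtain ⟨hs1, hs2⟩ := hSup F h2 h3 ψ hψ
  set q : ℝ := (Fintype.card F : ℝ) with hqdef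
  have hq' : (746496 : ℝ) ≤ q := by
    rw [hqdef]; exact_mod_cast hq
  have hq0 : 0 < q := by linarith
  -- sup bound
  have hsup : ∀ s t : F, ¬ (s = 0 ∧ t = 0) → ‖ES ψ s t‖ ≤ q / 12 := by
    intro s t hst
    have h4 : ‖ES ψ s t‖ ^ 4 ≤ (q / 12) ^ 4 := by
      refine (hs2 s t hst).trans ?_
      have : (36 : ℝ) * q ^ 3 ≤ q * (q ^ 3 / 20736) := by
        have h5 : (36 : ℝ) ≤ q / 20736 := by
          rw [le_div_iff₀ (by norm_num)]; linarith
        calc (36 : ℝ) * q ^ 3 ≤ (q / 20736) * q ^ 3 :=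
              mul_le_mul_of_nonneg_right h5 (by positivity)
          _ = _ := by ring
      refine this.trans (le_of_eq ?_)
      ring
    exact le_of_pow_le_pow_left₀ (by norm_num) (by positivity) h4
  -- second moments
  have hA : ∑ s : F, ‖ES ψ s 0‖ ^ 2 ≤ 2 * q ^ 2 := by
    have := second hψ (fun x => x ^ 2) 2 (fib 2 (by norm_num))
    simpa [ES] using this
  have hB : ∑ t : F, ‖ES ψ 0 t‖ ^ 2 ≤ 3 * q ^ 2 := by
    have := second hψ (fun x => x ^ 3) 3 (fib 3 (by norm_num))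
    simpa [ES] using this
  -- Cauchy-Schwarz
  set U : ℝ := ∑ p : F × F, ‖ES ψ p.1 p.2‖ ^ 2 * (‖ES ψ p.1 0‖ * ‖ES ψ 0 p.2‖) with hU
  have hU0 : 0 ≤ U := Finset.sum_nonneg fun p _ => by positivity
  have hU2 : U ^ 2 ≤ (6 * q ^ 4) ^ 2 := by
    have h5 := Finset.sum_mul_sq_le_sq_mul_sq (univ : Finset (F × F))
      (fun p => ‖ES ψ p.1 p.2‖ ^ 2) (fun p => ‖ES ψ p.1 0‖ * ‖ES ψ 0 p.2‖)
    refine h5.trans ?_
    have h6 : ∑ p : F × F, (‖ES ψ p.1 p.2‖ ^ 2) ^ 2 ≤ 6 * q ^ 4 := by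
      rw [Fintype.sum_prod_type]
      refine le_trans (le_of_eq ?_) hs1
      refine Finset.sum_congr rfl fun s _ => Finset.sum_congr rfl fun t _ => ?_
      ring
    have h7 : ∑ p : F × F, (‖ES ψ p.1 0‖ * ‖ES ψ 0 p.2‖) ^ 2 ≤ 6 * q ^ 4 := by
      rw [Fintype.sum_prod_type]
      have : ∑ s : F, ∑ t : F, (‖ES ψ s 0‖ * ‖ES ψ 0 t‖) ^ 2 =
          (∑ s : F, ‖ES ψ s 0‖ ^ 2) * (∑ t : F, ‖ES ψ 0 t‖ ^ 2) := by
        rw [Finset.sum_mul_sum]
        refine Finset.sum_congr rfl fun s _ => Finset.sum_congr rfl fun t _ => ?_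
        ring
      rw [this]
      calc _ ≤ (2 * q ^ 2) * (3 * q ^ 2) :=
            mul_le_mul hA hB (Finset.sum_nonneg fun _ _ => by positivity) (by positivity)
        _ = _ := by ring
    calc _ ≤ (6 * q ^ 4) * (6 * q ^ 4) :=
          mul_le_mul h6 h7 (Finset.sum_nonneg fun _ _ => by positivity) (by positivity)
      _ = _ := by ring
  have hU3 : U ≤ 6 * q ^ 4 := le_of_pow_le_pow_left₀ (by norm_num) (by positivity) hU2
  -- the main computation
  have hc := count hψ (F := F)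
  have hE00 : ES ψ (0 : F) 0 = (q : ℂ) := by
    unfold ES
    simp [hqdef]
  set T : F × F → ℂ := fun p => ES ψ p.1 p.2 ^ 3 * (conj (ES ψ p.1 0) * conj (ES ψ 0 p.2)) with hT
  have hc2 : ((q : ℂ)) ^ 2 * ((H F).card : ℂ) = ∑ p : F × F, T p := by
    rw [Fintype.sum_prod_type, hT]
    simpa [hqdef] using hc
  have hc3 : ∑ p : F × F, T p = T 0 + ∑ p ∈ univ.erase (0 : F × F), T p :=
    (Finset.add_sum_erase _ _ (Finset.mem_univ _)).symm
  have hT0 : T 0 = (q : ℂ) ^ 5 := by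
    rw [hT]
    simp only [Prod.fst_zero, Prod.snd_zero, hE00, Complex.conj_ofReal]
    ring
  have hrest : ‖∑ p ∈ univ.erase (0 : F × F), T p‖ ≤ q ^ 5 / 2 := by
    calc ‖∑ p ∈ univ.erase (0 : F × F), T p‖ ≤ ∑ p ∈ univ.erase (0 : F × F), ‖T p‖ :=
          norm_sum_le _ _
      _ ≤ ∑ p ∈ univ.erase (0 : F × F),
          (q / 12) * (‖ES ψ p.1 p.2‖ ^ 2 * (‖ES ψ p.1 0‖ * ‖ES ψ 0 p.2‖)) := by
          refine Finset.sum_le_sum fun p hp => ?_
          have hp' : ¬ (p.1 = 0 ∧ p.2 = 0) := by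
            rintro ⟨h1, h2⟩
            exact (Finset.mem_erase.1 hp).1 (Prod.ext h1 h2)
          have h8 := hsup p.1 p.2 hp'
          rw [hT]
          simp only [norm_mul, norm_pow, RCLike.norm_conj]
          have : ‖ES ψ p.1 p.2‖ ^ 3 * (‖ES ψ p.1 0‖ * ‖ES ψ 0 p.2‖) =
            ‖ES ψ p.1 p.2‖ * (‖ES ψ p.1 p.2‖ ^ 2 * (‖ES ψ p.1 0‖ * ‖ES ψ 0 p.2‖)) := by ring
          rw [this]
          exact mul_le_mul_of_nonneg_right h8 (by positivity)
      _ ≤ ∑ p : F × F,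
          (q / 12) * (‖ES ψ p.1 p.2‖ ^ 2 * (‖ES ψ p.1 0‖ * ‖ES ψ 0 p.2‖)) :=
          Finset.sum_le_sum_of_subset_of_nonneg (Finset.erase_subset _ _)
            fun p _ _ => by positivity
      _ = (q / 12) * U := by rw [← Finset.mul_sum]
      _ ≤ (q / 12) * (6 * q ^ 4) := mul_le_mul_of_nonneg_left hU3 (by positivity)
      _ = q ^ 5 / 2 := by ring
  have hfin : q ^ 5 / 2 ≤ q ^ 2 * ((H F).card : ℝ) := by
    have h9 : ((q ^ 2 * ((H F).card : ℝ) : ℝ) : ℂ) =
        ((q ^ 5 : ℝ) : ℂ) + ∑ p ∈ univ.erase (0 : F × F), T p := by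
      push_cast
      rw [hc2, hc3, hT0]
    have h10 := congrArg Complex.re h9
    rw [Complex.add_re, Complex.ofReal_re, Complex.ofReal_re] at h10
    have h11 := (abs_le.1 (Complex.abs_re_le_norm (∑ p ∈ univ.erase (0 : F × F), T p))).1
    linarith
  have h12 : q ^ 3 ≤ 2 * ((H F).card : ℝ) := by
    have h13 : q ^ 2 * q ^ 3 ≤ q ^ 2 * (2 * ((H F).card : ℝ)) := by
      calc q ^ 2 * q ^ 3 = 2 * (q ^ 5 / 2) := by ring
        _ ≤ 2 * (q ^ 2 * ((H F).card : ℝ)) := by linarith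
        _ = _ := by ring
    exact le_of_mul_le_mul_left h13 (by positivity)
  rw [hqdef] at h12
  exact_mod_cast h12

end Pool.H654R4.Lower

theorem Pool.H654R4.task_lower : Pool.H654R4.TaskLower := Pool.H654R4.Lower.task_lower
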