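import Pool.Agent.H654R4.Stmts

set_option autoImplicit false
set_option linter.unusedSectionVars false

/-! Task SUP: fourth moment of the exponential sums. -/

open Finset

namespace Pool.H654R4.Sup

open Pool.H654R4 Polynomial

section

variable {F : Type} [Field F] [Fintype F] [DecidableEq F]

lemma card_roots_le (p : F[X]) (hp : p ≠ 0) :
    (univ.filter fun x : F => p.eval x = 0).card ≤ p.natDegree := by
  have h : (univ.filter fun x : F => p.eval x = 0) ⊆ p.roots.toFinset := by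
    intro x hx
    rw [mem_filter] at hx
    rw [Multiset.mem_toFinset, mem_roots hp]
    exact hx.2
  exact (card_le_card h).trans ((Multiset.toFinset_card_le _).trans (card_roots' p))

lemma card_cubic (a b : F) : (univ.filter fun x : F => x ^ 3 + a * x + b = 0).card ≤ 3 := by
  have hd : (X ^ 3 + (C a * X + C b) : F[X]).natDegree = 3 := by compute_degree!
  have hp : (X ^ 3 + (C a * X + C b) : F[X]) ≠ 0 := by
    intro h
    rw [h, natDegree_zero] at hd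
    omega
  have h := card_roots_le _ hp
  rw [hd] at h
  refine le_trans (le_of_eq ?_) h
  congr 1
  ext x
  simp [add_assoc]

lemma card_quad (a b : F) : (univ.filter fun x : F => x ^ 2 + a * x + b = 0).card ≤ 2 := by
  have hd : (X ^ 2 + (C a * X + C b) : F[X]).natDegree = 2 := by compute_degree!
  have hp : (X ^ 2 + (C a * X + C b) : F[X]) ≠ 0 := by
    intro h
    rw [h, natDegree_zero] at hd
    omega
  have h := card_roots_le _ hp
  rw [hd] at h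
  refine le_trans (le_of_eq ?_) h
  congr 1
  ext x
  simp [add_assoc]

/-- the number of `(y1, y2)` with given sums of squares and of cubes -/
lemma card_sol (h2 : (2 : F) ≠ 0) (u v : F) :
    (univ.filter fun y : F × F => y.1 ^ 2 + y.2 ^ 2 = u ∧ y.1 ^ 3 + y.2 ^ 3 = v).card ≤ 6 := by
  have h := card_le_mul_card_image_of_maps_to
    (s := univ.filter fun y : F × F => y.1 ^ 2 + y.2 ^ 2 = u ∧ y.1 ^ 3 + y.2 ^ 3 = v)
    (t := univ.filter fun e : F => e ^ 3 + (-(3 * u)) * e + 2 * v = 0)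
    (f := fun y => y.1 + y.2) (by
      intro y hy
      rw [mem_filter] at hy ⊢
      refine ⟨mem_univ _, ?_⟩
      obtain ⟨-, rfl, rfl⟩ := hy
      ring) 2 (by
      intro e he
      have hinj : Set.InjOn (fun y : F × F => y.1)
          ((univ.filter fun y : F × F => y.1 ^ 2 + y.2 ^ 2 = u ∧ y.1 ^ 3 + y.2 ^ 3 = v).filter
            (fun y => y.1 + y.2 = e) : Finset (F × F)) := by
        intro y hy z hz hyz
        rw [mem_coe, mem_filter] at hy hz
        have h1 := hy.2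
        have h2 := hz.2
        simp only at hyz
        refine Prod.ext hyz ?_
        rw [← h2, hyz] at h1
        exact add_left_cancel h1
      rw [← card_image_of_injOn hinj]
      refine (card_le_card ?_).trans (card_quad (-e) ((e ^ 2 - u) / 2))
      intro w hw
      rw [mem_image] at hw
      obtain ⟨y, hy, rfl⟩ := hw
      rw [mem_filter, mem_filter] at hy
      obtain ⟨⟨-, h3, -⟩, h4⟩ := hy
      rw [mem_filter]
      refine ⟨mem_univ _, ?_⟩
      subst h4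
      rw [← h3]
      field_simp
      ring)
  have h' := card_cubic (-(3 * u)) (2 * v)
  omega

lemma card_cube (c : F) : (univ.filter fun x : F => x ^ 3 = c).card ≤ 3 := by
  refine le_trans (le_of_eq ?_) (card_cubic (0 : F) (-c))
  congr 1
  ext x
  simp only [mem_filter, mem_univ, true_and, zero_mul, add_zero]
  rw [← sub_eq_add_neg, sub_eq_zero]

lemma card_sq (c : F) : (univ.filter fun x : F => x ^ 2 = c).card ≤ 3 := by
  refine le_trans (le_trans (le_of_eq ?_) (card_quad (0 : F) (-c))) (by norm_num)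
  congr 1
  ext x
  simp only [mem_filter, mem_univ, true_and, zero_mul, add_zero]
  rw [← sub_eq_add_neg, sub_eq_zero]

lemma ES_sq (ψ : AddChar F ℂ) (s t : F) : ES ψ s t ^ 2 =
    ∑ x : F × F, ψ (s * (x.1 ^ 2 + x.2 ^ 2) + t * (x.1 ^ 3 + x.2 ^ 3)) := by
  rw [sq, ES, sum_mul_sum, ← Fintype.sum_prod_type']
  refine sum_congr rfl fun x _ => ?_
  rw [← AddChar.map_add_eq_mul]
  congr 1
  ring

lemma norm_four (ψ : AddChar F ℂ) (s t : F) : ((‖ES ψ s t‖ ^ 4 : ℝ) : ℂ) =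
    ∑ x : F × F, ∑ y : F × F, ψ (s * ((x.1 ^ 2 + x.2 ^ 2) - (y.1 ^ 2 + y.2 ^ 2))) *
      ψ (t * ((x.1 ^ 3 + x.2 ^ 3) - (y.1 ^ 3 + y.2 ^ 3))) := by
  have h1 : ((‖ES ψ s t‖ ^ 4 : ℝ) : ℂ) = ES ψ s t ^ 2 * (starRingEnd ℂ) (ES ψ s t ^ 2) := by
    rw [Complex.mul_conj, Complex.normSq_eq_norm_sq, norm_pow]
    congr 1
    ring
  rw [h1, ES_sq, map_sum, sum_mul_sum]
  refine sum_congr rfl fun x _ => sum_congr rfl fun y _ => ?_
  rw [← AddChar.map_neg_eq_conj, ← AddChar.map_add_eq_mul, ← AddChar.map_add_eq_mul]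
  congr 1
  ring

lemma moment (ψ : AddChar F ℂ) (hψ : ψ.IsPrimitive) :
    ∑ s : F, ∑ t : F, ‖ES ψ s t‖ ^ 4 = (Fintype.card F : ℝ) ^ 2 *
      ∑ x : F × F, ((univ.filter fun y : F × F => y.1 ^ 2 + y.2 ^ 2 = x.1 ^ 2 + x.2 ^ 2 ∧
        y.1 ^ 3 + y.2 ^ 3 = x.1 ^ 3 + x.2 ^ 3).card : ℝ) := by
  have h : (((∑ s : F, ∑ t : F, ‖ES ψ s t‖ ^ 4 : ℝ)) : ℂ) = (Fintype.card F : ℂ) ^ 2 *
      ∑ x : F × F, ((univ.filter fun y : F × F => y.1 ^ 2 + y.2 ^ 2 = x.1 ^ 2 + x.2 ^ 2 ∧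
        y.1 ^ 3 + y.2 ^ 3 = x.1 ^ 3 + x.2 ^ 3).card : ℂ) := by
    rw [Complex.ofReal_sum]
    simp only [Complex.ofReal_sum, norm_four]
    have e1 : ∑ s : F, ∑ t : F, ∑ x : F × F, ∑ y : F × F,
        ψ (s * ((x.1 ^ 2 + x.2 ^ 2) - (y.1 ^ 2 + y.2 ^ 2))) *
          ψ (t * ((x.1 ^ 3 + x.2 ^ 3) - (y.1 ^ 3 + y.2 ^ 3))) =
        ∑ x : F × F, ∑ y : F × F,
          (∑ s : F, ψ (s * ((x.1 ^ 2 + x.2 ^ 2) - (y.1 ^ 2 + y.2 ^ 2)))) *
          (∑ t : F, ψ (t * ((x.1 ^ 3 + x.2 ^ 3) - (y.1 ^ 3 + y.2 ^ 3)))) := by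
      calc _ = ∑ s : F, ∑ x : F × F, ∑ t : F, ∑ y : F × F,
            ψ (s * ((x.1 ^ 2 + x.2 ^ 2) - (y.1 ^ 2 + y.2 ^ 2))) *
              ψ (t * ((x.1 ^ 3 + x.2 ^ 3) - (y.1 ^ 3 + y.2 ^ 3))) :=
            sum_congr rfl fun s _ => sum_comm
        _ = ∑ x : F × F, ∑ s : F, ∑ t : F, ∑ y : F × F,
            ψ (s * ((x.1 ^ 2 + x.2 ^ 2) - (y.1 ^ 2 + y.2 ^ 2))) *
              ψ (t * ((x.1 ^ 3 + x.2 ^ 3) - (y.1 ^ 3 + y.2 ^ 3))) := sum_comm
        _ = ∑ x : F × F, ∑ s : F, ∑ y : F × F, ∑ t : F,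
            ψ (s * ((x.1 ^ 2 + x.2 ^ 2) - (y.1 ^ 2 + y.2 ^ 2))) *
              ψ (t * ((x.1 ^ 3 + x.2 ^ 3) - (y.1 ^ 3 + y.2 ^ 3))) :=
            sum_congr rfl fun x _ => sum_congr rfl fun s _ => sum_comm
        _ = ∑ x : F × F, ∑ y : F × F, ∑ s : F, ∑ t : F,
            ψ (s * ((x.1 ^ 2 + x.2 ^ 2) - (y.1 ^ 2 + y.2 ^ 2))) *
              ψ (t * ((x.1 ^ 3 + x.2 ^ 3) - (y.1 ^ 3 + y.2 ^ 3))) :=
            sum_congr rfl fun x _ => sum_comm
        _ = _ := by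
            refine sum_congr rfl fun x _ => sum_congr rfl fun y _ => ?_
            rw [sum_mul_sum]
    rw [e1, mul_sum]
    refine sum_congr rfl fun x _ => ?_
    rw [card_filter, Nat.cast_sum, mul_sum]
    refine sum_congr rfl fun y _ => ?_
    rw [AddChar.sum_mulShift _ hψ, AddChar.sum_mulShift _ hψ]
    by_cases h1 : y.1 ^ 2 + y.2 ^ 2 = x.1 ^ 2 + x.2 ^ 2
    · by_cases h2 : y.1 ^ 3 + y.2 ^ 3 = x.1 ^ 3 + x.2 ^ 3
      · rw [if_pos (sub_eq_zero.2 h1.symm), if_pos (sub_eq_zero.2 h2.symm), if_pos ⟨h1, h2⟩]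
        push_cast
        ring
      · have hh : ¬ (y.1 ^ 2 + y.2 ^ 2 = x.1 ^ 2 + x.2 ^ 2 ∧
            y.1 ^ 3 + y.2 ^ 3 = x.1 ^ 3 + x.2 ^ 3) := fun h => h2 h.2
        have h3 : ¬ ((x.1 ^ 3 + x.2 ^ 3) - (y.1 ^ 3 + y.2 ^ 3) = 0) :=
          fun h => h2 (sub_eq_zero.1 h).symm
        rw [if_neg h3, if_neg hh]
        simp
    · have hh : ¬ (y.1 ^ 2 + y.2 ^ 2 = x.1 ^ 2 + x.2 ^ 2 ∧
          y.1 ^ 3 + y.2 ^ 3 = x.1 ^ 3 + x.2 ^ 3) := fun h => h1 h.1
      have h3 : ¬ ((x.1 ^ 2 + x.2 ^ 2) - (y.1 ^ 2 + y.2 ^ 2) = 0) :=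
        fun h => h1 (sub_eq_zero.1 h).symm
      rw [if_neg h3, if_neg hh]
      simp
  exact_mod_cast h

lemma scale (ψ : AddChar F ℂ) (s t l : F) (hl : l ≠ 0) :
    ES ψ (l ^ 2 * s) (l ^ 3 * t) = ES ψ s t := by
  unfold ES
  refine Fintype.sum_bijective (fun x => l * x) (mulLeft_bijective₀ l hl) _ _ fun x => ?_
  congr 1
  ring

end

theorem task_sup : Pool.H654R4.TaskSup := by
  intro F _ _ _ h2 h3 ψ hψ
  have hq : (1 : ℝ) < Fintype.card F := by exact_mod_cast Fintype.one_lt_card (α := F)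
  have hA : ∑ s : F, ∑ t : F, ‖ES ψ s t‖ ^ 4 ≤ 6 * (Fintype.card F : ℝ) ^ 4 := by
    rw [moment ψ hψ]
    have h : ∑ x : F × F, ((univ.filter fun y : F × F => y.1 ^ 2 + y.2 ^ 2 = x.1 ^ 2 + x.2 ^ 2 ∧
        y.1 ^ 3 + y.2 ^ 3 = x.1 ^ 3 + x.2 ^ 3).card : ℝ) ≤ ∑ _x : F × F, (6 : ℝ) :=
      sum_le_sum fun x _ => by exact_mod_cast card_sol h2 _ _
    rw [sum_const, card_univ, Fintype.card_prod, nsmul_eq_mul] at h
    push_cast at h
    calc (Fintype.card F : ℝ) ^ 2 * _ ≤ (Fintype.card F : ℝ) ^ 2 *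
          ((Fintype.card F : ℝ) * Fintype.card F * 6) :=
          mul_le_mul_of_nonneg_left h (by positivity)
      _ = _ := by ring
  refine ⟨hA, fun s t hst => ?_⟩
  let g : F × F → ℝ := fun w => ‖ES ψ w.1 w.2‖ ^ 4
  have hg : ∀ w, 0 ≤ g w := fun w => by positivity
  let hmap : F → F × F := fun l => (l ^ 2 * s, l ^ 3 * t)
  have h1 : ∑ l ∈ univ.erase (0 : F), g (hmap l) =
      ((Fintype.card F : ℝ) - 1) * ‖ES ψ s t‖ ^ 4 := by
    have : ∀ l ∈ univ.erase (0 : F), g (hmap l) = ‖ES ψ s t‖ ^ 4 := by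
      intro l hl
      show ‖ES ψ (l ^ 2 * s) (l ^ 3 * t)‖ ^ 4 = _
      rw [scale ψ s t l (ne_of_mem_erase hl)]
    rw [sum_congr rfl this, sum_const, card_erase_of_mem (mem_univ _), card_univ, nsmul_eq_mul,
      Nat.cast_sub Fintype.card_pos]
    push_cast
    ring
  have h4 : ∑ l ∈ univ.erase (0 : F), g (hmap l) ≤ 3 * ∑ w : F × F, g w := by
    rw [sum_comp g hmap, mul_sum]
    refine (sum_le_sum (g := fun w => 3 * g w) fun w _ => ?_).trans
      (sum_le_sum_of_subset_of_nonneg (subset_univ _) fun w _ _ => by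
        have := hg w
        positivity)
    rw [nsmul_eq_mul]
    refine mul_le_mul_of_nonneg_right ?_ (hg w)
    have hc : ((univ.erase (0 : F)).filter fun l => hmap l = w).card ≤ 3 := by
      by_cases ht : t = 0
      · have hs : s ≠ 0 := fun h => hst ⟨h, ht⟩
        refine (card_le_card ?_).trans (card_sq (w.1 / s))
        intro l hl
        rw [mem_filter] at hl
        rw [mem_filter]
        refine ⟨mem_univ _, ?_⟩
        rw [eq_div_iff hs]
        exact congrArg Prod.fst hl.2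
      · refine (card_le_card ?_).trans (card_cube (w.2 / t))
        intro l hl
        rw [mem_filter] at hl
        rw [mem_filter]
        refine ⟨mem_univ _, ?_⟩
        rw [eq_div_iff ht]
        exact congrArg Prod.snd hl.2
    exact_mod_cast hc
  have h5 : ∑ w : F × F, g w = ∑ s : F, ∑ t : F, ‖ES ψ s t‖ ^ 4 := Fintype.sum_prod_type _
  rw [h1, h5] at h4
  have h6 : ((Fintype.card F : ℝ) - 1) * ‖ES ψ s t‖ ^ 4 ≤ 18 * (Fintype.card F : ℝ) ^ 4 := by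
    linarith
  have hq2 : (2 : ℝ) ≤ Fintype.card F := by
    exact_mod_cast Fintype.one_lt_card (α := F)
  have h7 : 0 ≤ ‖ES ψ s t‖ ^ 4 := by positivity
  have h8 : (Fintype.card F : ℝ) * ‖ES ψ s t‖ ^ 4 ≤
      (Fintype.card F : ℝ) * (36 * (Fintype.card F : ℝ) ^ 3) := by
    nlinarith
  exact le_of_mul_le_mul_left h8 (by linarith)

end Pool.H654R4.Sup
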