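import Pool.Agent.H654R4.Stmts

set_option autoImplicit false

/-! `TaskVert`: vertical differences (unconditional, `K = 12`). -/

open Finset

namespace Pool.H654R4

namespace Vert

variable {F : Type} [Field F] [Fintype F] [DecidableEq F]

theorem card_pow (n : ℕ) (hn : 0 < n) (d : F) :
    (Finset.univ.filter (fun y : F => y ^ n = d)).card ≤ n := by
  refine le_trans (Finset.card_le_card (t := (Polynomial.nthRoots n d).toFinset) ?_)
    ((Multiset.toFinset_card_le _).trans (Polynomial.card_nthRoots n d))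
  intro y hy
  rw [Multiset.mem_toFinset, Polynomial.mem_nthRoots hn]
  exact (Finset.mem_filter.1 hy).2

theorem card_R4 (h2 : (2 : F) ≠ 0) (h3 : (3 : F) ≠ 0) (w : F) (hw : w ≠ 0) :
    (Finset.univ.filter (fun c : F => c ^ 3 = (c - w) ^ 3)).card ≤ 2 := by
  refine le_trans (Finset.card_le_card_of_injOn (t := Finset.univ.filter
    (fun y : F => y ^ 2 = -w ^ 2 / 3)) (fun c => 2 * c - w) ?_ ?_) (card_pow 2 (by norm_num) _)
  · intro c hc
    have h := (Finset.mem_filter.1 (Finset.mem_coe.1 hc)).2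
    have h4 : w * (3 * c ^ 2 - 3 * c * w + w ^ 2) = 0 := by linear_combination h
    have h5 := (mul_eq_zero.1 h4).resolve_left hw
    simp only [Finset.coe_filter, Finset.mem_univ, true_and]
    show (2 * c - w) ^ 2 = -w ^ 2 / 3
    rw [eq_div_iff h3]
    linear_combination 4 * h5
  · intro c _ c' _ h
    have h' : 2 * c - w = 2 * c' - w := h
    have h4 : 2 * c = 2 * c' := by linear_combination h'
    exact mul_left_cancel₀ h2 h4

end Vert

open Vert in
theorem vert_bound (F : Type) [Field F] [Fintype F] [DecidableEq F]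
    (h2 : (2 : F) ≠ 0) (h3 : (3 : F) ≠ 0) (z : Fin 5 → F)
    (z0 : z 0 = 0) (z1 : z 1 = 0) (z2 : z 2 = 0) (z4 : z 4 ≠ 0) :
    N z ≤ 12 * Fintype.card F ^ 2 := by
  unfold N
  have hsub : (H F).filter (fun x => x - z ∈ H F) ⊆
      ((Finset.univ : Finset (F × F)) ×ˢ
        (Finset.univ.filter (fun c : F => c ^ 3 = (c - z 4) ^ 3))).biUnion
        (fun p => (Finset.univ.filter (fun y : F => y ^ 3 = p.2 ^ 3 - p.1.1 ^ 3 - p.1.2 ^ 3)).biUnion
          (fun y => (Finset.univ.filter (fun v : F => v ^ 2 = p.1.1 ^ 2 + p.1.2 ^ 2 + y ^ 2)).image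
            (fun v => (![p.1.1, p.1.2, y, v, p.2] : Fin 5 → F)))) := by
    intro x hx
    rw [Finset.mem_filter] at hx
    obtain ⟨hx1, hx2⟩ := hx
    unfold H at hx1 hx2
    rw [Finset.mem_filter] at hx1 hx2
    obtain ⟨-, a1, a2⟩ := hx1
    obtain ⟨-, -, b2⟩ := hx2
    simp only [Pi.sub_apply, z0, z1, z2, sub_zero] at b2
    rw [Finset.mem_biUnion]
    refine ⟨((x 0, x 1), x 4), ?_, ?_⟩
    · rw [Finset.mem_product]
      refine ⟨Finset.mem_univ _, ?_⟩
      rw [Finset.mem_filter]
      exact ⟨Finset.mem_univ _, a2.symm.trans b2⟩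
    · rw [Finset.mem_biUnion]
      refine ⟨x 2, ?_, ?_⟩
      · rw [Finset.mem_filter]
        refine ⟨Finset.mem_univ _, ?_⟩
        show x 2 ^ 3 = x 4 ^ 3 - x 0 ^ 3 - x 1 ^ 3
        linear_combination a2
      · rw [Finset.mem_image]
        refine ⟨x 3, ?_, ?_⟩
        · rw [Finset.mem_filter]
          exact ⟨Finset.mem_univ _, a1.symm⟩
        · funext j
          fin_cases j <;> rfl
  refine (Finset.card_le_card hsub).trans ?_
  refine (Finset.card_biUnion_le_card_mul _ _ 6 ?_).trans ?_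
  · intro p _
    refine (Finset.card_biUnion_le_card_mul _ _ 2 ?_).trans ?_
    · intro y _
      exact Finset.card_image_le.trans (card_pow 2 (by norm_num) _)
    · have := card_pow (F := F) 3 (by norm_num) (p.2 ^ 3 - p.1.1 ^ 3 - p.1.2 ^ 3)
      omega
  · rw [Finset.card_product, Finset.card_univ, Fintype.card_prod]
    have := card_R4 h2 h3 (z 4) z4
    calc Fintype.card F * Fintype.card F *
        (Finset.univ.filter (fun c : F => c ^ 3 = (c - z 4) ^ 3)).card * 6
        ≤ Fintype.card F * Fintype.card F * 2 * 6 := by gcongr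
      _ = 12 * Fintype.card F ^ 2 := by ring

theorem task_Vert : TaskVert := by
  intro _ _
  refine ⟨12, ?_⟩
  intro F _ _ _ h2 h3 i _ z z0 z1 z2 _ z4
  exact vert_bound F h2 h3 z z0 z1 z2 z4

end Pool.H654R4
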