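import Pool.Agent.H654R4.Final
import Pool.Agent.H654R4.Harm3Own
import Pool.Agent.H654R4.T_Aniso1
import Pool.Agent.H654R4.T_Aniso2
import Pool.Agent.H654R4.T_Binary
import Pool.Agent.H654R4.T_Dir
import Pool.Agent.H654R4.T_Harm1
import Pool.Agent.H654R4.T_Harm2
import Pool.Agent.H654R4.T_Iso
import Pool.Agent.H654R4.T_Lower
import Pool.Agent.H654R4.T_Sup
import Pool.Agent.H654R4.T_Vert

set_option autoImplicit false

namespace Pool.H654R4

theorem almost (hH3 : TaskHarm3) :
    AveragingBound 5 3 (ENNReal.ofReal (10 / 7)) (ENNReal.ofReal (10 / 3)) :=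
  averaging_of_norm (norm_bound task_cover task_neverCube task_Binary task_iso task_dir
    task_aniso1 task_Aniso2 task_exc task_Vert Sup.task_sup task_lower task_harm1 task_Harm2 hH3)

theorem final :
    AveragingBound 5 3 (ENNReal.ofReal (10 / 7)) (ENNReal.ofReal (10 / 3)) :=
  almost own_harm3

end Pool.H654R4
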