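import Pool.Agent.H654R4.Stmts

set_option autoImplicit false

open Finset

namespace Pool.H654R4

theorem card_root_le {F : Type} [Field F] [Fintype F] [DecidableEq F] (n : ℕ) (hn : 0 < n) (c : F) :
    (Finset.univ.filter (fun y : F => y ^ n = c)).card ≤ n := by
  classical
  calc (Finset.univ.filter (fun y : F => y ^ n = c)).card
      ≤ (Polynomial.nthRoots n c).toFinset.card := by
        apply Finset.card_le_card
        intro y hy
        simp only [Finset.mem_filter, Finset.mem_univ, true_and] at hy
        simp [Polynomial.mem_nthRoots hn, hy]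
    _ ≤ Multiset.card (Polynomial.nthRoots n c) := Multiset.toFinset_card_le _
    _ ≤ n := Polynomial.card_nthRoots n c

theorem S_le {F : Type} [Field F] [Fintype F] [DecidableEq F] (i : F) (z : Fin 5 → F) :
    S i z ≤ 3 * Fintype.card F ^ 2 := by
  classical
  unfold S
  have h := Finset.card_le_mul_card_image (s := (Finset.univ.filter (fun s : F × F × F =>
    s.2.2 ^ 3 = pt i 1 s.1 1 s.2.1 ∧ Dz z (phi i s.1 1 s.2.1 s.2.2) = 0)))
    (f := fun s => (s.1, s.2.1)) 3 (by
      intro b _
      calc _ ≤ (Finset.univ.filter (fun y : F => y ^ 3 = pt i 1 b.1 1 b.2)).card := by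
            apply Finset.card_le_card_of_injOn (fun s => s.2.2)
            · intro s hs
              simp only [Finset.coe_filter, Finset.mem_filter, Finset.mem_univ, true_and,
                Set.mem_setOf_eq] at hs ⊢
              obtain ⟨⟨h1, _⟩, h3⟩ := hs
              rw [h1, ← h3]
            · intro s hs s' hs' hss
              simp only [Finset.coe_filter, Finset.mem_filter, Finset.mem_univ, true_and,
                Set.mem_setOf_eq] at hs hs' hss
              have h3 := hs.2
              have h3' := hs'.2
              rw [← h3'] at h3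
              simp only [Prod.mk.injEq] at h3
              ext
              · exact h3.1
              · exact h3.2
              · exact hss
        _ ≤ 3 := card_root_le 3 (by norm_num) _)
  refine h.trans ?_
  have h2 : ((Finset.univ.filter (fun s : F × F × F =>
    s.2.2 ^ 3 = pt i 1 s.1 1 s.2.1 ∧ Dz z (phi i s.1 1 s.2.1 s.2.2) = 0)).image
      (fun s => (s.1, s.2.1))).card ≤ Fintype.card F ^ 2 := by
    refine (Finset.card_le_univ _).trans ?_
    rw [Fintype.card_prod, pow_two]
  exact Nat.mul_le_mul_left 3 h2

theorem H_upper (F : Type) [Field F] [Fintype F] [DecidableEq F] :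
    (H F).card ≤ 6 * Fintype.card F ^ 3 := by
  classical
  have h := Finset.card_le_mul_card_image (s := H F)
    (f := fun s => (s 0, s 1, s 2)) 6 (by
      intro b _
      calc _ ≤ ((Finset.univ.filter (fun y : F => y ^ 2 = b.1 ^ 2 + b.2.1 ^ 2 + b.2.2 ^ 2)) ×ˢ
            (Finset.univ.filter (fun y : F => y ^ 3 = b.1 ^ 3 + b.2.1 ^ 3 + b.2.2 ^ 3))).card := by
            apply Finset.card_le_card_of_injOn (fun s => (s 3, s 4))
            · intro s hs
              simp only [H, Finset.coe_filter, Finset.mem_filter, Finset.mem_univ, true_and,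
                Set.mem_setOf_eq, Finset.coe_product, Set.mem_prod] at hs ⊢
              obtain ⟨⟨h1, h2⟩, h3⟩ := hs
              subst h3
              exact ⟨h1.symm, h2.symm⟩
            · intro s hs s' hs' hss
              simp only [H, Finset.coe_filter, Finset.mem_filter, Finset.mem_univ, true_and,
                Set.mem_setOf_eq] at hs hs' hss
              have h3 := hs.2
              have h3' := hs'.2
              rw [← h3'] at h3
              simp only [Prod.mk.injEq] at h3 hss
              funext j
              fin_cases j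
              · exact h3.1
              · exact h3.2.1
              · exact h3.2.2
              · exact hss.1
              · exact hss.2
        _ ≤ 2 * 3 := by
            rw [Finset.card_product]
            exact Nat.mul_le_mul (card_root_le 2 (by norm_num) _) (card_root_le 3 (by norm_num) _)
        _ = 6 := by norm_num)
  refine h.trans ?_
  have h2 : ((H F).image (fun s => (s 0, s 1, s 2))).card ≤ Fintype.card F ^ 3 := by
    refine (Finset.card_le_univ _).trans ?_
    rw [Fintype.card_prod, Fintype.card_prod]
    apply le_of_eq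
    ring
  exact Nat.mul_le_mul_left 6 h2

/-- exceptional set -/
def Zset (F : Type) [Field F] [Fintype F] [DecidableEq F] : Finset (Fin 5 → F) :=
  (Finset.univ.image (fun w : F => ![0, 0, 0, 0, w])) ∪
  ((Finset.univ.image (fun w : F => ![0, 0, 0, w, 0])) ∪
  ((Finset.univ.image (fun w : F => ![w, -w, 0, 0, 0])) ∪
  ((Finset.univ.image (fun w : F => ![w, 0, -w, 0, 0])) ∪
  (Finset.univ.image (fun w : F => ![0, w, -w, 0, 0])))))

theorem un_le {α : Type} [DecidableEq α] {X Y : Finset α} {a b : ℕ} (hX : X.card ≤ a)
    (hY : Y.card ≤ b) : (X ∪ Y).card ≤ a + b :=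
  (Finset.card_union_le X Y).trans (Nat.add_le_add hX hY)

theorem Zset_card (F : Type) [Field F] [Fintype F] [DecidableEq F] :
    (Zset F).card ≤ 5 * Fintype.card F := by
  classical
  unfold Zset
  have h : ∀ g : F → (Fin 5 → F), (Finset.univ.image g).card ≤ Fintype.card F := fun g =>
    Finset.card_image_le.trans (le_of_eq (Finset.card_univ))
  refine (un_le (h _) (un_le (h _) (un_le (h _) (un_le (h _) (h _))))).trans ?_
  omega

/-- the counting bounds -/
theorem N_bounds (hCover : TaskCover) (hNC : TaskNeverCube) (hBin : TaskBinary) (hIso : TaskIso)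
    (hDir : TaskDir) (hA1 : TaskAniso1) (hA2 : TaskAniso2) (hExc : TaskExc) (hVert : TaskVert) :
    ∃ K : ℕ, ∀ (F : Type) [Field F] [Fintype F] [DecidableEq F],
      (2 : F) ≠ 0 → (3 : F) ≠ 0 → ∀ i : F, i ^ 2 = -1 →
      (∀ z : Fin 5 → F, z ≠ 0 → N z ≤ K * Fintype.card F ^ 2) ∧
      (∀ z : Fin 5 → F, z ≠ 0 → z ∉ Zset F → N z ≤ K * Fintype.card F) := by
  obtain ⟨K1, hK1⟩ := hIso hBin hNC
  obtain ⟨K2, hK2⟩ := hA1
  obtain ⟨K3, hK3⟩ := hA2
  obtain ⟨K4, hK4⟩ := hVert hCover hNC
  refine ⟨K1 + K2 + K3 + K4 + 9, ?_⟩
  intro F _ _ _ h2 h3 i hi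
  set q := Fintype.card F with hq
  have hq1 : 1 ≤ q := Fintype.card_pos
  have hqq : q ≤ q ^ 2 := by nlinarith
  -- combined statement
  have key : ∀ z : Fin 5 → F, z ≠ 0 →
      (N z ≤ (K1 + K2 + K3 + K4 + 9) * q) ∨ (z ∈ Zset F ∧ N z ≤ (K1 + K2 + K3 + K4 + 9) * q ^ 2) := by
    intro z hz
    by_cases hh : h1 z = 0
    · by_cases hz' : z 0 = 0 ∧ z 1 = 0 ∧ z 2 = 0 ∧ z 3 = 0
      · right
        have hz4 : z 4 ≠ 0 := by
          intro h4
          apply hz
          funext j
          fin_cases j
          · exact hz'.1
          · exact hz'.2.1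
          · exact hz'.2.2.1
          · exact hz'.2.2.2
          · exact h4
        refine ⟨?_, ?_⟩
        · unfold Zset
          rw [Finset.mem_union]
          left
          rw [Finset.mem_image]
          refine ⟨z 4, Finset.mem_univ _, ?_⟩
          funext j
          fin_cases j
          · exact hz'.1.symm
          · exact hz'.2.1.symm
          · exact hz'.2.2.1.symm
          · exact hz'.2.2.2.symm
          · rfl
        · have := hK4 F h2 h3 i hi z hz'.1 hz'.2.1 hz'.2.2.1 hz'.2.2.2 hz4
          refine this.trans ?_
          apply Nat.mul_le_mul_right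
          omega
      · left
        have := hK1 F h2 h3 i hi z hh hz'
        refine this.trans ?_
        apply Nat.mul_le_mul_right
        omega
    · have hd := hDir hCover F h2 h3 i hi z hh
      by_cases h4 : z 4 = 0
      · by_cases he : Exc z
        · right
          have hcl := hExc F h2 h3 z hh h4 he
          refine ⟨?_, ?_⟩
          · unfold Zset
            rw [Finset.mem_union, Finset.mem_union, Finset.mem_union, Finset.mem_union]
            right
            rcases hcl with ⟨a, b, c⟩ | ⟨a, b, c⟩ | ⟨a, b, c⟩ | ⟨a, b, c⟩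
            · left
              rw [Finset.mem_image]
              refine ⟨z 3, Finset.mem_univ _, ?_⟩
              funext j
              fin_cases j
              · exact a.symm
              · exact b.symm
              · exact c.symm
              · rfl
              · exact h4.symm
            · right; left
              rw [Finset.mem_image]
              refine ⟨z 0, Finset.mem_univ _, ?_⟩
              funext j
              fin_cases j
              · rfl
              · exact a.symm
              · exact b.symm
              · exact c.symm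
              · exact h4.symm
            · right; right; left
              rw [Finset.mem_image]
              refine ⟨z 0, Finset.mem_univ _, ?_⟩
              funext j
              fin_cases j
              · rfl
              · exact b.symm
              · exact a.symm
              · exact c.symm
              · exact h4.symm
            · right; right; right
              rw [Finset.mem_image]
              refine ⟨z 1, Finset.mem_univ _, ?_⟩
              funext j
              fin_cases j
              · exact b.symm
              · rfl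
              · exact a.symm
              · exact c.symm
              · exact h4.symm
          · have hs := S_le i z
            rw [← hq] at hs
            calc N z ≤ S i z + 6 * q := hd
              _ ≤ 3 * q ^ 2 + 6 * q ^ 2 := by omega
              _ ≤ (K1 + K2 + K3 + K4 + 9) * q ^ 2 := by
                have : (K1 + K2 + K3 + K4 + 9) * q ^ 2 = (K1 + K2 + K3 + K4) * q ^ 2 + 9 * q ^ 2 := by ring
                rw [this]
                have : 0 ≤ (K1 + K2 + K3 + K4) * q ^ 2 := Nat.zero_le _
                omega
        · left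
          have hs := hK3 F h2 h3 i hi z hh h4 he
          rw [← hq] at hs
          have : (K1 + K2 + K3 + K4 + 9) * q = (K1 + K2 + K4 + 3) * q + K3 * q + 6 * q := by ring
          rw [this]
          have : 0 ≤ (K1 + K2 + K4 + 3) * q := Nat.zero_le _
          omega
      · left
        have hs := hK2 F h2 h3 i hi z hh h4
        rw [← hq] at hs
        have : (K1 + K2 + K3 + K4 + 9) * q = (K1 + K3 + K4 + 3) * q + K2 * q + 6 * q := by ring
        rw [this]
        have : 0 ≤ (K1 + K3 + K4 + 3) * q := Nat.zero_le _
        omega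
  refine ⟨?_, ?_⟩
  · intro z hz
    rcases key z hz with h | h
    · refine h.trans ?_
      exact Nat.mul_le_mul_left _ hqq
    · exact h.2
  · intro z hz hzZ
    rcases key z hz with h | h
    · exact h
    · exact absurd h.1 hzZ

/-- the norm inequality at `(7/10, 3/10)` -/
theorem norm_bound (hCover : TaskCover) (hNC : TaskNeverCube) (hBin : TaskBinary) (hIso : TaskIso)
    (hDir : TaskDir) (hA1 : TaskAniso1) (hA2 : TaskAniso2) (hExc : TaskExc) (hVert : TaskVert)
    (hSup : TaskSup) (hLow : TaskLower) (hH1 : TaskHarm1) (hH2 : TaskHarm2) (hH3 : TaskHarm3) :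
    ∃ q0 : ℕ, ∃ C : ℝ, ∀ (F : Type) [Field F] [Fintype F] [DecidableEq F],
      (2 : F) ≠ 0 → (3 : F) ≠ 0 → q0 ≤ Fintype.card F → ∀ i : F, i ^ 2 = -1 →
      ∀ f : (Fin 5 → F) → ℂ,
    (Fintype.card F : ℝ) ^ (-(5 : ℝ) * (3 / 10)) *
      ‖(WithLp.toLp (ENNReal.ofReal (10 / 3)) (fun y : (Fin 5 → F) =>
        (((H F).card : ℂ))⁻¹ * ∑ x ∈ H F, f (y - x)) : PiLp (ENNReal.ofReal (10 / 3)) (fun _ : (Fin 5 → F) => ℂ))‖
    ≤ C * ((Fintype.card F : ℝ) ^ (-(5 : ℝ) * (7 / 10)) *
      ‖(WithLp.toLp (ENNReal.ofReal (10 / 7)) f : PiLp (ENNReal.ofReal (10 / 7)) (fun _ : (Fin 5 → F) => ℂ))‖) := by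
  obtain ⟨K, hK⟩ := N_bounds hCover hNC hBin hIso hDir hA1 hA2 hExc hVert
  obtain ⟨q0, hq0⟩ := hLow hSup
  obtain ⟨M, hM⟩ := hH1 (K + 6)
  obtain ⟨C, hC0, hC⟩ := hH2 M
  obtain ⟨C', hC'⟩ := hH3 C hC0
  refine ⟨q0, C', ?_⟩
  intro F _ _ _ h2 h3 hq i hi
  have hq1 : 1 ≤ Fintype.card F := Fintype.card_pos
  have hG : Fintype.card (Fin 5 → F) = Fintype.card F ^ 5 := by simp
  obtain ⟨hN2, hN1⟩ := hK F h2 h3 i hi
  have hinc := hM (Fin 5 → F) (Fintype.card F) (H F) (Zset F) hq1 hG
    ((H_upper F).trans (Nat.mul_le_mul_right _ (by omega)))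
    ((Zset_card F).trans (Nat.mul_le_mul_right _ (by omega)))
    (fun z hz => (hN2 z hz).trans (Nat.mul_le_mul_right _ (by omega)))
    (fun z hz hz' => (hN1 z hz hz').trans (Nat.mul_le_mul_right _ (by omega)))
  have hst := hC (Fin 5 → F) (Fintype.card F) (H F) hq1 hG (hq0 F h2 h3 hq) hinc
  exact hC' (Fin 5 → F) (Fintype.card F) (H F) hq1 hG hst

end Pool.H654R4
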