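import Pool.Agent.H654R4.Stmts

set_option autoImplicit false

open Finset

namespace Pool.H654R4

theorem exc_pair {F : Type} [Field F] (_h2 : (2 : F) ≠ 0) (h3 : (3 : F) ≠ 0) (h m a b : F)
    (hh : h ≠ 0) (ha : a ≠ 0) (hb : b ≠ 0) (hab : a * b * (3 * h * (a + b) - 4 * m) = 0)
    (ea : -3 * h ^ 2 * a + 6 * h * a ^ 3 - 4 * m * a ^ 2 = 0)
    (eb : -3 * h ^ 2 * b + 6 * h * b ^ 3 - 4 * m * b ^ 2 = 0) : b = -a := by
  have hm : 3 * h * (a + b) - 4 * m = 0 := (mul_eq_zero.mp hab).resolve_left (mul_ne_zero ha hb)
  have h3h : 3 * h ≠ 0 := mul_ne_zero h3 hh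
  have e1 : h = a ^ 2 - a * b := by
    have : (3 * h * a) * (a ^ 2 - a * b - h) = 0 := by linear_combination ea - a ^ 2 * hm
    have := (mul_eq_zero.mp this).resolve_left (mul_ne_zero h3h ha)
    linear_combination -this
  have e2 : h = b ^ 2 - a * b := by
    have : (3 * h * b) * (b ^ 2 - a * b - h) = 0 := by linear_combination eb - b ^ 2 * hm
    have := (mul_eq_zero.mp this).resolve_left (mul_ne_zero h3h hb)
    linear_combination -this
  have e3 : (a - b) * (a + b) = 0 := by linear_combination e2 - e1
  rcases mul_eq_zero.mp e3 with h' | h'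
  · exfalso
    apply hh
    have : b = a := by linear_combination -h'
    rw [e1, this]; ring
  · linear_combination h'

theorem task_exc : TaskExc := by
  intro F _ h2' h3' z hh h4 he
  obtain ⟨hj, h01, h02, h12, h30, h31, h32⟩ := he
  have e0 := hj 0
  have e1 := hj 1
  have e2 := hj 2
  have c0 : z (Fin.castLE (by norm_num : 3 ≤ 5) (0 : Fin 3)) = z 0 := rfl
  have c1 : z (Fin.castLE (by norm_num : 3 ≤ 5) (1 : Fin 3)) = z 1 := rfl
  have c2 : z (Fin.castLE (by norm_num : 3 ≤ 5) (2 : Fin 3)) = z 2 := rfl
  rw [c0] at e0
  rw [c1] at e1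
  rw [c2] at e2
  have hhdef : h1 z = z 0 ^ 2 + z 1 ^ 2 + z 2 ^ 2 - z 3 ^ 2 := rfl
  have hmdef : h2 z = z 0 ^ 3 + z 1 ^ 3 + z 2 ^ 3 := by
    unfold h2; rw [h4]; ring
  set a := z 0 with hadef
  set b := z 1 with hbdef
  set c := z 2 with hcdef
  set d := z 3 with hddef
  set h := h1 z with hhd
  set m := h2 z with hmd
  clear hj
  have h3h : 3 * h ≠ 0 := mul_ne_zero h3' hh
  by_cases hd : d = 0
  · rw [hd] at hhdef e0 e1 e2
    have e0' : -3 * h ^ 2 * a + 6 * h * a ^ 3 - 4 * m * a ^ 2 = 0 := by linear_combination e0
    have e1' : -3 * h ^ 2 * b + 6 * h * b ^ 3 - 4 * m * b ^ 2 = 0 := by linear_combination e1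
    have e2' : -3 * h ^ 2 * c + 6 * h * c ^ 3 - 4 * m * c ^ 2 = 0 := by linear_combination e2
    have single : ∀ w : F, h = w ^ 2 → m = w ^ 3 →
        -3 * h ^ 2 * w + 6 * h * w ^ 3 - 4 * m * w ^ 2 = 0 → False := by
      intro w hw hm' hw'
      rw [hw, hm'] at hw'
      have : w ^ 5 = 0 := by linear_combination -hw'
      have hw0 : w = 0 := pow_eq_zero_iff (by norm_num) |>.mp this
      apply hh
      rw [hw, hw0]; ring
    by_cases ha : a = 0
    · by_cases hb : b = 0
      · exfalso
        refine single c ?_ ?_ e2'
        · rw [hhdef, ha, hb]; ring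
        · rw [hmdef, ha, hb]; ring
      · by_cases hc : c = 0
        · exfalso
          refine single b ?_ ?_ e1'
          · rw [hhdef, ha, hc]; ring
          · rw [hmdef, ha, hc]; ring
        · right; right; right
          exact ⟨exc_pair h2' h3' h m b c hh hb hc h12 e1' e2', ha, hd⟩
    · by_cases hb : b = 0
      · by_cases hc : c = 0
        · exfalso
          refine single a ?_ ?_ e0'
          · rw [hhdef, hb, hc]; ring
          · rw [hmdef, hb, hc]; ring
        · right; right; left
          exact ⟨exc_pair h2' h3' h m a c hh ha hc h02 e0' e2', hb, hd⟩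
      · by_cases hc : c = 0
        · right; left
          exact ⟨exc_pair h2' h3' h m a b hh ha hb h01 e0' e1', hc, hd⟩
        · exfalso
          have p1 := exc_pair h2' h3' h m a b hh ha hb h01 e0' e1'
          have p2 := exc_pair h2' h3' h m a c hh ha hc h02 e0' e2'
          have p3 := exc_pair h2' h3' h m b c hh hb hc h12 e1' e2'
          have : 2 * a = 0 := by linear_combination p1 + p2 - p3
          exact (mul_ne_zero h2' ha) this
  · -- d ≠ 0
    have alt : ∀ w : F, d * w * (4 * m - 3 * h * w) = 0 → w = 0 ∨ 4 * m = 3 * h * w := by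
      intro w hw
      rcases mul_eq_zero.mp hw with h' | h'
      · left
        exact (mul_eq_zero.mp h').resolve_left hd
      · right
        linear_combination h'
    -- if some coordinate is zero and some not, contradiction
    have zero_m : m = 0 → a = 0 ∧ b = 0 ∧ c = 0 := by
      intro hm
      refine ⟨?_, ?_, ?_⟩
      · rcases alt a h30 with h' | h'
        · exact h'
        · rw [hm] at h'
          have : 3 * h * a = 0 := by linear_combination -h'
          exact (mul_eq_zero.mp this).resolve_left h3h
      · rcases alt b h31 with h' | h'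
        · exact h'
        · rw [hm] at h'
          have : 3 * h * b = 0 := by linear_combination -h'
          exact (mul_eq_zero.mp this).resolve_left h3h
      · rcases alt c h32 with h' | h'
        · exact h'
        · rw [hm] at h'
          have : 3 * h * c = 0 := by linear_combination -h'
          exact (mul_eq_zero.mp this).resolve_left h3h
    have zm : ∀ w : F, w = 0 → -3 * h ^ 2 * w + 6 * h * w ^ 3 - 4 * m * w ^ 2 = 4 * m * d ^ 2 →
        m = 0 := by
      intro w hw he
      rw [hw] at he
      have : (2 * 2 * d ^ 2) * m = 0 := by linear_combination -he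
      exact (mul_eq_zero.mp this).resolve_left (mul_ne_zero (mul_ne_zero h2' h2') (pow_ne_zero 2 hd))
    rcases alt a h30 with ha | ha
    · exact Or.inl (zero_m (zm a ha e0))
    rcases alt b h31 with hb | hb
    · exact Or.inl (zero_m (zm b hb e1))
    rcases alt c h32 with hc | hc
    · exact Or.inl (zero_m (zm c hc e2))
    by_cases ha0 : a = 0
    · exact Or.inl (zero_m (zm a ha0 e0))
    exfalso
    have hba : b = a := by
      have : (3 * h) * (b - a) = 0 := by linear_combination ha - hb
      have := (mul_eq_zero.mp this).resolve_left h3h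
      linear_combination this
    have hca : c = a := by
      have : (3 * h) * (c - a) = 0 := by linear_combination ha - hc
      have := (mul_eq_zero.mp this).resolve_left h3h
      linear_combination this
    have hm3 : m = 3 * a ^ 3 := by rw [hmdef, hba, hca]; ring
    have hh4 : h = 4 * a ^ 2 := by
      have : (3 * a) * (4 * a ^ 2 - h) = 0 := by
        rw [hm3] at ha
        linear_combination ha
      have := (mul_eq_zero.mp this).resolve_left (mul_ne_zero h3' ha0)
      linear_combination -this
    have hd2 : d ^ 2 = - a ^ 2 := by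
      rw [hh4, hba, hca] at hhdef
      linear_combination hhdef
    rw [hm3, hh4, hd2] at e0
    have : (2 * 2 * 2 * 3) * a ^ 5 = 0 := by linear_combination -e0
    exact (mul_ne_zero (mul_ne_zero (mul_ne_zero (mul_ne_zero h2' h2') h2') h3')
      (pow_ne_zero 5 ha0)) this

end Pool.H654R4
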