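import Pool.Agent.H654R4.Basic
import Pool.Agent.H654R4.Alg
import Pool.Agent.H654R4.ExcT

set_option autoImplicit false

open scoped ENNReal
open Finset

namespace Pool.H654R4

/-- `𝔓(p,r)` of the problem for the variety `H_k ⊂ F^d`, over the fields in which `-1` is a
square and whose characteristic is large. -/
def AveragingBound (d k : ℕ) (p r : ℝ≥0∞) : Prop :=
  ∃ N : ℕ, ∃ C : ℝ,
    ∀ (F : Type) [Field F] [Fintype F] [DecidableEq F], N < ringChar F → IsSquare (-1 : F) →
      ∀ f : (Fin d → F) → ℂ,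
        (Fintype.card F : ℝ) ^ (-(d : ℝ) * (r⁻¹).toReal) *
          ‖(WithLp.toLp r (fun y : Fin d → F =>
              ((((Finset.univ.filter (fun x : Fin d → F =>
                  ∀ i : Fin d, k ≤ i.val →
                    ∑ l ∈ Finset.univ.filter (fun l : Fin d => l.val < k),
                        x l ^ (i.val - k + 2) = x i ^ (i.val - k + 2))).card : ℂ))⁻¹ *
                ∑ x ∈ Finset.univ.filter (fun x : Fin d → F =>
                  ∀ i : Fin d, k ≤ i.val →
                    ∑ l ∈ Finset.univ.filter (fun l : Fin d => l.val < k),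
                        x l ^ (i.val - k + 2) = x i ^ (i.val - k + 2)),
                  f (y - x)))
            : PiLp r (fun _ : Fin d → F => ℂ))‖
        ≤ C * ((Fintype.card F : ℝ) ^ (-(d : ℝ) * (p⁻¹).toReal) *
            ‖(WithLp.toLp p f : PiLp p (fun _ : Fin d → F => ℂ))‖)

/-- the conjectured region of Q2 -/
def hull (d k : ℕ) : Set (ℝ × ℝ) :=
  convexHull ℝ ({((0 : ℝ), (0 : ℝ)), ((0 : ℝ), (1 : ℝ)), ((1 : ℝ), (1 : ℝ)),
    (((d : ℝ) * k - 2 * k + d) / (k * (2 * (d : ℝ) - k - 1)),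
      (((k : ℝ) + 1) * ((d : ℝ) - k)) / (k * (2 * (d : ℝ) - k - 1))),
    (((d : ℝ) * ((k : ℝ) - 1)) / (k * (2 * (d : ℝ) - k - 1)),
      (((d : ℝ) - k) * ((k : ℝ) - 1)) / (k * (2 * (d : ℝ) - k - 1)))} : Set (ℝ × ℝ))

theorem filter_eq_H (F : Type) [Field F] [Fintype F] [DecidableEq F] :
    (Finset.univ.filter (fun x : Fin 5 → F =>
                  ∀ i : Fin 5, 3 ≤ i.val →
                    ∑ l ∈ Finset.univ.filter (fun l : Fin 5 => l.val < 3),
                        x l ^ (i.val - 3 + 2) = x i ^ (i.val - 3 + 2))) = H F := by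
  ext x
  unfold H
  simp only [Finset.mem_filter, Finset.mem_univ, true_and]
  constructor
  · intro h
    have h3 := h 3 (by decide)
    have h4 := h 4 (by decide)
    rw [Finset.sum_filter, Fin.sum_univ_five] at h3 h4
    simp at h3 h4
    exact ⟨h3, h4⟩
  · rintro ⟨h3, h4⟩ i hi
    rw [Finset.sum_filter, Fin.sum_univ_five]
    have hi' : i = 3 ∨ i = 4 := by
      rcases i with ⟨i, hi5⟩
      simp only at hi
      interval_cases i
      · left; rfl
      · right; rfl
    rcases hi' with rfl | rfl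
    · simpa using h3
    · simpa using h4

theorem not_mem_hull : ((7 / 10 : ℝ), (3 / 10 : ℝ)) ∉ hull 5 3 := by
  intro h
  have hsub : hull 5 3 ⊆ {x : ℝ × ℝ | x.1 - x.2 ≤ 1 / 3} := by
    unfold hull
    apply convexHull_min
    · intro x hx
      simp only [Set.mem_insert_iff, Set.mem_singleton_iff] at hx
      rcases hx with rfl | rfl | rfl | rfl | rfl <;> norm_num
    · intro x hx y hy a b ha hb hab
      simp only [Set.mem_setOf_eq] at hx hy ⊢
      show (a * x.1 + b * y.1) - (a * x.2 + b * y.2) ≤ 1 / 3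
      have : a * (x.1 - x.2) + b * (y.1 - y.2) ≤ a * (1 / 3) + b * (1 / 3) :=
        add_le_add (mul_le_mul_of_nonneg_left hx ha) (mul_le_mul_of_nonneg_left hy hb)
      have h2 : a * (1 / 3) + b * (1 / 3) = (1 : ℝ) / 3 := by
        rw [← add_mul, hab, one_mul]
      linarith
  have := hsub h
  simp only [Set.mem_setOf_eq] at this
  norm_num at this

theorem averaging_of_norm
    (hb : ∃ q0 : ℕ, ∃ C : ℝ, ∀ (F : Type) [Field F] [Fintype F] [DecidableEq F],
      (2 : F) ≠ 0 → (3 : F) ≠ 0 → q0 ≤ Fintype.card F → ∀ i : F, i ^ 2 = -1 →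
      ∀ f : (Fin 5 → F) → ℂ,
    (Fintype.card F : ℝ) ^ (-(5 : ℝ) * (3 / 10)) *
      ‖(WithLp.toLp (ENNReal.ofReal (10 / 3)) (fun y : (Fin 5 → F) =>
        (((H F).card : ℂ))⁻¹ * ∑ x ∈ H F, f (y - x)) : PiLp (ENNReal.ofReal (10 / 3)) (fun _ : (Fin 5 → F) => ℂ))‖
    ≤ C * ((Fintype.card F : ℝ) ^ (-(5 : ℝ) * (7 / 10)) *
      ‖(WithLp.toLp (ENNReal.ofReal (10 / 7)) f : PiLp (ENNReal.ofReal (10 / 7)) (fun _ : (Fin 5 → F) => ℂ))‖)) :
    AveragingBound 5 3 (ENNReal.ofReal (10 / 7)) (ENNReal.ofReal (10 / 3)) := by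
  obtain ⟨q0, C, hC⟩ := hb
  refine ⟨q0 + 3, C, ?_⟩
  intro F _ _ _ hN hsq f
  obtain ⟨i, hi⟩ := hsq
  have hp : (ringChar F).Prime := CharP.char_is_prime F (ringChar F)
  have hne : ∀ n : ℕ, 0 < n → n < ringChar F → ((n : ℕ) : F) ≠ 0 := by
    intro n hn0 hn h
    rw [ringChar.spec] at h
    exact absurd (Nat.le_of_dvd hn0 h) (by omega)
  have h2 : (2 : F) ≠ 0 := by
    have := hne 2 (by norm_num) (by omega)
    exact_mod_cast this
  have h3 : (3 : F) ≠ 0 := by
    have := hne 3 (by norm_num) (by omega)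
    exact_mod_cast this
  have hq : q0 ≤ Fintype.card F := by
    have h1 : (ringChar F) ∣ Fintype.card F := by
      rw [← ringChar.spec]
      exact Nat.cast_card_eq_zero F
    have := Nat.le_of_dvd Fintype.card_pos h1
    omega
  have key := hC F h2 h3 hq i (by rw [pow_two]; exact hi.symm) f
  have e1 : ((ENNReal.ofReal (10 / 3))⁻¹).toReal = 3 / 10 := by
    rw [ENNReal.toReal_inv, ENNReal.toReal_ofReal (by norm_num)]
    norm_num
  have e2 : ((ENNReal.ofReal (10 / 7))⁻¹).toReal = 7 / 10 := by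
    rw [ENNReal.toReal_inv, ENNReal.toReal_ofReal (by norm_num)]
    norm_num
  rw [filter_eq_H F, e1, e2]
  exact key

end Pool.H654R4
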