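import Mathlib

set_option autoImplicit false

/-!
# Averages over H_{5,3} : statements of the tasks (MP_a1ab69_an, Q2)

`H F` is the variety `x0^2+x1^2+x2^2 = x3^2`, `x0^3+x1^3+x2^3 = x4^3` in `F^5`.
-/

open Finset

namespace Pool.H654R4

/-- The variety `H_{5,3}`. -/
def H (F : Type) [Field F] [Fintype F] [DecidableEq F] : Finset (Fin 5 → F) :=
  Finset.univ.filter (fun x => x 0 ^ 2 + x 1 ^ 2 + x 2 ^ 2 = x 3 ^ 2 ∧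
    x 0 ^ 3 + x 1 ^ 3 + x 2 ^ 3 = x 4 ^ 3)

/-- `N z` is the number of `x ∈ H` with `x - z ∈ H`. -/
def N {F : Type} [Field F] [Fintype F] [DecidableEq F] (z : Fin 5 → F) : ℕ :=
  ((H F).filter (fun x => x - z ∈ H F)).card

section algebra
variable {F : Type} [Field F]

def h1 (z : Fin 5 → F) : F := z 0 ^ 2 + z 1 ^ 2 + z 2 ^ 2 - z 3 ^ 2
def h2 (z : Fin 5 → F) : F := z 0 ^ 3 + z 1 ^ 3 + z 2 ^ 3 - z 4 ^ 3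
/-- the bilinear form of `h1` -/
def B (x z : Fin 5 → F) : F := x 0 * z 0 + x 1 * z 1 + x 2 * z 2 - x 3 * z 3
/-- `C(x,x,z)` -/
def Cxx (x z : Fin 5 → F) : F :=
  x 0 ^ 2 * z 0 + x 1 ^ 2 * z 1 + x 2 ^ 2 * z 2 - x 4 ^ 2 * z 4
/-- `C(x,z,z)` -/
def Cxz (x z : Fin 5 → F) : F :=
  x 0 * z 0 ^ 2 + x 1 * z 1 ^ 2 + x 2 * z 2 ^ 2 - x 4 * z 4 ^ 2

/-- the quadratic form `D_z`; for `x, x - z ∈ H` one has `2 B x z = h1 z` and `Dz z x = 0`. -/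
def Dz (z x : Fin 5 → F) : F :=
  -3 * h1 z ^ 2 * Cxx x z + 6 * h1 z * B x z * Cxz x z - 4 * h2 z * B x z ^ 2

/-- ruling of the quadric cone: planes `V_t` -/
def phi (i t l m y : F) : Fin 5 → F :=
  ![(l + m * t) / 2, (l - m * t) / (2 * i), (m - l * t) / 2, (m + l * t) / 2, y / 2]
/-- the plane `V_∞` -/
def phiInf (i b d y : F) : Fin 5 → F :=
  ![b / 2, -b / (2 * i), -d / 2, d / 2, y / 2]
/-- general binary cubic -/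
def cub (A B C E l m : F) : F :=
  A * l ^ 3 + 3 * B * l ^ 2 * m + 3 * C * l * m ^ 2 + E * m ^ 3
/-- the cubic `8 (x0^3+x1^3+x2^3)` on the plane `V_{(t0:t1)}` -/
def pt (i t0 t1 l m : F) : F :=
  cub ((1 + i) * t0 ^ 3 - t1 ^ 3) ((1 - i) * t0 ^ 2 * t1 + t0 * t1 ^ 2)
    ((1 + i) * t0 * t1 ^ 2 - t0 ^ 2 * t1) ((1 - i) * t1 ^ 3 + t0 ^ 3) l m

/-- the exceptional conditions when `z 4 = 0`, `h1 z ≠ 0` -/
def Exc (z : Fin 5 → F) : Prop :=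
  (∀ j : Fin 3, -3 * h1 z ^ 2 * z (j.castLE (by norm_num)) + 6 * h1 z * z (j.castLE (by norm_num)) ^ 3
      - 4 * h2 z * z (j.castLE (by norm_num)) ^ 2 = 4 * h2 z * z 3 ^ 2) ∧
  (z 0 * z 1 * (3 * h1 z * (z 0 + z 1) - 4 * h2 z) = 0) ∧
  (z 0 * z 2 * (3 * h1 z * (z 0 + z 2) - 4 * h2 z) = 0) ∧
  (z 1 * z 2 * (3 * h1 z * (z 1 + z 2) - 4 * h2 z) = 0) ∧
  (z 3 * z 0 * (4 * h2 z - 3 * h1 z * z 0) = 0) ∧
  (z 3 * z 1 * (4 * h2 z - 3 * h1 z * z 1) = 0) ∧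
  (z 3 * z 2 * (4 * h2 z - 3 * h1 z * z 2) = 0)

end algebra

/-- number of `(t, τ, y)` with `y^3 = p_t(1,τ)` and `D_z = 0` at this direction -/
def S {F : Type} [Field F] [Fintype F] [DecidableEq F] (i : F) (z : Fin 5 → F) : ℕ :=
  (Finset.univ.filter (fun s : F × F × F =>
    s.2.2 ^ 3 = pt i 1 s.1 1 s.2.1 ∧ Dz z (phi i s.1 1 s.2.1 s.2.2) = 0)).card

/-- COVER: every `x ∈ H` lies on a plane `V_t` or `V_∞` of the first ruling. -/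
def TaskCover : Prop := ∀ (F : Type) [Field F] [Fintype F] [DecidableEq F],
  (2 : F) ≠ 0 → ∀ i : F, i ^ 2 = -1 → ∀ x ∈ H F,
    (∃ t l m y : F, x = phi i t l m y ∧ y ^ 3 = pt i 1 t l m) ∨
    (∃ b d y : F, x = phiInf i b d y ∧ y ^ 3 = pt i 0 1 d b)

/-- NEVERCUBE -/
def TaskNeverCube : Prop := ∀ (F : Type) [Field F], (2 : F) ≠ 0 → ∀ i : F, i ^ 2 = -1 →
  ∀ t0 t1 : F, ¬ (t0 = 0 ∧ t1 = 0) →
  ∀ A B C E : F, A = (1 + i) * t0 ^ 3 - t1 ^ 3 → B = (1 - i) * t0 ^ 2 * t1 + t0 * t1 ^ 2 →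
    C = (1 + i) * t0 * t1 ^ 2 - t0 ^ 2 * t1 → E = (1 - i) * t1 ^ 3 + t0 ^ 3 →
    ¬ (A * C = B ^ 2 ∧ A * E = B * C ∧ B * E = C ^ 2)

/-- BINARY: a binary cubic which is not a cube -/
def TaskBinary : Prop := ∃ K : ℕ, ∀ (F : Type) [Field F] [Fintype F] [DecidableEq F],
  (2 : F) ≠ 0 → (3 : F) ≠ 0 → ∀ A B C E : F, ¬ (A * C = B ^ 2 ∧ A * E = B * C ∧ B * E = C ^ 2) →
    ∀ v1 v2 w : F, ¬ (v1 = 0 ∧ v2 = 0) →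
      (Finset.univ.filter (fun s : F × F × F =>
        s.2.2 ^ 3 = cub A B C E s.1 s.2.1 ∧
        (s.2.2 - w) ^ 3 = cub A B C E (s.1 - v1) (s.2.1 - v2))).card ≤ K * Fintype.card F

/-- ISO: isotropic `z` -/
def TaskIso : Prop := TaskBinary → TaskNeverCube →
  ∃ K : ℕ, ∀ (F : Type) [Field F] [Fintype F] [DecidableEq F],
  (2 : F) ≠ 0 → (3 : F) ≠ 0 → ∀ i : F, i ^ 2 = -1 → ∀ z : Fin 5 → F, h1 z = 0 →
    ¬ (z 0 = 0 ∧ z 1 = 0 ∧ z 2 = 0 ∧ z 3 = 0) → N z ≤ K * Fintype.card F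

/-- DIR: anisotropic `z`, reduction to directions -/
def TaskDir : Prop := TaskCover → ∀ (F : Type) [Field F] [Fintype F] [DecidableEq F],
  (2 : F) ≠ 0 → (3 : F) ≠ 0 → ∀ i : F, i ^ 2 = -1 → ∀ z : Fin 5 → F, h1 z ≠ 0 →
    N z ≤ S i z + 6 * Fintype.card F

/-- ANISO1: anisotropic `z` with `z 4 ≠ 0` -/
def TaskAniso1 : Prop := ∃ K : ℕ, ∀ (F : Type) [Field F] [Fintype F] [DecidableEq F],
  (2 : F) ≠ 0 → (3 : F) ≠ 0 → ∀ i : F, i ^ 2 = -1 → ∀ z : Fin 5 → F, h1 z ≠ 0 → z 4 ≠ 0 →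
    S i z ≤ K * Fintype.card F

/-- ANISO2: anisotropic `z` with `z 4 = 0`, not exceptional -/
def TaskAniso2 : Prop := ∃ K : ℕ, ∀ (F : Type) [Field F] [Fintype F] [DecidableEq F],
  (2 : F) ≠ 0 → (3 : F) ≠ 0 → ∀ i : F, i ^ 2 = -1 → ∀ z : Fin 5 → F, h1 z ≠ 0 → z 4 = 0 →
    ¬ Exc z → S i z ≤ K * Fintype.card F

/-- EXC: classification of the exceptional `z` -/
def TaskExc : Prop := ∀ (F : Type) [Field F], (2 : F) ≠ 0 → (3 : F) ≠ 0 → ∀ z : Fin 5 → F,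
  h1 z ≠ 0 → z 4 = 0 → Exc z →
    (z 0 = 0 ∧ z 1 = 0 ∧ z 2 = 0) ∨ (z 1 = - z 0 ∧ z 2 = 0 ∧ z 3 = 0) ∨
    (z 2 = - z 0 ∧ z 1 = 0 ∧ z 3 = 0) ∨ (z 2 = - z 1 ∧ z 0 = 0 ∧ z 3 = 0)

/-- VERT: vertical `z` -/
def TaskVert : Prop := TaskCover → TaskNeverCube →
  ∃ K : ℕ, ∀ (F : Type) [Field F] [Fintype F] [DecidableEq F],
  (2 : F) ≠ 0 → (3 : F) ≠ 0 → ∀ i : F, i ^ 2 = -1 → ∀ z : Fin 5 → F,
    z 0 = 0 → z 1 = 0 → z 2 = 0 → z 3 = 0 → z 4 ≠ 0 → N z ≤ K * Fintype.card F ^ 2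

/-- exponential sum -/
noncomputable def ES {F : Type} [Field F] [Fintype F] (ψ : AddChar F ℂ) (s t : F) : ℂ :=
  ∑ x : F, ψ (s * x ^ 2 + t * x ^ 3)

/-- SUP: pointwise bound of the exponential sums by the fourth moment -/
def TaskSup : Prop := ∀ (F : Type) [Field F] [Fintype F] [DecidableEq F],
  (2 : F) ≠ 0 → (3 : F) ≠ 0 → ∀ ψ : AddChar F ℂ, ψ.IsPrimitive →
    (∑ s : F, ∑ t : F, ‖ES ψ s t‖ ^ 4 ≤ 6 * (Fintype.card F : ℝ) ^ 4) ∧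
    ∀ s t : F, ¬ (s = 0 ∧ t = 0) → ‖ES ψ s t‖ ^ 4 ≤ 36 * (Fintype.card F : ℝ) ^ 3

/-- LOWER: lower bound of the number of points of `H` -/
def TaskLower : Prop := TaskSup →
  ∃ q0 : ℕ, ∀ (F : Type) [Field F] [Fintype F] [DecidableEq F],
  (2 : F) ≠ 0 → (3 : F) ≠ 0 → q0 ≤ Fintype.card F → Fintype.card F ^ 3 ≤ 2 * (H F).card

/-- HARM1: incidence bound from the bounds of `N` -/
def TaskHarm1 : Prop := ∀ K : ℕ, ∃ M : ℕ, ∀ (G : Type) [AddCommGroup G] [Fintype G] [DecidableEq G]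
  (q : ℕ) (V Z : Finset G), 1 ≤ q → Fintype.card G = q ^ 5 → V.card ≤ K * q ^ 3 →
  Z.card ≤ K * q →
  (∀ z : G, z ≠ 0 → (V.filter (fun x => x - z ∈ V)).card ≤ K * q ^ 2) →
  (∀ z : G, z ≠ 0 → z ∉ Z → (V.filter (fun x => x - z ∈ V)).card ≤ K * q) →
  ∀ E F : Finset G,
    ((E ×ˢ F).filter (fun s => s.2 - s.1 ∈ V)).card ^ 7 ≤ M * q ^ 6 * (E.card * F.card) ^ 5

/-- HARM2: from restricted bounds to the strong bound at `(7/10, 3/10)`, for nonnegative functions. -/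
def TaskHarm2 : Prop := ∀ M : ℕ, ∃ C : ℝ, 0 < C ∧
  ∀ (G : Type) [AddCommGroup G] [Fintype G] [DecidableEq G]
  (q : ℕ) (V : Finset G), 1 ≤ q → Fintype.card G = q ^ 5 → q ^ 3 ≤ 2 * V.card →
  (∀ E F : Finset G,
    ((E ×ˢ F).filter (fun s => s.2 - s.1 ∈ V)).card ^ 7 ≤ M * q ^ 6 * (E.card * F.card) ^ 5) →
  ∀ f g : G → ℝ, (∀ x, 0 ≤ f x) → (∀ x, 0 ≤ g x) →
    ∑ x, f x ^ ((10 : ℝ) / 7) = (q : ℝ) ^ 5 → ∑ x, g x ^ ((10 : ℝ) / 7) = (q : ℝ) ^ 5 →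
    ∑ y, ((V.card : ℝ)⁻¹ * ∑ x ∈ V, f (y - x)) * g y ≤ C * (q : ℝ) ^ 5

/-- HARM3: duality, the norm form. -/
def TaskHarm3 : Prop := ∀ C : ℝ, 0 < C → ∃ C' : ℝ,
  ∀ (G : Type) [AddCommGroup G] [Fintype G] [DecidableEq G]
  (q : ℕ) (V : Finset G), 1 ≤ q → Fintype.card G = q ^ 5 →
  (∀ f g : G → ℝ, (∀ x, 0 ≤ f x) → (∀ x, 0 ≤ g x) →
    ∑ x, f x ^ ((10 : ℝ) / 7) = (q : ℝ) ^ 5 → ∑ x, g x ^ ((10 : ℝ) / 7) = (q : ℝ) ^ 5 →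
    ∑ y, ((V.card : ℝ)⁻¹ * ∑ x ∈ V, f (y - x)) * g y ≤ C * (q : ℝ) ^ 5) →
  ∀ f : G → ℂ,
    (q : ℝ) ^ (-(5 : ℝ) * (3 / 10)) *
      ‖(WithLp.toLp (ENNReal.ofReal (10 / 3)) (fun y : G =>
        ((V.card : ℂ))⁻¹ * ∑ x ∈ V, f (y - x)) : PiLp (ENNReal.ofReal (10 / 3)) (fun _ : G => ℂ))‖
    ≤ C' * ((q : ℝ) ^ (-(5 : ℝ) * (7 / 10)) *
      ‖(WithLp.toLp (ENNReal.ofReal (10 / 7)) f : PiLp (ENNReal.ofReal (10 / 7)) (fun _ : G => ℂ))‖)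

end Pool.H654R4
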